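import Pool.Agent.H84.PP.Bracket
import Pool.Agent.H84.Sy.SphDefs

/-!
# Spheroids of pairs of functions in involution: definitions
-/

set_option autoImplicit false

open Set Filter Topology Metric Function
open scoped ContDiff NNReal

noncomputable section

namespace Pool.Agent.H84.PP

open Pool.Agent.X277.Sy

/-- A smooth `k`-spheroid of commuting pairs on `ℝ^{2n+4}`: a family of pairs of functions `f_s`,
`g_s`, `s ∈ ℝ^k`, smooth in all variables, with `{f_s, g_s} = 0` everywhere, and `f_s = x_1`,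
`g_s = x_2` off a compact subset of `ℝ^k × ℝ^{2n+4}`. Nothing is assumed on the differentials.
(The indices of the coordinates start with `0` in Lean.) -/
@[ext] structure CommFam (k n : ℕ) where
  /-- the first functions -/
  f : EuclideanSpace ℝ (Fin k) → E (n + 2) → ℝ
  /-- the second functions -/
  g : EuclideanSpace ℝ (Fin k) → E (n + 2) → ℝ
  smooth_f : ContDiff ℝ ∞ (fun p : EuclideanSpace ℝ (Fin k) × E (n + 2) => f p.1 p.2)
  smooth_g : ContDiff ℝ ∞ (fun p : EuclideanSpace ℝ (Fin k) × E (n + 2) => g p.1 p.2)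
  comm : ∀ s z, bracket (f s) (g s) z = 0
  bounded : ∃ r : ℝ, ∀ s z, (r ≤ ‖s‖ ∨ r ≤ ‖z‖) → f s z = z (0, 0) ∧ g s z = z (1, 0)

/-- Smooth homotopies of spheroids of commuting pairs (with one bound for all times). -/
def CommHomotopic {k n : ℕ} (P P' : CommFam k n) : Prop :=
  ∃ F G : ℝ → EuclideanSpace ℝ (Fin k) → E (n + 2) → ℝ,
    ContDiff ℝ ∞ (fun p : (ℝ × EuclideanSpace ℝ (Fin k)) × E (n + 2) => F p.1.1 p.1.2 p.2) ∧
    ContDiff ℝ ∞ (fun p : (ℝ × EuclideanSpace ℝ (Fin k)) × E (n + 2) => G p.1.1 p.1.2 p.2) ∧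
    (∀ t s z, bracket (F t s) (G t s) z = 0) ∧
    (∃ r : ℝ, ∀ t s z, (r ≤ ‖s‖ ∨ r ≤ ‖z‖) → F t s z = z (0, 0) ∧ G t s z = z (1, 0)) ∧
    F 0 = P.f ∧ G 0 = P.g ∧ F 1 = P'.f ∧ G 1 = P'.g

/-- `a` and `b` are equal off a compact set -/
def EqOff {m : ℕ} (a b : E m → ℝ) : Prop := ∃ r : ℝ, ∀ z, r ≤ ‖z‖ → a z = b z

/-- the coordinate `x_1` -/
def x1 {m : ℕ} (z : E (m + 1)) : ℝ := z (0, 0)

/-- the coordinate `y_1` -/
def y1 {m : ℕ} (z : E (m + 1)) : ℝ := z (0, 1)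

/-- the coordinate `x_2` -/
def x2 {m : ℕ} (z : E (m + 2)) : ℝ := z (1, 0)

/-- there is a smooth `g` with `{f, g} = 0`, equal to `x_2` off a compact set -/
def HasInvolution {n : ℕ} (f : E (n + 2) → ℝ) : Prop :=
  ∃ g : E (n + 2) → ℝ, ContDiff ℝ ∞ g ∧ EqOff g x2 ∧ ∀ z, bracket f g z = 0

/-- there is a smooth `g` with `{f, g} = 1`, equal to `y_1` off a compact set -/
def HasConjugate {n : ℕ} (f : E (n + 2) → ℝ) : Prop :=
  ∃ g : E (n + 2) → ℝ, ContDiff ℝ ∞ g ∧ EqOff g y1 ∧ ∀ z, bracket f g z = 1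

/-- `f = x_1 ∘ φ` for a compactly supported symplectomorphism `φ` -/
def IsCoordinate {n : ℕ} (f : E (n + 2) → ℝ) : Prop :=
  ∃ φ : SympCt (n + 2), ∀ z, f z = x1 (φ.map z)

end Pool.Agent.H84.PP
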