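import Pool.Agent.H84.PP.Esc

/-!
# Spheroids of pairs of functions with positive Poisson bracket: definitions
-/

set_option autoImplicit false
set_option linter.unusedSectionVars false

open Set Filter Topology Metric Function
open scoped ContDiff NNReal

noncomputable section

namespace Pool.Agent.H84.PP

open Pool.Agent.X277.Sy

/-- A smooth `k`-spheroid of positive pairs on `ℝ^{2n+2}`: a family of pairs of functions `f_s`, `g_s`,
`s ∈ ℝ^k`, smooth in all variables, with `{f_s, g_s} > 0` everywhere, and `f_s = x_1`, `g_s = y_1`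
off a compact subset of `ℝ^k × ℝ^{2n+2}`. (The indices of the coordinates start with `0` in Lean.) -/
@[ext] structure PosFam (k n : ℕ) where
  /-- the first functions -/
  f : EuclideanSpace ℝ (Fin k) → E (n + 1) → ℝ
  /-- the second functions -/
  g : EuclideanSpace ℝ (Fin k) → E (n + 1) → ℝ
  smooth_f : ContDiff ℝ ∞ (fun p : EuclideanSpace ℝ (Fin k) × E (n + 1) => f p.1 p.2)
  smooth_g : ContDiff ℝ ∞ (fun p : EuclideanSpace ℝ (Fin k) × E (n + 1) => g p.1 p.2)
  pos : ∀ s z, 0 < bracket (f s) (g s) z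
  bounded : ∃ r : ℝ, ∀ s z, (r ≤ ‖s‖ ∨ r ≤ ‖z‖) → f s z = z (0, 0) ∧ g s z = z (0, 1)

/-- Smooth homotopies of spheroids of positive pairs. -/
def PosHomotopic {k n : ℕ} (P P' : PosFam k n) : Prop :=
  ∃ F G : ℝ → EuclideanSpace ℝ (Fin k) → E (n + 1) → ℝ,
    ContDiff ℝ ∞ (fun p : (ℝ × EuclideanSpace ℝ (Fin k)) × E (n + 1) => F p.1.1 p.1.2 p.2) ∧
    ContDiff ℝ ∞ (fun p : (ℝ × EuclideanSpace ℝ (Fin k)) × E (n + 1) => G p.1.1 p.1.2 p.2) ∧
    (∀ t s z, 0 < bracket (F t s) (G t s) z) ∧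
    (∃ r : ℝ, ∀ t s z, (r ≤ ‖s‖ ∨ r ≤ ‖z‖) → F t s z = z (0, 0) ∧ G t s z = z (0, 1)) ∧
    F 0 = P.f ∧ G 0 = P.g ∧ F 1 = P'.f ∧ G 1 = P'.g

variable {k n : ℕ}

/-- The spheroid of pairs `f_s = x_1 ∘ φ_s`, `g_s = y_1 ∘ φ_s` of a spheroid of symplectomorphisms
`φ_s`. -/
def ofSymp (φ : Spheroid k (n + 1)) : PosFam k n where
  f s z := (φ.fam s).map z (0, 0)
  g s z := (φ.fam s).map z (0, 1)
  smooth_f := px.contDiff.comp (show ContDiff ℝ ∞ _ from φ.smooth)
  smooth_g := py.contDiff.comp (show ContDiff ℝ ∞ _ from φ.smooth)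
  pos s z := by
    have h : bracket (fun z => (φ.fam s).map z (0, 0)) (fun z => (φ.fam s).map z (0, 1)) z = 1 :=
      px_isSymp_comp (φ.fam s).isSymp z
    rw [h]
    exact one_pos
  bounded := by
    obtain ⟨r, h1, h2⟩ := φ.bounded
    refine ⟨r + 1, fun s z h => ?_⟩
    rcases h with h | h
    · rw [h1 s (by linarith)]
      exact ⟨rfl, rfl⟩
    · rw [far_fix (h2 s) (show r < ‖z‖ by linarith)]
      exact ⟨rfl, rfl⟩

/-- Every smooth `k`-spheroid of positive pairs on `ℝ^{2n+2}` is contractible. -/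
def PosTrivial (k n : ℕ) : Prop :=
  ∀ P : PosFam k n, PosHomotopic P (ofSymp (trivialSpheroid k (n + 1)))

end Pool.Agent.H84.PP
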