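import Pool.Agent.H84.PP.Comb
import Pool.Agent.H84.PP.Pos

/-!
# Symplectomorphisms of `ℝ^{2n+2}` and pairs of functions with positive Poisson bracket
-/

set_option autoImplicit false
set_option linter.unusedSectionVars false

open Set Filter Topology Metric Function
open scoped ContDiff NNReal

noncomputable section

namespace Pool.Agent.H84.PP

open Pool.Agent.X277.Sy

variable {k n : ℕ}

/-! ### Homotopies of positive pairs -/

theorem PosHomotopic.symm {P P' : PosFam k n} (h : PosHomotopic P P') : PosHomotopic P' P := by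
  obtain ⟨F, G, h1, h2, h3, ⟨r, h4⟩, h5, h6, h7, h8⟩ := h
  have ha : ContDiff ℝ ∞ (fun p : (ℝ × EuclideanSpace ℝ (Fin k)) × E (n + 1) =>
      (((1 - p.1.1, p.1.2), p.2) : (ℝ × EuclideanSpace ℝ (Fin k)) × E (n + 1))) :=
    ((contDiff_const.sub (contDiff_fst.comp contDiff_fst)).prodMk
      (contDiff_snd.comp contDiff_fst)).prodMk contDiff_snd
  exact ⟨fun t => F (1 - t), fun t => G (1 - t), h1.comp ha, h2.comp ha, fun t s z => h3 _ s z,
    ⟨r, fun t s z hz => h4 _ s z hz⟩, by simpa using h7, by simpa using h8, by simpa using h5,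
    by simpa using h6⟩

theorem PosHomotopic.trans {P P' P'' : PosFam k n} (h : PosHomotopic P P')
    (h' : PosHomotopic P' P'') : PosHomotopic P P'' := by
  obtain ⟨F, G, h1, h2, h3, ⟨r, h4⟩, h5, h6, h7, h8⟩ := h
  obtain ⟨F', G', h1', h2', h3', ⟨r', h4'⟩, h5', h6', h7', h8'⟩ := h'
  let σ : ℝ → ℝ := Real.smoothTransition
  have hσ : ContDiff ℝ ∞ σ := Real.smoothTransition.contDiff
  have ha : ContDiff ℝ ∞ (fun p : (ℝ × EuclideanSpace ℝ (Fin k)) × E (n + 1) =>
      (((σ (2 * p.1.1), p.1.2), p.2) : (ℝ × EuclideanSpace ℝ (Fin k)) × E (n + 1))) :=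
    ((hσ.comp (contDiff_const.mul (contDiff_fst.comp contDiff_fst))).prodMk
      (contDiff_snd.comp contDiff_fst)).prodMk contDiff_snd
  have hb : ContDiff ℝ ∞ (fun p : (ℝ × EuclideanSpace ℝ (Fin k)) × E (n + 1) =>
      (((σ (2 * p.1.1 - 1), p.1.2), p.2) : (ℝ × EuclideanSpace ℝ (Fin k)) × E (n + 1))) :=
    ((hσ.comp ((contDiff_const.mul (contDiff_fst.comp contDiff_fst)).sub contDiff_const)).prodMk
      (contDiff_snd.comp contDiff_fst)).prodMk contDiff_snd
  have hc : ContDiff ℝ ∞ (fun p : (ℝ × EuclideanSpace ℝ (Fin k)) × E (n + 1) => (p.1.2, p.2)) :=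
    (contDiff_snd.comp contDiff_fst).prodMk contDiff_snd
  let A : ℝ → EuclideanSpace ℝ (Fin k) → E (n + 1) → ℝ := fun t s z =>
    F (σ (2 * t)) s z + F' (σ (2 * t - 1)) s z - P'.f s z
  let B : ℝ → EuclideanSpace ℝ (Fin k) → E (n + 1) → ℝ := fun t s z =>
    G (σ (2 * t)) s z + G' (σ (2 * t - 1)) s z - P'.g s z
  have hA : ∀ t, (t ≤ 1 / 2 → A t = F (σ (2 * t)) ∧ B t = G (σ (2 * t))) ∧
      (1 / 2 ≤ t → A t = F' (σ (2 * t - 1)) ∧ B t = G' (σ (2 * t - 1))) := by
    intro t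
    constructor
    · intro ht
      have h0 : σ (2 * t - 1) = 0 := Real.smoothTransition.zero_of_nonpos (by linarith)
      constructor
      · funext s z
        show F (σ (2 * t)) s z + F' (σ (2 * t - 1)) s z - P'.f s z = _
        rw [h0, h5']
        ring
      · funext s z
        show G (σ (2 * t)) s z + G' (σ (2 * t - 1)) s z - P'.g s z = _
        rw [h0, h6']
        ring
    · intro ht
      have h0 : σ (2 * t) = 1 := Real.smoothTransition.one_of_one_le (by linarith)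
      constructor
      · funext s z
        show F (σ (2 * t)) s z + F' (σ (2 * t - 1)) s z - P'.f s z = _
        rw [h0, h7]
        ring
      · funext s z
        show G (σ (2 * t)) s z + G' (σ (2 * t - 1)) s z - P'.g s z = _
        rw [h0, h8]
        ring
  have e0 : σ 0 = 0 := Real.smoothTransition.zero
  have e1 : σ 1 = 1 := Real.smoothTransition.one
  refine ⟨A, B, ((h1.comp ha).add (h1'.comp hb)).sub (P'.smooth_f.comp hc),
    ((h2.comp ha).add (h2'.comp hb)).sub (P'.smooth_g.comp hc), fun t s z => ?_,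
    ⟨max r r', fun t s z hz => ?_⟩, ?_, ?_, ?_, ?_⟩
  · rcases le_total t (1 / 2) with ht | ht
    · rw [((hA t).1 ht).1, ((hA t).1 ht).2]
      exact h3 _ s z
    · rw [((hA t).2 ht).1, ((hA t).2 ht).2]
      exact h3' _ s z
  · have z1 : r ≤ ‖s‖ ∨ r ≤ ‖z‖ :=
      hz.imp (le_trans (le_max_left _ _)) (le_trans (le_max_left _ _))
    have z2 : r' ≤ ‖s‖ ∨ r' ≤ ‖z‖ :=
      hz.imp (le_trans (le_max_right _ _)) (le_trans (le_max_right _ _))
    rcases le_total t (1 / 2) with ht | ht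
    · rw [((hA t).1 ht).1, ((hA t).1 ht).2]
      exact h4 _ s z z1
    · rw [((hA t).2 ht).1, ((hA t).2 ht).2]
      exact h4' _ s z z2
  · rw [((hA 0).1 (by norm_num)).1, mul_zero, e0, h5]
  · rw [((hA 0).1 (by norm_num)).2, mul_zero, e0, h6]
  · rw [((hA 1).2 (by norm_num)).1, show (2 : ℝ) * 1 - 1 = 1 by norm_num, e1, h7']
  · rw [((hA 1).2 (by norm_num)).2, show (2 : ℝ) * 1 - 1 = 1 by norm_num, e1, h8']

/-- homotopic spheroids of symplectomorphisms give homotopic pairs -/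
theorem posHomotopic_of_homotopic {φ ψ : Spheroid k (n + 1)} (h : Homotopic φ ψ) :
    PosHomotopic (ofSymp φ) (ofSymp ψ) := by
  obtain ⟨K, hK, F, h1, h2, h3, ⟨r, h4⟩, h5⟩ := h
  obtain ⟨r', hr'⟩ := hK.isBounded.subset_closedBall (0 : E (n + 1))
  refine ⟨fun t s z => px ((F (t, s)).map z), fun t s z => py ((F (t, s)).map z),
    px.contDiff.comp h1, py.contDiff.comp h1, fun t s z => ?_,
    ⟨max r (r' + 1), fun t s z hz => ?_⟩, ?_, ?_, ?_, ?_⟩
  · rw [px_isSymp_comp (F (t, s)).isSymp]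
    exact one_pos
  · rcases hz with hz | hz
    · show (F (t, s)).map z (0, 0) = _ ∧ (F (t, s)).map z (0, 1) = _
      rw [h4 t s ((le_max_left _ _).trans hz)]
      exact ⟨rfl, rfl⟩
    · show (F (t, s)).map z (0, 0) = _ ∧ (F (t, s)).map z (0, 1) = _
      rw [far_fix (supp_mono hr' (h5 (t, s))) (show r' < ‖z‖ by
        linarith [(le_max_right r (r' + 1)).trans hz])]
      exact ⟨rfl, rfl⟩
  · funext s z
    show (F (0, s)).map z (0, 0) = _
    rw [h2]
    rfl
  · funext s z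
    show (F (0, s)).map z (0, 1) = _
    rw [h2]
    rfl
  · funext s z
    show (F (1, s)).map z (0, 0) = _
    rw [h3]
    rfl
  · funext s z
    show (F (1, s)).map z (0, 1) = _
    rw [h3]
    rfl

/-! ### Wave maps with trivial data -/

theorem wave_id {Q : Type} [NormedAddCommGroup Q] [NormedSpace ℝ Q] {S : ℝ}
    {Ω : Q → E (n + 1) → E (n + 1)} (hΩ : PFam S Ω) {q : Q}
    (h : ∀ z, px (Ω q z) = px z) (z : E (n + 1)) : Ω q z = z := by
  have h1 : Ω q = id := unique_of_px (hΩ.symp q) isSymp_id (R := S)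
    (fun z hz => hΩ.out q z (Or.inl hz)) (fun z _ => rfl) h
  rw [h1]
  rfl

theorem wave_symp {Q : Type} [NormedAddCommGroup Q] [NormedSpace ℝ Q] {S : ℝ}
    {Ω : Q → E (n + 1) → E (n + 1)} (hΩ : PFam S Ω) {q : Q} (φ : SympCt (n + 1)) {r : ℝ}
    (hφ : SupportedIn (closedBall 0 r) φ.map)
    (h : ∀ z, px (Ω q z) = px (φ.map z)) : Ω q = φ.map := by
  refine unique_of_px (hΩ.symp q) φ.isSymp (R := max S (r + 1))
    (fun z hz => hΩ.out q z (Or.inl ((le_max_left _ _).trans hz))) (fun z hz => ?_) h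
  refine far_fix hφ ?_
  have h1 := (le_max_right S (r + 1)).trans hz
  have h2 := (le_abs_self (py z)).trans (abs_py_le z)
  linarith

/-- compactness of the parameters -/
theorem exists_clamp {Q : Type} [NormedAddCommGroup Q] [NormedSpace ℝ Q]
    {R : ℝ} (hR : 0 < R) (q : Q) : ∃ q' ∈ closedBall (0 : Q) R, q' = q ∨ (R ≤ ‖q‖ ∧ R ≤ ‖q'‖) := by
  rcases le_total ‖q‖ R with h | h
  · exact ⟨q, by simpa using h, Or.inl rfl⟩
  · have hq : 0 < ‖q‖ := hR.trans_le h
    have h1 : ‖(R / ‖q‖) • q‖ = R := by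
      rw [norm_smul, Real.norm_eq_abs, abs_of_pos (div_pos hR hq), div_mul_cancel₀ _ hq.ne']
    exact ⟨(R / ‖q‖) • q, by rw [mem_closedBall_zero_iff, h1], Or.inr ⟨h, h1.ge⟩⟩

theorem clamp_unit (r : ℝ) : ∃ r' ∈ Icc (0 : ℝ) 1,
    Real.smoothTransition r = Real.smoothTransition r' := by
  rcases le_total r 0 with h3 | h3
  · refine ⟨0, ⟨le_rfl, zero_le_one⟩, ?_⟩
    rw [Real.smoothTransition.zero_of_nonpos h3, Real.smoothTransition.zero]
  · rcases le_total r 1 with h4 | h4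
    · exact ⟨r, ⟨h3, h4⟩, rfl⟩
    · refine ⟨1, ⟨zero_le_one, le_rfl⟩, ?_⟩
      rw [Real.smoothTransition.one_of_one_le h4, Real.smoothTransition.one]

theorem wave_of_posFam (P : PosFam k n) : ∃ (R S : ℝ)
    (Ω : EuclideanSpace ℝ (Fin k) → E (n + 1) → E (n + 1)), 0 < R ∧ R ≤ S ∧ PFam S Ω ∧
      PosData R P.f P.g ∧
      (∀ s z, px (Ω s z) = P.f s z) ∧ (∀ s z, (∀ z, bracket (P.f s) (P.g s) z = 1) →
        py (Ω s z) = P.g s z) ∧
      (∀ s z, R ≤ ‖s‖ → P.f s z = px z ∧ P.g s z = py z) ∧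
      ∀ s z, R ≤ ‖s‖ → Ω s z = z := by
  obtain ⟨r, hr⟩ := P.bounded
  set R : ℝ := max r 1 with hR
  have hR1 : 0 < R := lt_of_lt_of_le one_pos (le_max_right _ _)
  have hrR : r ≤ R := le_max_left _ _
  have hdat : PosData R P.f P.g := ⟨P.smooth_f, P.smooth_g,
    fun s z hz => (hr s z (Or.inr (hrR.trans hz))).1,
    fun s z hz => (hr s z (Or.inr (hrR.trans hz))).2, P.pos⟩
  have hfar : ∀ s z, R ≤ ‖s‖ → P.f s z = px z ∧ P.g s z = py z := fun s z hs =>
    hr s z (Or.inl (hrR.trans hs))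
  obtain ⟨S, Ω, h1, h2, h3, h4⟩ := exists_wave hR1.le hdat (isCompact_closedBall (0 : _) R)
    (fun s => by
      obtain ⟨s', hs', h⟩ := exists_clamp hR1 s
      refine ⟨s', hs', ?_⟩
      rcases h with h | ⟨h, h'⟩
      · rw [h]
      · funext z
        rw [(hfar s z h).1, (hfar s' z h').1])
  exact ⟨R, S, Ω, hR1, h1, h2, hdat, h3, fun s z h => h4 s h z, hfar, fun s z hs =>
    wave_id h2 (fun z => by rw [h3, (hfar s z hs).1]) z⟩

/-- pairs with bracket one -/
theorem exists_symp_of_one (hn : 0 < n) (P : PosFam k n)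
    (h1 : ∀ s z, bracket (P.f s) (P.g s) z = 1) : ∃ φ : Spheroid k (n + 1), ofSymp φ = P := by
  obtain ⟨R, S, Ω, hR, hRS, hΩ, hdat, hf, hg, hfar, hid⟩ := wave_of_posFam P
  have hleft : ∀ s z, py z ≤ -S → pv (Ω s z) = pv z := by
    intro s z hz
    refine hΩ.no_delay (fun z hz => ?_) hz
    rw [hg s z (h1 s), hdat.out_g s z]
    have h2 := neg_abs_le (py z)
    linarith [abs_py_le z]
  obtain ⟨φ, φ1, φ2, φ3⟩ := hΩ.toSymp hn hleft
  refine ⟨⟨φ, φ1, max R (3 * S), fun s hs => ?_, fun s => ?_⟩, ?_⟩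
  · apply SympCt.ext
    rw [φ2]
    funext z
    exact hid s z ((le_max_left _ _).trans hs)
  · exact supp_mono (closedBall_subset_closedBall (le_max_right _ _)) (φ3 s)
  · apply PosFam.ext
    · funext s z
      show px ((φ s).map z) = P.f s z
      rw [φ2, hf]
    · funext s z
      show py ((φ s).map z) = P.g s z
      rw [φ2, hg s z (h1 s)]

/-- **Surjectivity.** -/
theorem surj (hn : 0 < n) (hT : PiTrivial (k + 1) n) (P : PosFam k n) :
    ∃ φ : Spheroid k (n + 1), PosHomotopic P (ofSymp φ) := by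
  obtain ⟨R, S, Ω, hR, hRS, hΩ, hdat, hf, -, hfar, hid⟩ := wave_of_posFam P
  have hT' : PiTrivial (Module.finrank ℝ (EuclideanSpace ℝ (Fin k)) + 1) n := by
    rw [finrank_euclideanSpace, Fintype.card_fin]
    exact hT
  obtain ⟨R', Ψ, hRR, hΨ, hΨ0, hΨ1, ρ', hρ'⟩ := hΩ.kill hn hT' (by linarith) (ρ := R)
    (fun s hs => ⟨0, fun z _ => by rw [hid s z hs]⟩)
  have hR'0 : 0 ≤ R' := by linarith
  obtain ⟨R'', e, he, he1, he2, he3⟩ := hΨ.exists_escape hR'0
  -- the symplectic spheroid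
  have hΨ' : PFam R' (fun (s : EuclideanSpace ℝ (Fin k)) z => Ψ (1, s) z) :=
    hΨ.comp (contDiff_const.prodMk contDiff_id)
  obtain ⟨φ, φ1, φ2, φ3⟩ := hΨ'.toSymp hn (fun s z hz => by rw [hΨ1 s z hz])
  let Φ : Spheroid k (n + 1) :=
    { fam := φ
      smooth := φ1
      bounded := by
        refine ⟨max (max R ρ') (3 * R'), fun s hs => ?_, fun s => ?_⟩
        · apply SympCt.ext
          rw [φ2]
          funext z
          show Ψ (1, s) z = z
          rw [hρ' 1 s z (((le_max_right _ _).trans (le_max_left _ _)).trans hs),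
            hid s z (((le_max_left _ _).trans (le_max_left _ _)).trans hs)]
        · exact supp_mono (closedBall_subset_closedBall (le_max_right _ _)) (φ3 s) }
  refine ⟨Φ, ?_⟩
  let σ : ℝ → ℝ := Real.smoothTransition
  have hσ : ContDiff ℝ ∞ σ := Real.smoothTransition.contDiff
  let F : ℝ → EuclideanSpace ℝ (Fin k) → E (n + 1) → ℝ := fun t s z => px (Ψ (2 * t - 1, s) z)
  let G : ℝ → EuclideanSpace ℝ (Fin k) → E (n + 1) → ℝ := fun t s z =>
    (1 - σ (2 * t)) * P.g s z + σ (2 * t) * e (2 * t - 1, s) z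
  have hA : ContDiff ℝ ∞ (fun p : (ℝ × EuclideanSpace ℝ (Fin k)) × E (n + 1) =>
      ((2 * p.1.1 - 1, p.1.2), p.2)) :=
    (((contDiff_const.mul (contDiff_fst.comp contDiff_fst)).sub contDiff_const).prodMk
      (contDiff_snd.comp contDiff_fst)).prodMk contDiff_snd
  have hB : ContDiff ℝ ∞ (fun p : (ℝ × EuclideanSpace ℝ (Fin k)) × E (n + 1) =>
      σ (2 * p.1.1)) := hσ.comp (contDiff_const.mul (contDiff_fst.comp contDiff_fst))
  have hC : ContDiff ℝ ∞ (fun p : (ℝ × EuclideanSpace ℝ (Fin k)) × E (n + 1) => (p.1.2, p.2)) :=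
    (contDiff_snd.comp contDiff_fst).prodMk contDiff_snd
  have heslice : ∀ p, Differentiable ℝ (e p) := fun p => (slice_smooth he p).differentiable (by simp)
  have hgslice : ∀ s, Differentiable ℝ (P.g s) := fun s =>
    (slice_smooth P.smooth_g s).differentiable (by simp)
  refine ⟨F, G, px.contDiff.comp (hΨ.smooth.comp hA),
    ((contDiff_const.sub hB).mul (P.smooth_g.comp hC)).add (hB.mul (he.comp hA)), ?_, ?_, ?_, ?_,
    ?_, ?_⟩
  · intro t s z
    have h1 : bracket (F t s) (G t s) z = (1 - σ (2 * t)) * bracket (F t s) (P.g s) z +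
        σ (2 * t) * bracket (F t s) (e (2 * t - 1, s)) z :=
      bracket_combo (hgslice s z) (heslice _ z) _ _
    have h2 : 0 < bracket (F t s) (e (2 * t - 1, s)) z := he2 (2 * t - 1, s) z
    rw [h1]
    rcases le_total t (1 / 2) with ht | ht
    · have h3 : F t s = P.f s := by
        funext w
        show px (Ψ (2 * t - 1, s) w) = P.f s w
        rw [hΨ0 _ s w (by linarith), hf]
      rw [h3] at h2 ⊢
      have h4 := P.pos s z
      have h5 := Real.smoothTransition.nonneg (2 * t)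
      have h6 := Real.smoothTransition.le_one (2 * t)
      have h7 : 0 ≤ σ (2 * t) := h5
      have h8 : σ (2 * t) ≤ 1 := h6
      rcases h7.eq_or_lt with h9 | h9
      · rw [← h9, sub_zero, one_mul, zero_mul, add_zero]
        exact h4
      · have h10 : 0 < σ (2 * t) * bracket (P.f s) (e (2 * t - 1, s)) z := mul_pos h9 h2
        have h11 : 0 ≤ (1 - σ (2 * t)) * bracket (P.f s) (P.g s) z :=
          mul_nonneg (by linarith) h4.le
        linarith
    · have h3 : σ (2 * t) = 1 := Real.smoothTransition.one_of_one_le (by linarith)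
      rw [h3, sub_self, zero_mul, one_mul, zero_add]
      exact h2
  · refine ⟨max (max R ρ') R'', fun t s z hz => ?_⟩
    have key : px (Ψ (2 * t - 1, s) z) = px z ∧ P.g s z = py z ∧ e (2 * t - 1, s) z = py z := by
      rcases hz with hz | hz
      · have hz1 : R ≤ ‖s‖ := ((le_max_left _ _).trans (le_max_left _ _)).trans hz
        have hz2 : ρ' ≤ ‖s‖ := ((le_max_right _ _).trans (le_max_left _ _)).trans hz
        have h1 : ∀ w, Ψ (2 * t - 1, s) w = w := fun w => by
          rw [hρ' _ s w hz2, hid s w hz1]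
        refine ⟨by rw [h1], (hfar s z hz1).2, ?_⟩
        rw [he3 (2 * t - 1, s) (fun w _ => h1 w), h1]
      · have h1 := he1 (2 * t - 1, s) z ((le_max_right _ _).trans hz)
        by_cases h2 : R ≤ ‖z‖
        · exact ⟨h1.1, hdat.out_g s z h2, h1.2⟩
        · exact absurd (((le_max_left R ρ').trans (le_max_left _ R'')).trans hz) h2
    obtain ⟨k1, k2, k3⟩ := key
    refine ⟨k1, ?_⟩
    show (1 - σ (2 * t)) * P.g s z + σ (2 * t) * e (2 * t - 1, s) z = py z
    rw [k2, k3]
    ring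
  · funext s z
    show px (Ψ (2 * 0 - 1, s) z) = P.f s z
    rw [hΨ0 _ s z (by norm_num), hf]
  · funext s z
    show (1 - σ (2 * 0)) * P.g s z + σ (2 * 0) * e (2 * 0 - 1, s) z = P.g s z
    have h0 : σ (2 * 0) = 0 := Real.smoothTransition.zero_of_nonpos (by norm_num)
    rw [h0]
    ring
  · funext s z
    show px (Ψ (2 * 1 - 1, s) z) = px ((φ s).map z)
    rw [φ2]
    norm_num
  · funext s z
    show (1 - σ (2 * 1)) * P.g s z + σ (2 * 1) * e (2 * 1 - 1, s) z = py ((φ s).map z)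
    have h0 : σ (2 * 1) = 1 := Real.smoothTransition.one_of_one_le (by norm_num)
    have h1 : (2 * 1 - 1 : ℝ) = 1 := by norm_num
    rw [h0, h1, φ2, he3 (1, s) (fun w hw => hΨ1 s w hw)]
    ring

/-- **Injectivity at the trivial spheroid.** -/
theorem inj0 (hn : 0 < n) (hT : PiTrivial (k + 2) n) (φ : Spheroid k (n + 1))
    (h : PosHomotopic (ofSymp φ) (ofSymp (trivialSpheroid k (n + 1)))) :
    Homotopic φ (trivialSpheroid k (n + 1)) := by
  obtain ⟨F, G, hF, hG, hpos, ⟨r, hr⟩, hF0, hG0, hF1, hG1⟩ := h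
  obtain ⟨rφ, hφ1, hφ2⟩ := φ.bounded
  set R : ℝ := max r 1 with hR
  have hR1 : 0 < R := lt_of_lt_of_le one_pos (le_max_right _ _)
  have hrR : r ≤ R := le_max_left _ _
  let σ : ℝ → ℝ := Real.smoothTransition
  have hσ : ContDiff ℝ ∞ σ := Real.smoothTransition.contDiff
  let f : ℝ × EuclideanSpace ℝ (Fin k) → E (n + 1) → ℝ := fun q z => F (1 - σ q.1) q.2 z
  let g : ℝ × EuclideanSpace ℝ (Fin k) → E (n + 1) → ℝ := fun q z => G (1 - σ q.1) q.2 z
  have hA : ContDiff ℝ ∞ (fun p : (ℝ × EuclideanSpace ℝ (Fin k)) × E (n + 1) =>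
      ((1 - σ p.1.1, p.1.2), p.2)) :=
    ((contDiff_const.sub (hσ.comp (contDiff_fst.comp contDiff_fst))).prodMk
      (contDiff_snd.comp contDiff_fst)).prodMk contDiff_snd
  have hdat : PosData R f g := ⟨hF.comp hA, hG.comp hA,
    fun q z hz => (hr _ _ z (Or.inr (hrR.trans hz))).1,
    fun q z hz => (hr _ _ z (Or.inr (hrR.trans hz))).2, fun q z => hpos _ _ z⟩
  have hfar : ∀ q z, R ≤ ‖q.2‖ → f q z = px z := fun q z hs =>
    (hr _ q.2 z (Or.inl (hrR.trans hs))).1
  obtain ⟨S, Ω, hRS, hΩ, hpx, -⟩ := exists_wave hR1.le hdat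
    ((isCompact_Icc (a := (0 : ℝ)) (b := 1)).prod
      (isCompact_closedBall (0 : EuclideanSpace ℝ (Fin k)) R)) (fun q => by
      obtain ⟨s', hs', h⟩ := exists_clamp hR1 q.2
      obtain ⟨t', ht', h'⟩ := clamp_unit q.1
      refine ⟨(t', s'), ⟨ht', hs'⟩, ?_⟩
      rcases h with h | ⟨h, h''⟩
      · funext z
        show F (1 - Real.smoothTransition q.1) q.2 z = F (1 - Real.smoothTransition t') s' z
        rw [h', h]
      · funext z
        rw [hfar q z h, hfar (t', s') z h''])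
  have hid1 : ∀ t s z, R ≤ ‖s‖ → Ω (t, s) z = z := fun t s z hs =>
    wave_id hΩ (fun z => by rw [hpx, hfar (t, s) z hs]) z
  have hid2 : ∀ t s z, t ≤ 0 → Ω (t, s) z = z := by
    intro t s z ht
    refine wave_id hΩ (fun z => ?_) z
    rw [hpx]
    show F (1 - Real.smoothTransition t) s z = px z
    rw [Real.smoothTransition.zero_of_nonpos ht, sub_zero, hF1]
    rfl
  have hid3 : ∀ t s, 1 ≤ t → Ω (t, s) = (φ.fam s).map := by
    intro t s ht
    refine wave_symp hΩ (φ.fam s) (hφ2 s) (fun z => ?_)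
    rw [hpx]
    show F (1 - Real.smoothTransition t) s z = px ((φ.fam s).map z)
    rw [Real.smoothTransition.one_of_one_le ht, sub_self, hF0]
    rfl
  obtain ⟨R', Ψ, hRR, hΨ, -, hΨ1, ρ', hρ'⟩ := hΩ.kill hn (by
    rw [Module.finrank_prod, Module.finrank_self, finrank_euclideanSpace, Fintype.card_fin,
      show 1 + k + 1 = k + 2 by ring]
    exact hT) (by linarith) (ρ := R) (by
      rintro ⟨t, s⟩ hq
      have h1 : ‖((t, s) : ℝ × EuclideanSpace ℝ (Fin k))‖ = max ‖t‖ ‖s‖ := rfl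
      rw [h1] at hq
      rcases le_max_iff.1 hq with h2 | h2
      · rcases le_total t 0 with h3 | h3
        · exact ⟨0, fun z _ => by rw [hid2 t s z h3]⟩
        · have h4 : 1 ≤ t := by
            rw [Real.norm_eq_abs, abs_of_nonneg h3] at h2
            exact (le_max_right r 1).trans h2
          refine ⟨-(rφ + 1), fun z hz => ?_⟩
          rw [hid3 t s h4, far_fix (hφ2 s)]
          have h5 := neg_abs_le (py z)
          linarith [abs_py_le z]
      · exact ⟨0, fun z _ => by rw [hid1 t s z h2]⟩)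
  have hΨ' : PFam R' (fun (q : ℝ × EuclideanSpace ℝ (Fin k)) z => Ψ (1, q) z) :=
    hΨ.comp (contDiff_const.prodMk contDiff_id)
  obtain ⟨χ, χ1, χ2, χ3⟩ := hΨ'.toSymp hn (fun s z hz => by rw [hΨ1 s z hz])
  set a : ℝ := max (max ρ' 1) R with ha
  have ha1 : 1 ≤ a := (le_max_right _ _).trans (le_max_left _ _)
  have haρ : ρ' ≤ a := (le_max_left _ _).trans (le_max_left _ _)
  have hbig : ∀ (t : ℝ) (s : EuclideanSpace ℝ (Fin k)), |t| = a → ρ' ≤ ‖(t, s)‖ := by
    intro t s ht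
    have h1 : ‖((t, s) : ℝ × EuclideanSpace ℝ (Fin k))‖ = max ‖t‖ ‖s‖ := rfl
    rw [h1, Real.norm_eq_abs, ht]
    exact haρ.trans (le_max_left _ _)
  refine ⟨closedBall 0 (3 * R'), isCompact_closedBall _ _, fun q => χ (a - 2 * a * q.1, q.2),
    χ1.comp ((contDiff_const.sub (contDiff_const.mul contDiff_fst)).prodMk contDiff_snd),
    fun s => ?_, fun s => ?_, ⟨max ρ' R, fun t s hs => ?_⟩, fun q => χ3 _⟩
  · apply SympCt.ext
    show (χ (a - 2 * a * 0, s)).map = (φ.fam s).map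
    rw [χ2]
    funext z
    show Ψ (1, (a - 2 * a * 0, s)) z = _
    have e1 : a - 2 * a * 0 = a := by ring
    rw [e1, hρ' 1 (a, s) z (hbig a s (abs_of_pos (by linarith))), hid3 a s ha1]
  · apply SympCt.ext
    show (χ (a - 2 * a * 1, s)).map = id
    rw [χ2]
    funext z
    show Ψ (1, (a - 2 * a * 1, s)) z = z
    have e1 : a - 2 * a * 1 = -a := by ring
    rw [e1, hρ' 1 (-a, s) z (hbig (-a) s (by rw [abs_neg, abs_of_pos (by linarith)])),
      hid2 (-a) s z (by linarith)]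
  · apply SympCt.ext
    show (χ (a - 2 * a * t, s)).map = id
    rw [χ2]
    funext z
    show Ψ (1, (a - 2 * a * t, s)) z = z
    have h2 : ρ' ≤ ‖((a - 2 * a * t, s) : ℝ × EuclideanSpace ℝ (Fin k))‖ := by
      have h1 : ‖((a - 2 * a * t, s) : ℝ × EuclideanSpace ℝ (Fin k))‖ =
          max ‖a - 2 * a * t‖ ‖s‖ := rfl
      rw [h1]
      exact ((le_max_left _ _).trans hs).trans (le_max_right _ _)
    rw [hρ' 1 _ z h2, hid1 _ s z ((le_max_right _ _).trans hs)]

/-- **Injectivity.** -/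
theorem inj (hn : 0 < n) (hT : PiTrivial (k + 2) n) (φ ψ : Spheroid k (n + 1))
    (h : PosHomotopic (ofSymp φ) (ofSymp ψ)) : Homotopic φ ψ := by
  obtain ⟨rφ, hφ1, hφ2⟩ := φ.bounded
  obtain ⟨rψ, hψ1, hψ2⟩ := ψ.bounded
  let δ : Spheroid k (n + 1) :=
    { fam := fun s => φ.fam s * (ψ.fam s)⁻¹
      smooth := φ.smooth.mul ψ.smooth.inv
      bounded := by
        refine ⟨max rφ rψ, fun s hs => ?_, fun s => ?_⟩
        · rw [hφ1 s ((le_max_left _ _).trans hs), hψ1 s ((le_max_right _ _).trans hs)]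
          simp
        · exact supp_mul (supp_mono (closedBall_subset_closedBall (le_max_left _ _)) (hφ2 s))
            (supp_inv (supp_mono (closedBall_subset_closedBall (le_max_right _ _)) (hψ2 s))) }
  have h1 : PosHomotopic (ofSymp δ) (ofSymp (trivialSpheroid k (n + 1))) := by
    obtain ⟨F, G, hF, hG, hpos, ⟨r, hr⟩, hF0, hG0, hF1, hG1⟩ := h
    have hinv : ContDiff ℝ ∞ (fun p : EuclideanSpace ℝ (Fin k) × E (n + 1) =>
        ((ψ.fam p.1)⁻¹).map p.2) := ψ.smooth.inv
    have hA : ContDiff ℝ ∞ (fun p : (ℝ × EuclideanSpace ℝ (Fin k)) × E (n + 1) =>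
        ((p.1.1, p.1.2), ((ψ.fam p.1.2)⁻¹).map p.2)) :=
      ((contDiff_fst.comp contDiff_fst).prodMk (contDiff_snd.comp contDiff_fst)).prodMk
        (hinv.comp ((contDiff_snd.comp contDiff_fst).prodMk contDiff_snd))
    refine ⟨fun t s z => F t s ((ψ.fam s)⁻¹.map z), fun t s z => G t s ((ψ.fam s)⁻¹.map z),
      hF.comp hA, hG.comp hA, fun t s z => ?_, ⟨max (max r rψ) (rψ + 1), fun t s z hz => ?_⟩,
      ?_, ?_, ?_, ?_⟩
    · have hsl : ∀ {H : ℝ → EuclideanSpace ℝ (Fin k) → E (n + 1) → ℝ},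
          ContDiff ℝ ∞ (fun p : (ℝ × EuclideanSpace ℝ (Fin k)) × E (n + 1) => H p.1.1 p.1.2 p.2) →
          Differentiable ℝ (H t s) := fun {H} hH =>
        ContDiff.differentiable (n := ∞) (slice_smooth (f := fun q z => H q.1 q.2 z) hH (t, s))
          (by simp)
      rw [bracket_comp ((ψ.fam s)⁻¹).isSymp (hsl hF) (hsl hG)]
      exact hpos t s _
    · rcases hz with hz | hz
      · have hz1 : r ≤ ‖s‖ := ((le_max_left _ _).trans (le_max_left _ _)).trans hz
        have hz2 : rψ ≤ ‖s‖ := ((le_max_right _ _).trans (le_max_left _ _)).trans hz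
        show F t s ((ψ.fam s)⁻¹.map z) = _ ∧ G t s ((ψ.fam s)⁻¹.map z) = _
        rw [hψ1 s hz2, inv_one]
        exact hr t s z (Or.inl hz1)
      · have hz1 : r ≤ ‖z‖ := ((le_max_left _ _).trans (le_max_left _ _)).trans hz
        have hz2 : rψ + 1 ≤ ‖z‖ := (le_max_right _ _).trans hz
        show F t s ((ψ.fam s)⁻¹.map z) = _ ∧ G t s ((ψ.fam s)⁻¹.map z) = _
        rw [far_fix (supp_inv (hψ2 s)) (show rψ < ‖z‖ by linarith)]
        exact hr t s z (Or.inr hz1)
    · funext s z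
      show F 0 s ((ψ.fam s)⁻¹.map z) = _
      rw [hF0]
      rfl
    · funext s z
      show G 0 s ((ψ.fam s)⁻¹.map z) = _
      rw [hG0]
      rfl
    · funext s z
      show F 1 s ((ψ.fam s)⁻¹.map z) = _
      rw [hF1]
      show px ((ψ.fam s).map ((ψ.fam s)⁻¹.map z)) = px z
      rw [map_inv_map]
    · funext s z
      show G 1 s ((ψ.fam s)⁻¹.map z) = _
      rw [hG1]
      show py ((ψ.fam s).map ((ψ.fam s)⁻¹.map z)) = py z
      rw [map_inv_map]
  obtain ⟨K, hK, F, F1, F2, F3, ⟨r, F4⟩, F5⟩ := inj0 hn hT δ h1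
  refine ⟨K ∪ closedBall 0 rψ, hK.union (isCompact_closedBall _ _), fun q => F q * ψ.fam q.2,
    F1.mul (ψ.smooth.comp contDiff_snd), fun s => ?_, fun s => ?_, ⟨max r rψ, fun t s hs => ?_⟩,
    fun q => supp_mul (supp_mono subset_union_left (F5 q))
      (supp_mono subset_union_right (hψ2 q.2))⟩
  · show F (0, s) * ψ.fam s = φ.fam s
    rw [F2]
    show φ.fam s * (ψ.fam s)⁻¹ * ψ.fam s = φ.fam s
    rw [inv_mul_cancel_right]
  · show F (1, s) * ψ.fam s = ψ.fam s
    rw [F3]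
    show 1 * ψ.fam s = ψ.fam s
    rw [one_mul]
  · show F (t, s) * ψ.fam s = 1
    rw [F4 t s ((le_max_left _ _).trans hs), hψ1 s ((le_max_right _ _).trans hs), one_mul]

theorem posTrivial_of (hn : 0 < n) (h1 : PiTrivial (k + 1) n) (h2 : PiTrivial k (n + 1)) :
    PosTrivial k n := by
  intro P
  obtain ⟨φ, hφ⟩ := surj hn h1 P
  exact hφ.trans (posHomotopic_of_homotopic (h2 φ))

theorem piTrivial_of (hn : 0 < n) (h1 : PiTrivial (k + 2) n) (h2 : PosTrivial k n) :
    PiTrivial k (n + 1) := fun φ => inj0 hn h1 φ (h2 _)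

/-- `π_0` and path components -/
theorem piTrivial_zero_iff (m : ℕ) : PiTrivial 0 m ↔ PathConnectedSpace (SympCt m) := by
  have hs : ∀ s : EuclideanSpace ℝ (Fin 0), s = 0 := fun s => Subsingleton.elim _ _
  constructor
  · intro h
    have h1 : ∀ φ : SympCt m, Joined φ 1 := by
      intro φ
      obtain ⟨K, hK⟩ := φ.compactSupport
      obtain ⟨r, hr⟩ := hK.1.isBounded.subset_closedBall (0 : E m)
      let f : Spheroid 0 m :=
        { fam := fun _ => φ
          smooth := isSmoothFamily_const φ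
          bounded := ⟨max r 1, fun s hs' => by
            rw [hs s, norm_zero] at hs'
            linarith [le_max_right r 1], fun _ => supp_mono (hr.trans
              (closedBall_subset_closedBall (le_max_left _ _))) hK.2⟩ }
      obtain ⟨L, hL, F, F1, F2, F3, -, F5⟩ := h f
      refine Isotopic.joined ⟨L, hL, fun t => (F (t, 0)).map, ⟨?_, fun t => (F (t, 0)).isSymp,
        fun t => F5 _⟩, ?_, ?_⟩
      · have h2 : ContDiff ℝ ∞ (fun p : ℝ × E m =>
            (((p.1, (0 : EuclideanSpace ℝ (Fin 0))), p.2) :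
              (ℝ × EuclideanSpace ℝ (Fin 0)) × E m)) :=
          (contDiff_fst.prodMk contDiff_const).prodMk contDiff_snd
        exact ContDiff.comp F1 h2
      · show (F (0, 0)).map = φ.map
        rw [F2]
      · show (F (1, 0)).map = _
        rw [F3]
        rfl
    exact ⟨⟨1⟩, fun φ ψ => (h1 φ).trans (h1 ψ).symm⟩
  · intro h f
    obtain ⟨K, hK, Φ, h1, h2, h3⟩ := (joined_iff (f.fam 0) 1).1 (h.joined _ _)
    refine ⟨K, hK, fun q => ⟨Φ q.1, h1.symp _, K, hK, h1.supp _⟩, ?_, fun s => ?_, fun s => ?_,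
      ⟨1, fun t s hs' => ?_⟩, fun q => h1.supp _⟩
    · have h4 : ContDiff ℝ ∞ (fun p : (ℝ × EuclideanSpace ℝ (Fin 0)) × E m => (p.1.1, p.2)) :=
        (contDiff_fst.comp contDiff_fst).prodMk contDiff_snd
      exact ContDiff.comp h1.smooth h4
    · apply SympCt.ext
      rw [hs s]
      exact h2
    · apply SympCt.ext
      exact h3
    · rw [hs s, norm_zero] at hs'
      linarith

end Pool.Agent.H84.PP
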