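import Pool.Agent.H84.PP.CFlow
import Pool.Agent.H84.PP.Main
import Pool.Agent.H84.PP.CommDefs

/-!
# Symplectomorphisms and pairs of functions in involution
-/

set_option autoImplicit false
set_option linter.unusedSectionVars false

open Set Filter Topology Metric Function
open scoped ContDiff NNReal

noncomputable section

namespace Pool.Agent.H84.PP

open Pool.Agent.X277.Sy Pool.Agent.GR.Flow

variable {m : ℕ} {Q : Type} [NormedAddCommGroup Q] [NormedSpace ℝ Q]

/-! ### Straight orbits -/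

theorem HFlow.straight_aux {h : Q → E m → ℝ} {Φ : ℝ → Q → E m → E m} (hΦ : HFlow h Φ)
    {ℓ : E m →L[ℝ] ℝ} {R : ℝ} (hR : ∀ q z, R ≤ ‖z‖ → h q z = ℓ z) (hc : ‖XH ℓ‖ = 1)
    {q : Q} {z : E m} {t : ℝ} (ht : 0 ≤ t)
    (hz : ∀ s ∈ Icc 0 t, R + 1 ≤ ‖z + s • XH ℓ‖) : Φ t q z = z + t • XH ℓ := by
  have h1 : ∀ s ∈ Ioo (-1 : ℝ) (t + 1), R < ‖z + s • XH ℓ‖ := by
    intro s hs
    obtain ⟨s', hs', hss⟩ : ∃ s' ∈ Icc 0 t, |s' - s| < 1 := by
      rcases le_total s 0 with h | h
      · exact ⟨0, ⟨le_rfl, ht⟩, by rw [abs_lt]; constructor <;> linarith [hs.1]⟩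
      · rcases le_total s t with h' | h'
        · exact ⟨s, ⟨h, h'⟩, by simp⟩
        · exact ⟨t, ⟨ht, le_rfl⟩, by rw [abs_lt]; constructor <;> linarith [hs.2]⟩
    have h2 := hz s' hs'
    have h3 : z + s' • XH ℓ = (z + s • XH ℓ) + (s' - s) • XH ℓ := by
      rw [sub_smul]
      abel
    have h4 := norm_add_le (z + s • XH ℓ) ((s' - s) • XH ℓ)
    rw [← h3, norm_smul, hc, mul_one, Real.norm_eq_abs] at h4
    linarith
  have h5 := hΦ.unique q (fun s => z + s • XH ℓ) (-1) (t + 1) (by norm_num) (by linarith)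
    (fun s hs => by
      have h6 : h q =ᶠ[𝓝 (z + s • XH ℓ)] ℓ := by
        filter_upwards [(isOpen_lt continuous_const continuous_norm).mem_nhds (h1 s hs)] with w hw
        exact hR q w (le_of_lt hw)
      rw [h6.fderiv_eq, ℓ.fderiv]
      have := ((hasDerivAt_id s).smul_const (XH ℓ)).const_add z
      simpa using this) t ⟨by linarith, by linarith⟩
  simp only [zero_smul, add_zero] at h5
  exact h5.symm

theorem HFlow.straight {h : Q → E m → ℝ} {Φ : ℝ → Q → E m → E m} (hΦ : HFlow h Φ)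
    {ℓ : E m →L[ℝ] ℝ} {R : ℝ} (hR : ∀ q z, R ≤ ‖z‖ → h q z = ℓ z) (hc : ‖XH ℓ‖ = 1)
    {q : Q} {z : E m} {t : ℝ}
    (hz : ∀ s, R + 1 ≤ ‖z + s • XH ℓ‖ ∨ (t < s ∧ 0 < s) ∨ (s < t ∧ s < 0)) :
    Φ t q z = z + t • XH ℓ := by
  rcases le_total 0 t with ht | ht
  · refine hΦ.straight_aux hR hc ht fun s hs => ?_
    rcases hz s with h1 | h1 | h1
    · exact h1
    · linarith [hs.2, h1.1]
    · linarith [hs.1, h1.2]
  · have h1 : Φ (-t) q (z + t • XH ℓ) = (z + t • XH ℓ) + (-t) • XH ℓ := by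
      refine hΦ.straight_aux hR hc (by linarith) fun s hs => ?_
      have h2 : z + t • XH ℓ + s • XH ℓ = z + (t + s) • XH ℓ := by
        rw [add_smul]
        abel
      rw [h2]
      rcases hz (t + s) with h1 | h1 | h1
      · exact h1
      · linarith [hs.2, h1.2]
      · linarith [hs.1, h1.1]
    have h2 : z + t • XH ℓ + (-t) • XH ℓ = z := by
      rw [neg_smul]
      abel
    rw [h2] at h1
    calc Φ t q z = Φ t q (Φ (-t) q (z + t • XH ℓ)) := by rw [h1]
      _ = _ := hΦ.neg_right _ _ _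

/-! ### The commuting data -/

variable {n : ℕ}

/-- the coordinate `x_2` -/
def px2 : E (n + 2) →L[ℝ] ℝ := EuclideanSpace.proj ((1 : Fin (n + 2)), (0 : Fin 2))

theorem px2_apply (z : E (n + 2)) : px2 z = z (1, 0) := rfl

theorem px2_eq (z : E (n + 2)) : px2 z = px (pv z) := rfl

theorem XH_px2 : XH (px2 : E (n + 2) →L[ℝ] ℝ) = iv ey :=
  omega_left_cancel fun v => by
    rw [omega_XH, omega_split]
    simp only [px_iv, py_iv, pv_iv, zero_mul, sub_zero, zero_add]
    rw [omega_ey]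
    rfl

/-- the data of the commuting pairs -/
structure CommData (R : ℝ) (f g : Q → E (n + 2) → ℝ) : Prop where
  smooth_f : ContDiff ℝ ∞ (fun p : Q × E (n + 2) => f p.1 p.2)
  smooth_g : ContDiff ℝ ∞ (fun p : Q × E (n + 2) => g p.1 p.2)
  out_f : ∀ q z, R ≤ ‖z‖ → f q z = px z
  out_g : ∀ q z, R ≤ ‖z‖ → g q z = px2 z
  comm : ∀ q z, bracket (f q) (g q) z = 0

theorem bracket_self (a : E m → ℝ) (z : E m) : bracket a a z = 0 := by
  have := bracket_swap (a := a) (b := a) z
  linarith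

theorem norm_XH_px : ‖XH (px : E (n + 1) →L[ℝ] ℝ)‖ = 1 := by
  rw [XH_px, norm_ey]

theorem norm_XH_px2 : ‖XH (px2 : E (n + 2) →L[ℝ] ℝ)‖ = 1 := by
  rw [XH_px2, norm_iv, norm_ey]

section Theta

variable {R : ℝ} {f g : Q → E (n + 2) → ℝ} {Φ Γ : ℝ → Q → E (n + 2) → E (n + 2)}

/-- the waiting time -/
def tau (R : ℝ) (w : E (n + 2)) : ℝ := R + 2 + py w ^ 2

theorem tau_ge (R : ℝ) (w : E (n + 2)) : R + 1 ≤ py w + tau R w := by
  unfold tau
  nlinarith [sq_nonneg (py w + 1 / 2)]

/-- the conjugation -/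
def Theta (R : ℝ) (Φ : ℝ → Q → E (n + 2) → E (n + 2)) (q : Q) (w : E (n + 2)) : E (n + 2) :=
  Φ (-tau R w) q (w + tau R w • ey)

theorem norm_ge_of_py {a : ℝ} {z : E (n + 1)} (h : a ≤ py z) : a ≤ ‖z‖ :=
  h.trans ((le_abs_self _).trans (abs_py_le z))

theorem norm_ge_of_py_neg {a : ℝ} {z : E (n + 1)} (h : py z ≤ -a) : a ≤ ‖z‖ := by
  have h1 := neg_abs_le (py z)
  have h2 := abs_py_le z
  linarith

theorem theta_right (hd : CommData R f g) (hΦ : HFlow f Φ) {q : Q} {w : E (n + 2)} {a b : ℝ}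
    (ha : R + 1 ≤ py w + a) (hab : a ≤ b) :
    Φ (-b) q (w + b • ey) = Φ (-a) q (w + a • ey) := by
  have h1 : Φ (b - a) q (w + a • ey) = (w + a • ey) + (b - a) • XH px := by
    refine hΦ.straight_aux hd.out_f norm_XH_px (by linarith) fun s hs => ?_
    rw [XH_px]
    refine norm_ge_of_py ?_
    simp only [map_add, map_smul, py_ey, smul_eq_mul, mul_one]
    linarith [hs.1]
  have h2 : (w + a • ey) + (b - a) • (ey : E (n + 2)) = w + b • ey := by
    rw [sub_smul]
    abel
  rw [XH_px, h2] at h1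
  rw [← h1, ← hΦ.add]
  congr 1
  ring

theorem theta_eq (hd : CommData R f g) (hΦ : HFlow f Φ) {q : Q} {w : E (n + 2)} {a : ℝ}
    (ha : R + 1 ≤ py w + a) : Theta R Φ q w = Φ (-a) q (w + a • ey) := by
  unfold Theta
  rcases le_total a (tau R w) with h | h
  · exact theta_right hd hΦ ha h
  · exact (theta_right hd hΦ (tau_ge R w) h).symm

theorem theta_smooth (hΦ : HFlow f Φ) :
    ContDiff ℝ ∞ (fun p : Q × E (n + 2) => Theta R Φ p.1 p.2) := by
  have h1 : ContDiff ℝ ∞ (fun p : Q × E (n + 2) => tau R p.2) :=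
    contDiff_const.add ((py.contDiff.comp contDiff_snd).pow 2)
  exact hΦ.smooth.comp (h1.neg.prodMk (contDiff_fst.prodMk
    (contDiff_snd.add (h1.smul contDiff_const))))

theorem theta_symp (hd : CommData R f g) (hΦ : HFlow f Φ) (q : Q) (w u v : E (n + 2)) :
    omega (fderiv ℝ (Theta R Φ q) w u) (fderiv ℝ (Theta R Φ q) w v) = omega u v := by
  set a : ℝ := R + 2 - py w with ha
  have h1 : Theta R Φ q =ᶠ[𝓝 w] fun z => Φ (-a) q (z + a • ey) := by
    have h2 : ∀ᶠ z in 𝓝 w, py w - 1 < py z :=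
      (isOpen_lt continuous_const py.continuous).mem_nhds (show py w - 1 < py w by linarith)
    filter_upwards [h2] with z hz
    exact theta_eq hd hΦ (by linarith)
  have h3 : HasFDerivAt (fun z : E (n + 2) => z + a • ey) (ContinuousLinearMap.id ℝ (E (n + 2))) w :=
    (hasFDerivAt_id w).add_const _
  have h4 := (((hΦ.symp (-a) q).smooth.differentiable (by simp) (w + a • ey)).hasFDerivAt).comp w h3
  rw [h1.fderiv_eq]
  have h5 : fderiv ℝ (fun z => Φ (-a) q (z + a • ey)) w =
      (fderiv ℝ (Φ (-a) q) (w + a • ey)).comp (ContinuousLinearMap.id ℝ (E (n + 2))) := h4.fderiv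
  rw [h5]
  exact (hΦ.symp (-a) q).symplectic _ _ _

theorem theta_f (hd : CommData R f g) (hΦ : HFlow f Φ) (q : Q) (w : E (n + 2)) :
    f q (Theta R Φ q w) = px w := by
  unfold Theta
  rw [hΦ.cons q ((slice_smooth hd.smooth_f q).differentiable (by simp))
    (fun z => bracket_self _ z), hd.out_f]
  · simp
  · refine norm_ge_of_py ?_
    simp only [map_add, map_smul, py_ey, smul_eq_mul, mul_one]
    linarith [tau_ge R w]

theorem theta_g (hd : CommData R f g) (hΦ : HFlow f Φ) (q : Q) (w : E (n + 2)) :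
    g q (Theta R Φ q w) = px2 w := by
  unfold Theta
  rw [hΦ.cons q ((slice_smooth hd.smooth_g q).differentiable (by simp))
    (fun z => hd.comm q z), hd.out_g]
  · simp [px2_eq]
  · refine norm_ge_of_py ?_
    simp only [map_add, map_smul, py_ey, smul_eq_mul, mul_one]
    linarith [tau_ge R w]

/-- the line is outside the ball -/
theorem theta_side (hd : CommData R f g) (hΦ : HFlow f Φ) {q : Q} {w : E (n + 2)}
    (hw : R + 1 ≤ |px w| ∨ R + 1 ≤ ‖pv w‖) (t : ℝ) : Φ t q w = w + t • ey := by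
  have h1 := hΦ.straight hd.out_f norm_XH_px (q := q) (z := w) (t := t) (fun s => Or.inl (by
    rw [XH_px]
    rcases hw with h | h
    · refine h.trans ?_
      have := abs_px_le (w + s • ey)
      simpa using this
    · refine h.trans ?_
      have := norm_pv_le (w + s • ey)
      simpa using this))
  rw [XH_px] at h1
  exact h1

/-- **The passage around the ball**, by means of the second flow. -/
theorem theta_left (hd : CommData R f g) (hR : 0 ≤ R) (hΦ : HFlow f Φ) (hΓ : HFlow g Γ) {q : Q}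
    {w : E (n + 2)} (hw : py w ≤ -(R + 1)) {t : ℝ} (ht : R + 1 ≤ py w + t) :
    Φ t q w = w + t • ey := by
  obtain ⟨s, hs0, hs⟩ : ∃ s : ℝ, 0 ≤ s ∧ R + 1 ≤ |py (pv w) + s| := by
    refine ⟨R + 1 + |py (pv w)|, by positivity, ?_⟩
    refine le_trans ?_ (le_abs_self _)
    linarith [neg_abs_le (py (pv w))]
  have h1 : Γ s q w = w + s • iv ey := by
    have h2 := hΓ.straight hd.out_g norm_XH_px2 (q := q) (z := w) (t := s) (fun r => Or.inl (by
      refine norm_ge_of_py_neg ?_
      rw [XH_px2]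
      simpa using hw))
    rw [XH_px2] at h2
    exact h2
  have h2 : Φ t q (w + s • iv ey) = (w + s • iv ey) + t • ey := by
    refine theta_side hd hΦ (Or.inr ?_) t
    have h3 := abs_py_le (pv (w + s • iv ey))
    refine hs.trans (le_trans (le_of_eq ?_) h3)
    simp
  have h3 : Γ (-s) q ((w + s • iv ey) + t • ey) = w + t • ey := by
    have h4 := hΓ.straight hd.out_g norm_XH_px2 (q := q) (z := (w + s • iv ey) + t • ey) (t := -s)
      (fun r => Or.inl (by
        refine norm_ge_of_py ?_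
        rw [XH_px2]
        simpa using ht))
    rw [XH_px2] at h4
    rw [h4, neg_smul]
    abel
  have h4 := hΦ.comm hΓ q ((slice_smooth hd.smooth_f q).differentiable (by simp))
    (fun z => by rw [bracket_swap, hd.comm, neg_zero]) w t s
  rw [h1, h2] at h4
  rw [← hΓ.neg_left q (Φ t q w) s, h4, h3]

theorem theta_fix (hd : CommData R f g) (hR : 0 ≤ R) (hΦ : HFlow f Φ) (hΓ : HFlow g Γ) {q : Q}
    {w : E (n + 2)} (hw : 3 * (R + 1) ≤ ‖w‖) : Theta R Φ q w = w := by
  have h1 := norm_le_split w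
  by_cases h2 : R + 1 ≤ |px w| ∨ R + 1 ≤ ‖pv w‖
  · unfold Theta
    have h3 : Φ (tau R w) q w = w + tau R w • ey := theta_side hd hΦ h2 _
    rw [← h3, hΦ.neg_left]
  · push Not at h2
    have h3 : R + 1 ≤ |py w| := by linarith [h2.1, h2.2]
    rcases le_total 0 (py w) with h4 | h4
    · rw [abs_of_nonneg h4] at h3
      rw [theta_eq hd hΦ (a := 0) (by linarith)]
      simp [hΦ.zero]
    · rw [abs_of_nonpos h4] at h3
      unfold Theta
      have h5 : Φ (tau R w) q w = w + tau R w • ey :=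
        theta_left hd hR hΦ hΓ (by linarith) (tau_ge R w)
      rw [← h5, hΦ.neg_left]

end Theta

/-- **Commuting pairs come from symplectomorphisms.** -/
theorem exists_comm [FiniteDimensional ℝ Q] {R : ℝ} (hR : 0 ≤ R) {f g : Q → E (n + 2) → ℝ}
    (hd : CommData R f g) : ∃ φ : Q → SympCt (n + 2), IsSmoothFamily φ ∧
      (∀ q, SupportedIn (closedBall 0 (3 * (R + 1))) (φ q).map) ∧
      (∀ q z, px ((φ q).map z) = f q z) ∧ ∀ q z, px2 ((φ q).map z) = g q z := by
  obtain ⟨Φ, hΦ⟩ := exists_hflow hd.smooth_f px hd.out_f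
  obtain ⟨Γ, hΓ⟩ := exists_hflow hd.smooth_g px2 hd.out_g
  have hsm := theta_smooth (R := R) hΦ
  have hsupp : ∀ q, SupportedIn (closedBall 0 (3 * (R + 1))) (Theta R Φ q) := by
    intro q w hw
    rw [mem_closedBall_zero_iff, not_le] at hw
    exact theta_fix hd hR hΦ hΓ hw.le
  have hsy : ∀ q, IsSymplectomorphism (Theta R Φ q) := fun q =>
    mkSymp (Nat.succ_pos _) (hsm.comp (contDiff_const.prodMk contDiff_id)) (fun x u v => theta_symp hd hΦ q x u v)
      (isCompact_closedBall 0 (3 * (R + 1))) (fun x hx => hsupp q x hx)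
  let θ : Q → SympCt (n + 2) := fun q => ⟨Theta R Φ q, hsy q, closedBall 0 (3 * (R + 1)),
    isCompact_closedBall _ _, hsupp q⟩
  have hθ : IsSmoothFamily θ := hsm
  refine ⟨fun q => (θ q)⁻¹, hθ.inv, fun q => supp_inv (φ := θ q) (hsupp q), fun q z => ?_,
    fun q z => ?_⟩
  · have h1 := theta_f hd hΦ q ((θ q)⁻¹.map z)
    rw [← h1]
    have h2 : Theta R Φ q ((θ q)⁻¹.map z) = z := map_inv_map (θ q) z
    rw [h2]
  · have h1 := theta_g hd hΦ q ((θ q)⁻¹.map z)
    rw [← h1]
    have h2 : Theta R Φ q ((θ q)⁻¹.map z) = z := map_inv_map (θ q) z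
    rw [h2]

/-! ### Spheroids -/

variable {k : ℕ}

theorem bracket_px_px2 (z : E (n + 2)) :
    bracket (px : E (n + 2) → ℝ) (px2 : E (n + 2) → ℝ) z = 0 := by
  rw [bracket_eq, ContinuousLinearMap.fderiv, ContinuousLinearMap.fderiv, XH_px]
  show (px : E (n + 1) →L[ℝ] ℝ) (pv (ey : E (n + 2))) = 0
  rw [pv_ey, map_zero]

theorem bracket_comp_px (φ : SympCt (n + 2)) (z : E (n + 2)) :
    bracket (fun z => px (φ.map z)) (fun z => px2 (φ.map z)) z = 0 := by
  rw [bracket_comp φ.isSymp px.differentiable px2.differentiable]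
  exact bracket_px_px2 _

/-- The spheroid of pairs `f_s = x_1 ∘ φ_s`, `g_s = x_2 ∘ φ_s` of a spheroid of symplectomorphisms
`φ_s`. -/
def ofComm (φ : Spheroid k (n + 2)) : CommFam k n where
  f s z := (φ.fam s).map z (0, 0)
  g s z := (φ.fam s).map z (1, 0)
  smooth_f := px.contDiff.comp (show ContDiff ℝ ∞ _ from φ.smooth)
  smooth_g := px2.contDiff.comp (show ContDiff ℝ ∞ _ from φ.smooth)
  comm s z := bracket_comp_px (φ.fam s) z
  bounded := by
    obtain ⟨r, h1, h2⟩ := φ.bounded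
    refine ⟨r + 1, fun s z h => ?_⟩
    rcases h with h | h
    · rw [h1 s (by linarith)]
      exact ⟨rfl, rfl⟩
    · rw [far_fix (h2 s) (show r < ‖z‖ by linarith)]
      exact ⟨rfl, rfl⟩

/-- Every smooth `k`-spheroid of commuting pairs on `ℝ^{2n+4}` is contractible. -/
def CommTrivial (k n : ℕ) : Prop :=
  ∀ P : CommFam k n, CommHomotopic P (ofComm (trivialSpheroid k (n + 2)))

/-- a compactly supported symplectomorphism is determined by its first coordinate -/
theorem eq_of_px {φ ψ : SympCt (n + 1)} (h : ∀ z, px (φ.map z) = px (ψ.map z)) : φ = ψ := by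
  obtain ⟨K, hK, hφ⟩ := φ.compactSupport
  obtain ⟨L, hL, hψ⟩ := ψ.compactSupport
  obtain ⟨r, hr⟩ := hK.isBounded.subset_closedBall (0 : E (n + 1))
  obtain ⟨s, hs⟩ := hL.isBounded.subset_closedBall (0 : E (n + 1))
  apply SympCt.ext
  refine unique_of_px φ.isSymp ψ.isSymp (R := max r s + 1) (fun z hz => ?_) (fun z hz => ?_) h
  · refine far_fix (supp_mono hr hφ) ?_
    have h2 := (le_abs_self (py z)).trans (abs_py_le z)
    linarith [le_max_left r s]
  · refine far_fix (supp_mono hs hψ) ?_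
    have h2 := (le_abs_self (py z)).trans (abs_py_le z)
    linarith [le_max_right r s]

theorem spheroid_ext {m : ℕ} {φ ψ : Spheroid k m} (h : φ.fam = ψ.fam) : φ = ψ := by
  cases φ
  cases ψ
  cases h
  rfl

theorem ofComm_injective : Function.Injective (ofComm : Spheroid k (n + 2) → CommFam k n) := by
  intro φ ψ h
  have h1 : φ.fam = ψ.fam := by
    funext s
    refine eq_of_px fun z => ?_
    exact congrFun (congrFun (congrArg CommFam.f h) s) z
  exact spheroid_ext h1

theorem ofComm_surjective : Function.Surjective (ofComm : Spheroid k (n + 2) → CommFam k n) := by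
  intro P
  obtain ⟨r, hr⟩ := P.bounded
  set R : ℝ := max r 0 with hR
  have hR0 : 0 ≤ R := le_max_right _ _
  have hrR : r ≤ R := le_max_left _ _
  have hd : CommData R P.f P.g := ⟨P.smooth_f, P.smooth_g,
    fun s z hz => (hr s z (Or.inr (hrR.trans hz))).1,
    fun s z hz => (hr s z (Or.inr (hrR.trans hz))).2, P.comm⟩
  obtain ⟨φ, h1, h2, h3, h4⟩ := exists_comm hR0 hd
  refine ⟨⟨φ, h1, 3 * (R + 1), fun s hs => ?_, h2⟩, ?_⟩
  · refine eq_of_px fun z => ?_
    rw [h3, (hr s z (Or.inl (by linarith))).1]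
    rfl
  · apply CommFam.ext
    · funext s z
      exact h3 s z
    · funext s z
      exact h4 s z

theorem commHomotopic_of {φ ψ : Spheroid k (n + 2)} (h : Homotopic φ ψ) :
    CommHomotopic (ofComm φ) (ofComm ψ) := by
  obtain ⟨K, hK, F, h1, h2, h3, ⟨r, h4⟩, h5⟩ := h
  obtain ⟨r', hr'⟩ := hK.isBounded.subset_closedBall (0 : E (n + 2))
  refine ⟨fun t s z => px ((F (t, s)).map z), fun t s z => px2 ((F (t, s)).map z),
    px.contDiff.comp h1, px2.contDiff.comp h1, fun t s z => bracket_comp_px (F (t, s)) z,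
    ⟨max r (r' + 1), fun t s z hz => ?_⟩, ?_, ?_, ?_, ?_⟩
  · rcases hz with hz | hz
    · show (F (t, s)).map z (0, 0) = _ ∧ (F (t, s)).map z (1, 0) = _
      rw [h4 t s ((le_max_left _ _).trans hz)]
      exact ⟨rfl, rfl⟩
    · show (F (t, s)).map z (0, 0) = _ ∧ (F (t, s)).map z (1, 0) = _
      rw [far_fix (supp_mono hr' (h5 (t, s))) (show r' < ‖z‖ by
        linarith [(le_max_right r (r' + 1)).trans hz])]
      exact ⟨rfl, rfl⟩
  · funext s z
    show (F (0, s)).map z (0, 0) = _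
    rw [h2]
    rfl
  · funext s z
    show (F (0, s)).map z (1, 0) = _
    rw [h2]
    rfl
  · funext s z
    show (F (1, s)).map z (0, 0) = _
    rw [h3]
    rfl
  · funext s z
    show (F (1, s)).map z (1, 0) = _
    rw [h3]
    rfl

theorem homotopic_of {φ ψ : Spheroid k (n + 2)}
    (h : CommHomotopic (ofComm φ) (ofComm ψ)) : Homotopic φ ψ := by
  obtain ⟨F, G, hF, hG, hc, ⟨r, hr⟩, hF0, hG0, hF1, hG1⟩ := h
  set R : ℝ := max r 0 with hR
  have hR0 : 0 ≤ R := le_max_right _ _
  have hrR : r ≤ R := le_max_left _ _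
  have hd : CommData R (fun q : ℝ × EuclideanSpace ℝ (Fin k) => F q.1 q.2)
      (fun q => G q.1 q.2) := ⟨hF, hG,
    fun q z hz => (hr q.1 q.2 z (Or.inr (hrR.trans hz))).1,
    fun q z hz => (hr q.1 q.2 z (Or.inr (hrR.trans hz))).2, fun q => hc q.1 q.2⟩
  obtain ⟨χ, h1, h2, h3, h4⟩ := exists_comm hR0 hd
  refine ⟨closedBall 0 (3 * (R + 1)), isCompact_closedBall _ _, χ, h1, fun s => ?_, fun s => ?_,
    ⟨r, fun t s hs => ?_⟩, h2⟩
  · refine eq_of_px fun z => ?_
    rw [h3]
    show F 0 s z = _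
    rw [hF0]
    rfl
  · refine eq_of_px fun z => ?_
    rw [h3]
    show F 1 s z = _
    rw [hF1]
    rfl
  · refine eq_of_px fun z => ?_
    rw [h3, (hr t s z (Or.inl hs)).1]
    rfl

theorem homotopic_iff (φ ψ : Spheroid k (n + 2)) :
    Homotopic φ ψ ↔ CommHomotopic (ofComm φ) (ofComm ψ) := ⟨commHomotopic_of, homotopic_of⟩

theorem piTrivial_iff_comm : PiTrivial k (n + 2) ↔ CommTrivial k n := by
  constructor
  · intro h P
    obtain ⟨φ, rfl⟩ := ofComm_surjective P
    exact commHomotopic_of (h φ)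
  · intro h φ
    exact homotopic_of (h (ofComm φ))

/-! ### Path components -/

theorem homotopic_zero_iff {m : ℕ} (φ ψ : Spheroid 0 m) :
    Homotopic φ ψ ↔ Joined (φ.fam 0) (ψ.fam 0) := by
  have hs : ∀ s : EuclideanSpace ℝ (Fin 0), s = 0 := fun s => Subsingleton.elim _ _
  constructor
  · rintro ⟨L, hL, F, F1, F2, F3, -, F5⟩
    refine Isotopic.joined ⟨L, hL, fun t => (F (t, 0)).map, ⟨?_, fun t => (F (t, 0)).isSymp,
      fun t => F5 _⟩, ?_, ?_⟩
    · have h2 : ContDiff ℝ ∞ (fun p : ℝ × E m =>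
          (((p.1, (0 : EuclideanSpace ℝ (Fin 0))), p.2) :
            (ℝ × EuclideanSpace ℝ (Fin 0)) × E m)) :=
        (contDiff_fst.prodMk contDiff_const).prodMk contDiff_snd
      exact ContDiff.comp F1 h2
    · show (F (0, 0)).map = _
      rw [F2]
    · show (F (1, 0)).map = _
      rw [F3]
  · intro h
    obtain ⟨K, hK, Φ, h1, h2, h3⟩ := (joined_iff (φ.fam 0) (ψ.fam 0)).1 h
    refine ⟨K, hK, fun q => ⟨Φ q.1, h1.symp _, K, hK, h1.supp _⟩, ?_, fun s => ?_, fun s => ?_,
      ⟨1, fun t s hs' => ?_⟩, fun q => h1.supp _⟩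
    · have h4 : ContDiff ℝ ∞ (fun p : (ℝ × EuclideanSpace ℝ (Fin 0)) × E m => (p.1.1, p.2)) :=
        (contDiff_fst.comp contDiff_fst).prodMk contDiff_snd
      exact ContDiff.comp h1.smooth h4
    · apply SympCt.ext
      rw [hs s]
      exact h2
    · apply SympCt.ext
      rw [hs s]
      exact h3
    · rw [hs s, norm_zero] at hs'
      linarith

/-- the constant spheroid -/
theorem exists_const_spheroid {m : ℕ} (φ : SympCt m) : ∃ ψ : Spheroid 0 m, ψ.fam 0 = φ := by
  obtain ⟨K, hK⟩ := φ.compactSupport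
  obtain ⟨r, hr⟩ := hK.1.isBounded.subset_closedBall (0 : E m)
  refine ⟨
    { fam := fun _ => φ
      smooth := isSmoothFamily_const φ
      bounded := ⟨max r 1, fun s hs' => by
        have hs : s = 0 := Subsingleton.elim _ _
        rw [hs, norm_zero] at hs'
        linarith [le_max_right r 1], fun _ => supp_mono (hr.trans
          (closedBall_subset_closedBall (le_max_left _ _))) hK.2⟩ }, rfl⟩

/-- the homotopy classes of commuting pairs -/
def CommClasses (n : ℕ) : Type := Quot (CommHomotopic (k := 0) (n := n))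

/-- the class of the commuting pair `(x_1 ∘ φ, x_2 ∘ φ)` -/
def classOf {n : ℕ} (φ : Spheroid 0 (n + 2)) : CommClasses n := Quot.mk _ (ofComm φ)

/-- **Path components** and homotopy classes of commuting pairs. -/
theorem exists_pi_zero (n : ℕ) :
    ∃ e : CommClasses n ≃ ZerothHomotopy (SympCt (n + 2)),
      ∀ φ : Spheroid 0 (n + 2), e (classOf φ) = Quotient.mk _ (φ.fam 0) := by
  let B : Spheroid 0 (n + 2) ≃ CommFam 0 n :=
    Equiv.ofBijective ofComm ⟨ofComm_injective, ofComm_surjective⟩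
  have hB : ∀ φ, B φ = ofComm φ := fun _ => rfl
  have hB' : ∀ P, ofComm (B.symm P) = P := fun P => B.apply_symm_apply P
  let A : Quot (CommHomotopic (k := 0) (n := n)) → ZerothHomotopy (SympCt (n + 2)) :=
    Quot.lift (fun P => (Quotient.mk _ ((B.symm P).fam 0) : ZerothHomotopy (SympCt (n + 2))))
      fun P P' h => Quotient.sound ((homotopic_zero_iff _ _).1
        ((homotopic_iff _ _).2 (by rw [hB', hB']; exact h)))
  have hA : ∀ P, A (Quot.mk _ P) = Quotient.mk _ ((B.symm P).fam 0) := fun _ => rfl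
  have hbij : Function.Bijective A := by
    constructor
    · intro a b
      induction a using Quot.ind with | mk P => ?_
      induction b using Quot.ind with | mk P' => ?_
      intro h
      rw [hA, hA] at h
      have h1 : Joined ((B.symm P).fam 0) ((B.symm P').fam 0) := Quotient.exact h
      have h2 := (homotopic_iff _ _).1 ((homotopic_zero_iff _ _).2 h1)
      rw [hB', hB'] at h2
      exact Quot.sound h2
    · intro x
      induction x using Quotient.ind with | _ φ => ?_
      obtain ⟨ψ, hψ⟩ := exists_const_spheroid φ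
      refine ⟨Quot.mk _ (ofComm ψ), ?_⟩
      rw [hA, ← hB, B.symm_apply_apply, hψ]
  refine ⟨Equiv.ofBijective A hbij, fun φ => ?_⟩
  show A (Quot.mk _ (ofComm φ)) = _
  rw [hA, ← hB, B.symm_apply_apply]

/-- The smooth `k`-spheroids in `Symp_ct(ℝ^{2n+4})` and the smooth `k`-spheroids of commuting pairs
are the same, and so are their homotopies. -/
def SpheroidsAgree (k n : ℕ) : Prop :=
  Function.Bijective (ofComm : Spheroid k (n + 2) → CommFam k n) ∧
    (∀ φ ψ : Spheroid k (n + 2), Homotopic φ ψ ↔ CommHomotopic (ofComm φ) (ofComm ψ)) ∧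
    (PiTrivial k (n + 2) ↔ CommTrivial k n)

/-- The path components of `Symp_ct(ℝ^{2n+4})` are the homotopy classes of commuting pairs. -/
def ComponentsAgree (n : ℕ) : Prop :=
  (∃ e : CommClasses n ≃ ZerothHomotopy (SympCt (n + 2)),
    ∀ φ : Spheroid 0 (n + 2), e (classOf φ) = Quotient.mk _ (φ.fam 0)) ∧
    (PathConnectedSpace (SympCt (n + 2)) ↔ CommTrivial 0 n) ∧
    (Countable (ZerothHomotopy (SympCt (n + 2))) ↔ Countable (CommClasses n))

/-! ### First integrals -/

/-- the lines in the direction `y_1` leave every ball -/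
theorem const_of_bracket_px {h H : E (n + 1) → ℝ} (hh : Differentiable ℝ h)
    (hH : Differentiable ℝ H) (h1 : ∀ z, bracket px h z = 0) (h2 : ∀ z, bracket px H z = 0)
    {r : ℝ} (hr : ∀ z, r ≤ ‖z‖ → h z = H z) (z : E (n + 1)) : h z = H z := by
  have hd : ∀ (a : E (n + 1) → ℝ), Differentiable ℝ a → (∀ z, bracket px a z = 0) →
      ∀ s : ℝ, a (z + s • ey) = a z := by
    intro a ha hb s
    have h3 : ∀ s : ℝ, HasDerivAt (fun s : ℝ => a (z + s • ey)) 0 s := by
      intro s
      have h4 : HasDerivAt (fun s : ℝ => z + s • (ey : E (n + 1))) ey s := by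
        have := ((hasDerivAt_id s).smul_const (ey : E (n + 1))).const_add z
        simpa using this
      have h5 := (ha (z + s • ey)).hasFDerivAt.comp_hasDerivAt s h4
      have h6 : bracket px a (z + s • ey) = fderiv ℝ a (z + s • ey) ey := by
        rw [bracket_eq, ContinuousLinearMap.fderiv, XH_px]
      rw [← h6, hb] at h5
      exact h5
    have h4 := is_const_of_deriv_eq_zero (fun t => (h3 t).differentiableAt)
      (fun t => (h3 t).deriv) s 0
    simpa using h4
  have h3 : r ≤ ‖z + (|py z| + |r|) • (ey : E (n + 1))‖ := by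
    refine norm_ge_of_py ?_
    simp only [map_add, map_smul, py_ey, smul_eq_mul, mul_one]
    linarith [neg_abs_le (py z), le_abs_self r]
  rw [← hd h hh h1 (|py z| + |r|), ← hd H hH h2 (|py z| + |r|), hr _ h3]

/-- the first integrals of `x_1 ∘ φ` -/
theorem integral_eq (φ : SympCt (n + 1)) {h H : E (n + 1) → ℝ} (hh : ContDiff ℝ ∞ h)
    (hH : ContDiff ℝ ∞ H) (h1 : ∀ z, bracket (fun z => px (φ.map z)) h z = 0)
    (h2 : ∀ z, bracket px H z = 0) {r : ℝ} (hr : ∀ z, r ≤ ‖z‖ → h z = H z) (z : E (n + 1)) :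
    h z = H (φ.map z) := by
  have hd : Differentiable ℝ h := hh.differentiable (by simp)
  have hi : ContDiff ℝ ∞ (φ⁻¹).map := (φ⁻¹).isSymp.smooth
  obtain ⟨K, hK, hφ⟩ := (φ⁻¹).compactSupport
  obtain ⟨s, hs⟩ := hK.isBounded.subset_closedBall (0 : E (n + 1))
  have h3 : ∀ z, bracket px (fun z => h ((φ⁻¹).map z)) z = 0 := by
    intro z
    have h4 : (px : E (n + 1) → ℝ) = fun z => (fun w => px (φ.map w)) ((φ⁻¹).map z) := by
      funext w
      show px w = px (φ.map ((φ⁻¹).map w))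
      rw [map_inv_map]
    have h5 : Differentiable ℝ (fun w => px (φ.map w)) :=
      ((px.contDiff (n := ∞)).comp φ.isSymp.smooth).differentiable (by simp)
    rw [h4, bracket_comp (φ⁻¹).isSymp h5 hd]
    exact h1 _
  have h5 := const_of_bracket_px (h := fun z => h ((φ⁻¹).map z)) (H := H)
    ((hh.comp hi).differentiable (by simp)) (hH.differentiable (by simp)) h3 h2
    (r := max r (s + 1)) (fun z hz => by
      have h6 : (φ⁻¹).map z = z := far_fix (supp_mono hs hφ) (show s < ‖z‖ by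
        linarith [(le_max_right r (s + 1)).trans hz])
      show h ((φ⁻¹).map z) = H z
      rw [h6]
      exact hr z ((le_max_left _ _).trans hz)) (φ.map z)
  rw [← h5, inv_map_map]

end Pool.Agent.H84.PP
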