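import Pool.Agent.H84.Sy.Defs

/-!
# The Poisson bracket
-/

set_option autoImplicit false

open Set Filter Topology Metric Function
open scoped ContDiff NNReal

noncomputable section

namespace Pool.Agent.H84.PP

open Pool.Agent.X277.Sy

variable {n : ℕ}

/-- The Poisson bracket `{a, b} = ∑ (∂a/∂x_i ∂b/∂y_i - ∂a/∂y_i ∂b/∂x_i)`. -/
def bracket (a b : E n → ℝ) (z : E n) : ℝ :=
  ∑ i : Fin n, (fderiv ℝ a z (EuclideanSpace.single (i, 0) 1) *
      fderiv ℝ b z (EuclideanSpace.single (i, 1) 1) -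
    fderiv ℝ a z (EuclideanSpace.single (i, 1) 1) *
      fderiv ℝ b z (EuclideanSpace.single (i, 0) 1))

end Pool.Agent.H84.PP
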