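import Pool.Agent.H84.PP.Esc

/-!
# Hamiltonian flows of functions which are linear at infinity
-/

set_option autoImplicit false
set_option linter.unusedSectionVars false

open Set Filter Topology Metric Function
open scoped ContDiff NNReal

noncomputable section

namespace Pool.Agent.H84.PP

open Pool.Agent.X277.Sy Pool.Agent.GR.Flow

variable {m : ℕ} {P : Type} [NormedAddCommGroup P] [NormedSpace ℝ P]

/-- **Flows** of fields which are constant off a ball, with parameters. -/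
theorem exists_flow_cpt [FiniteDimensional ℝ P] {R : ℝ} {F : P × E m → E m}
    (hFs : ContDiff ℝ ∞ F) (hF0 : ∀ p z, R ≤ ‖z‖ → F (p, z) = 0) (c : E m) :
    ∃ Φ : ℝ → P → E m → E m,
      ContDiff ℝ ∞ (fun q : ℝ × P × E m => Φ q.1 q.2.1 q.2.2) ∧
      (∀ p z, Φ 0 p z = z) ∧
      (∀ p z t, HasDerivAt (fun t => Φ t p z) (c + F (p, Φ t p z)) t) ∧
      ∀ p (γ : ℝ → E m) (a b : ℝ), a < 0 → 0 < b →
        (∀ t ∈ Ioo a b, HasDerivAt γ (c + F (p, γ t)) t) →
        ∀ t ∈ Ioo a b, γ t = Φ t p (γ 0) := by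
  classical
  let χ : ℕ → ContDiffBump (0 : P) := fun N => ⟨N + 1, N + 2, by positivity, by linarith⟩
  have hχs : ∀ N, ContDiff ℝ ∞ (χ N : P → ℝ) := fun N => (χ N).contDiff
  have hχ1 : ∀ (N : ℕ) (p : P), ‖p‖ ≤ N + 1 → χ N p = 1 := fun N p hp =>
    (χ N).one_of_mem_closedBall (by simpa using hp)
  have hχ0 : ∀ (N : ℕ) (p : P), p ∉ closedBall (0 : P) (N + 2) → χ N p = 0 := fun N p hp =>
    (χ N).zero_of_le_dist (by
      rw [mem_closedBall, not_le] at hp
      exact hp.le)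
  have hs : ∀ N, ContDiff ℝ ∞ (fun q : P × E m => χ N q.1 • F q) := fun N =>
    ((hχs N).comp contDiff_fst).smul hFs
  have hcs : ∀ N, HasCompactSupport (fun q : P × E m => χ N q.1 • F q) := by
    intro N
    refine HasCompactSupport.intro ((isCompact_closedBall (0 : P) (N + 2)).prod
      (isCompact_closedBall (0 : E m) R)) fun q hq => ?_
    by_cases h : q.1 ∈ closedBall (0 : P) (N + 2)
    · have h2 : q.2 ∉ closedBall (0 : E m) R := fun h2 => hq ⟨h, h2⟩
      rw [mem_closedBall_zero_iff, not_le] at h2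
      have h3 : F (q.1, q.2) = 0 := hF0 q.1 q.2 h2.le
      rw [show F q = 0 from h3, smul_zero]
    · rw [hχ0 N _ h, zero_smul]
  let Z : ℕ → P × E m → P × E m := fun N q => (0, c + χ N q.1 • F q)
  have hZs : ∀ N, ContDiff ℝ ∞ (Z N) := fun N =>
    contDiff_const.prodMk (contDiff_const.add (hs N))
  have hZK : ∀ N, ∃ K : ℝ≥0, LipschitzWith K (Z N) := by
    intro N
    obtain ⟨K, hK⟩ := ContDiff.lipschitzWith_of_hasCompactSupport (𝕂 := ℝ) (hcs N) (hs N) (by simp)
    exact ⟨max 0 (0 + K), (LipschitzWith.const 0).prodMk ((LipschitzWith.const c).add hK)⟩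
  have hZM : ∀ N, ∃ M : ℝ≥0, ∀ q, ‖Z N q‖ ≤ M := by
    intro N
    obtain ⟨M, hM⟩ := (hs N).continuous.bounded_above_of_compact_support (hcs N)
    refine ⟨max 0 (‖c‖₊ + Real.toNNReal M), fun q => ?_⟩
    have h1 : ‖Z N q‖ = max ‖(0 : P)‖ ‖c + χ N q.1 • F q‖ := rfl
    rw [h1, norm_zero]
    push_cast
    refine max_le_max le_rfl ((norm_add_le _ _).trans ?_)
    exact add_le_add le_rfl ((hM q).trans (Real.le_coe_toNNReal M))
  choose K hK using hZK
  choose M hM using hZM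
  choose γ hγ0 hγ using fun N q => exists_solution (hK N) (hM N) q
  have hfl : ∀ N, IsFlowOf (Z N) (fun t q => γ N q t) := fun N => ⟨hγ0 N, fun q t => hγ N q t⟩
  have hsm : ∀ N, ContDiff ℝ ∞ (fun q : ℝ × (P × E m) => γ N q.2 q.1) := by
    intro N
    rw [contDiff_infty]
    intro k
    have h1 : ContDiff ℝ ((k + 1 : ℕ) : WithTop ℕ∞) (fun q : ℝ × (P × E m) => γ N q.2 q.1) :=
      contDiff_flow (X := (⟨Z N, (hZs N).continuous⟩ : C(P × E m, P × E m)))
        (Nat.succ_ne_zero k) ((hZs N).of_le (by exact_mod_cast le_top)) (hK N) (hfl N)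
    exact h1.of_le (by exact_mod_cast Nat.le_succ k)
  have hfst : ∀ N q t, (γ N q t).1 = q.1 := by
    intro N q t
    have hd : ∀ t, HasDerivAt (fun t => (γ N q t).1) 0 t := fun t => (hγ N q t).fst
    have h4 := is_const_of_deriv_eq_zero (fun t => (hd t).differentiableAt)
      (fun t => (hd t).deriv) t 0
    rw [h4, hγ0]
  have hsnd : ∀ N q t, HasDerivAt (fun t => (γ N q t).2)
      (c + χ N q.1 • F (q.1, (γ N q t).2)) t := by
    intro N q t
    have h1 : HasDerivAt (fun t => (γ N q t).2) (Z N (γ N q t)).2 t := (hγ N q t).snd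
    have h2 : (Z N (γ N q t)).2 = c + χ N q.1 • F (q.1, (γ N q t).2) := by
      have h3 : γ N q t = (q.1, (γ N q t).2) := Prod.ext (hfst N q t) rfl
      show c + χ N (γ N q t).1 • F (γ N q t) = _
      rw [h3]
    rw [h2] at h1
    exact h1
  have hagree : ∀ (N : ℕ) (p : P) (a b : ℝ) (β : ℝ → E m), a < 0 → 0 < b → ‖p‖ ≤ N + 1 →
      (∀ t ∈ Ioo a b, HasDerivAt β (c + F (p, β t)) t) →
      ∀ t ∈ Ioo a b, β t = (γ N (p, β 0) t).2 := by
    intro N p a b β ha hb hp hβ t ht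
    have h1 : EqOn (fun t => ((p, β t) : P × E m)) (γ N (p, β 0)) (Ioo a b) := by
      refine ODE_solution_unique_of_mem_Ioo (v := fun _ => Z N) (s := fun _ => univ) (K := K N)
        (t₀ := 0) (fun t _ => (hK N).lipschitzOnWith) ⟨ha, hb⟩
        (fun s hs => ⟨?_, trivial⟩) (fun s hs => ⟨hγ N _ s, trivial⟩) ?_
      · have h3 := (hasDerivAt_const s p).prodMk (hβ s hs)
        have h4 : (((0 : P), c + F (p, β s)) : P × E m) = Z N (p, β s) := by
          show _ = (0, c + χ N p • F (p, β s))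
          rw [hχ1 N _ hp, one_smul]
        rw [h4] at h3
        exact h3
      · simp only [hγ0]
    exact congrArg Prod.snd (h1 ht)
  have hmono : ∀ (p : P) (z : E m) (t : ℝ) (N N' : ℕ), ‖p‖ ≤ N → N ≤ N' →
      (γ N (p, z) t).2 = (γ N' (p, z) t).2 := by
    intro p z t N N' hN hNN
    have h1 := neg_abs_le t
    have h2 := le_abs_self t
    have h3 := abs_nonneg t
    have h5 : ‖p‖ ≤ (N' : ℝ) + 1 := by
      have : (N : ℝ) ≤ N' := by exact_mod_cast hNN
      linarith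
    have h4 := hagree N' p (-(|t| + 1)) (|t| + 1) (fun t => (γ N (p, z) t).2) (by linarith)
      (by linarith) h5 (fun s _ => by
        have h5 := hsnd N (p, z) s
        simp only at h5
        rw [hχ1 N _ (hN.trans (by linarith)), one_smul] at h5
        exact h5) t ⟨by linarith, by linarith⟩
    simp only [hγ0] at h4
    exact h4
  let Φ : ℝ → P → E m → E m := fun t p z => (γ ⌈‖p‖⌉₊ (p, z) t).2
  have hΦ : ∀ (p : P) (z : E m) (t : ℝ) (N : ℕ), ‖p‖ ≤ N → Φ t p z = (γ N (p, z) t).2 :=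
    fun p z t N hN => hmono p z t _ N (Nat.le_ceil _) (Nat.ceil_le.2 hN)
  refine ⟨Φ, ?_, ?_, ?_, ?_⟩
  · rw [contDiff_iff_contDiffAt]
    rintro ⟨t, p, z⟩
    obtain ⟨N, hN⟩ := exists_nat_gt ‖p‖
    have h1 : (fun q : ℝ × P × E m => Φ q.1 q.2.1 q.2.2) =ᶠ[𝓝 (t, p, z)]
        fun q => (γ N (q.2.1, q.2.2) q.1).2 := by
      have h2 : ∀ᶠ q : ℝ × P × E m in 𝓝 (t, p, z), ‖q.2.1‖ < N := by
        have h3 : Continuous (fun q : ℝ × P × E m => ‖q.2.1‖) := by fun_prop
        exact (isOpen_lt h3 continuous_const).mem_nhds hN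
      filter_upwards [h2] with q hq
      exact hΦ _ _ _ N hq.le
    refine ContDiffAt.congr_of_eventuallyEq ?_ h1
    exact (contDiff_snd.comp (hsm N)).contDiffAt
  · intro p z
    show (γ _ (p, z) 0).2 = z
    rw [hγ0]
  · intro p z t
    obtain ⟨N, hN⟩ := exists_nat_gt ‖p‖
    have h1 : (fun t => Φ t p z) = fun t => (γ N (p, z) t).2 := funext fun t =>
      hΦ _ _ _ N hN.le
    have h4 := hsnd N (p, z) t
    simp only at h4
    rw [hχ1 N _ (by linarith), one_smul] at h4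
    rw [h1, hΦ p z t N hN.le]
    exact h4
  · intro p β a b ha hb hβ t ht
    obtain ⟨N, hN⟩ := exists_nat_gt ‖p‖
    rw [hagree N p a b β ha hb (by linarith) hβ t ht]
    exact (hΦ p (β 0) t N hN.le).symm

/-- The flow of a family of Hamiltonians. -/
structure HFlow (h : P → E m → ℝ) (Φ : ℝ → P → E m → E m) : Prop where
  smooth : ContDiff ℝ ∞ (fun q : ℝ × P × E m => Φ q.1 q.2.1 q.2.2)
  zero : ∀ p z, Φ 0 p z = z
  deriv : ∀ p z t, HasDerivAt (fun t => Φ t p z) (XH (fderiv ℝ (h p) (Φ t p z))) t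
  unique : ∀ p (γ : ℝ → E m) (a b : ℝ), a < 0 → 0 < b →
    (∀ t ∈ Ioo a b, HasDerivAt γ (XH (fderiv ℝ (h p) (γ t))) t) →
    ∀ t ∈ Ioo a b, γ t = Φ t p (γ 0)
  symp : ∀ t p, IsSymplectomorphism (Φ t p)

namespace HFlow

variable {h : P → E m → ℝ} {Φ : ℝ → P → E m → E m}

theorem unique' (hΦ : HFlow h Φ) (p : P) (γ : ℝ → E m)
    (hγ : ∀ t, HasDerivAt γ (XH (fderiv ℝ (h p) (γ t))) t) (t : ℝ) : γ t = Φ t p (γ 0) := by
  have h1 := neg_abs_le t
  have h2 := le_abs_self t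
  have h3 := abs_nonneg t
  exact hΦ.unique p γ (-(|t| + 1)) (|t| + 1) (by linarith) (by linarith) (fun s _ => hγ s) t
    ⟨by linarith, by linarith⟩

theorem add (hΦ : HFlow h Φ) (p : P) (z : E m) (t s : ℝ) :
    Φ (t + s) p z = Φ t p (Φ s p z) := by
  have h1 := hΦ.unique' p (fun t => Φ (t + s) p z) (fun t => by
    have h2 := (hΦ.deriv p z (t + s)).scomp t ((hasDerivAt_id t).add_const s)
    rw [one_smul] at h2
    exact h2) t
  simp only [zero_add] at h1
  exact h1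

theorem neg_left (hΦ : HFlow h Φ) (p : P) (z : E m) (t : ℝ) : Φ (-t) p (Φ t p z) = z := by
  rw [← hΦ.add, neg_add_cancel, hΦ.zero]

theorem neg_right (hΦ : HFlow h Φ) (p : P) (z : E m) (t : ℝ) : Φ t p (Φ (-t) p z) = z := by
  rw [← hΦ.add, add_neg_cancel, hΦ.zero]

/-- a function in involution with the Hamiltonian is preserved -/
theorem cons (hΦ : HFlow h Φ) (p : P) {g : E m → ℝ} (hg : Differentiable ℝ g)
    (hb : ∀ z, bracket (h p) g z = 0) (z : E m) (t : ℝ) : g (Φ t p z) = g z := by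
  have h1 : ∀ t, HasDerivAt (fun t => g (Φ t p z)) 0 t := by
    intro t
    have h2 := (hg (Φ t p z)).hasFDerivAt.comp_hasDerivAt t (hΦ.deriv p z t)
    rw [← bracket_eq, hb] at h2
    exact h2
  have h3 := is_const_of_deriv_eq_zero (fun t => (h1 t).differentiableAt)
    (fun t => (h1 t).deriv) t 0
  simpa [hΦ.zero] using h3

end HFlow

/-- **Existence of the flow.** -/
theorem exists_hflow [FiniteDimensional ℝ P] {h : P → E m → ℝ}
    (hs : ContDiff ℝ ∞ (fun p : P × E m => h p.1 p.2)) (ℓ : E m →L[ℝ] ℝ) {R : ℝ}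
    (hR : ∀ p z, R ≤ ‖z‖ → h p z = ℓ z) : ∃ Φ : ℝ → P → E m → E m, HFlow h Φ := by
  let F : P × E m → E m := fun p => XH (fderiv ℝ (h p.1) p.2) - XH ℓ
  have hF0 : ∀ p z, R + 1 ≤ ‖z‖ → F (p, z) = 0 := by
    intro p z hz
    have h1 : h p =ᶠ[𝓝 z] ℓ := by
      filter_upwards [(isOpen_lt continuous_const continuous_norm).mem_nhds
        (show R < ‖z‖ by linarith)] with w hw
      exact hR p w (le_of_lt hw)
    show XH (fderiv ℝ (h p) z) - XH ℓ = 0
    rw [h1.fderiv_eq, ℓ.fderiv, sub_self]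
  obtain ⟨Φ, Φs, Φ0, Φd, Φu⟩ := exists_flow_cpt (F := F)
    ((XH.contDiff.comp (contDiff_fderiv_family hs)).sub contDiff_const) hF0 (XH ℓ)
  have hfield : ∀ p z, XH ℓ + F (p, z) = XH (fderiv ℝ (h p) z) := by
    intro p z
    show XH ℓ + (XH (fderiv ℝ (h p) z) - XH ℓ) = _
    abel
  simp only [hfield] at Φd Φu
  have Φu' : ∀ p (γ : ℝ → E m), (∀ t, HasDerivAt γ (XH (fderiv ℝ (h p) (γ t))) t) →
      ∀ t, γ t = Φ t p (γ 0) := by
    intro q γ hγ t
    have h1 := neg_abs_le t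
    have h2 := le_abs_self t
    have h3 := abs_nonneg t
    exact Φu q γ (-(|t| + 1)) (|t| + 1) (by linarith) (by linarith) (fun s _ => hγ s) t
      ⟨by linarith, by linarith⟩
  have Φadd : ∀ q z (t s : ℝ), Φ (t + s) q z = Φ t q (Φ s q z) := by
    intro q z t s
    have h1 := Φu' q (fun t => Φ (t + s) q z) (fun t => by
      have h2 := (Φd q z (t + s)).scomp t ((hasDerivAt_id t).add_const s)
      rw [one_smul] at h2
      exact h2) t
    simp only [zero_add] at h1
    exact h1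
  refine ⟨Φ, Φs, Φ0, Φd, Φu, fun t p => ⟨Φs.comp (contDiff_const.prodMk
    (contDiff_const.prodMk contDiff_id)), ⟨Φ (-t) p, Φs.comp (contDiff_const.prodMk
    (contDiff_const.prodMk contDiff_id)), fun z => ?_, fun z => ?_⟩, fun z u v => ?_⟩⟩
  · rw [← Φadd, neg_add_cancel, Φ0]
  · rw [← Φadd, add_neg_cancel, Φ0]
  · have h1 : ContDiff ℝ ∞ (fun q : ℝ × E m => Φ q.1 p q.2) :=
      Φs.comp (contDiff_fst.prodMk (contDiff_const.prodMk contDiff_snd))
    refine symplectic_of_flow h1 (G := fun _ z => 0 + XH (fderiv ℝ (h p) z))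
      (fun _ => (ham_sp (slice_smooth hs p) 0 z u v).1)
      (fun _ z u v => (ham_sp (slice_smooth hs p) 0 z u v).2) (fun z => Φ0 p z)
      (fun z t => ?_) t z u v
    show HasDerivAt (fun t => Φ t p z) (0 + XH (fderiv ℝ (h p) (Φ t p z))) t
    rw [zero_add]
    exact Φd p z t

/-- **Commutation** of the flows of functions in involution. -/
theorem HFlow.comm {f g : P → E m → ℝ} {Φ Γ : ℝ → P → E m → E m} (hΦ : HFlow f Φ)
    (hΓ : HFlow g Γ) (p : P) (hf : Differentiable ℝ (f p))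
    (hfg : ∀ z, bracket (g p) (f p) z = 0) (z : E m) (t s : ℝ) :
    Γ s p (Φ t p z) = Φ t p (Γ s p z) := by
  have hcons : ∀ z, f p (Γ s p z) = f p z := fun z => hΓ.cons p hf hfg z s
  have h1 := hΦ.unique' p (fun t => Γ s p (Φ t p z)) (fun t => by
    have h2 : HasFDerivAt (Γ s p) (fderiv ℝ (Γ s p) (Φ t p z)) (Φ t p z) :=
      ((hΓ.symp s p).smooth.differentiable (by simp) _).hasFDerivAt
    have h3 := h2.comp_hasDerivAt t (hΦ.deriv p z t)
    have h4 := XH_comp (hΓ.symp s p) hf (Φ t p z)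
    have h5 : (fun z => f p (Γ s p z)) = f p := funext hcons
    rw [h5] at h4
    rw [h4] at h3
    exact h3) t
  simp only [hΦ.zero] at h1
  exact h1

theorem bracket_swap {a b : E m → ℝ} (z : E m) : bracket a b z = -bracket b a z := by
  unfold bracket
  rw [← Finset.sum_neg_distrib]
  exact Finset.sum_congr rfl fun i _ => by ring

end Pool.Agent.H84.PP
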