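import Pool.Agent.H84.PP.Esc

/-!
# Killing the left end
-/

set_option autoImplicit false
set_option linter.unusedSectionVars false

open Set Filter Topology Metric Function
open scoped ContDiff NNReal

noncomputable section

namespace Pool.Agent.H84.PP

open Pool.Agent.X277.Sy

variable {n : ℕ}

theorem supp_mono {K L : Set (E n)} (h : K ⊆ L) {φ : E n → E n} (hφ : SupportedIn K φ) :
    SupportedIn L φ := fun x hx => hφ x fun h' => hx (h h')

/-- null-homotopies over arbitrary parameter spaces -/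
theorem null_of_trivial {k : ℕ} (hT : PiTrivial k n) {Q : Type} [NormedAddCommGroup Q]
    [NormedSpace ℝ Q] [FiniteDimensional ℝ Q] (hQ : Module.finrank ℝ Q = k) {S : Q → SympCt n}
    (hS : IsSmoothFamily S) {r : ℝ} (h1 : ∀ q, r ≤ ‖q‖ → S q = 1)
    (h2 : ∀ q, SupportedIn (closedBall 0 r) (S q).map) :
    ∃ F : ℝ × Q → SympCt n, IsSmoothFamily F ∧ (∀ q, F (0, q) = 1) ∧ (∀ q, F (1, q) = S q) ∧
      ∃ r' : ℝ, 0 ≤ r' ∧ (∀ t q, r' ≤ ‖q‖ → F (t, q) = 1) ∧
        ∀ p, SupportedIn (closedBall 0 r') (F p).map := by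
  let e : Q ≃L[ℝ] EuclideanSpace ℝ (Fin k) := ContinuousLinearEquiv.ofFinrankEq (by simp [hQ])
  have he1 : ∀ s, ‖s‖ ≤ ‖(e : Q →L[ℝ] EuclideanSpace ℝ (Fin k))‖ * ‖e.symm s‖ := by
    intro s
    have := (e : Q →L[ℝ] EuclideanSpace ℝ (Fin k)).le_opNorm (e.symm s)
    simpa using this
  have he2 : ∀ q, ‖q‖ ≤ ‖(e.symm : EuclideanSpace ℝ (Fin k) →L[ℝ] Q)‖ * ‖e q‖ := by
    intro q
    have := (e.symm : EuclideanSpace ℝ (Fin k) →L[ℝ] Q).le_opNorm (e q)
    simpa using this
  set a := ‖(e : Q →L[ℝ] EuclideanSpace ℝ (Fin k))‖ with ha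
  set b := ‖(e.symm : EuclideanSpace ℝ (Fin k) →L[ℝ] Q)‖ with hb
  have ha0 : 0 ≤ a := norm_nonneg _
  have hb0 : 0 ≤ b := norm_nonneg _
  let f : Spheroid k n :=
    { fam := fun s => S (e.symm s)
      smooth := hS.comp e.symm.contDiff
      bounded := by
        refine ⟨max r (a * |r| + 1), fun s hs => h1 _ ?_, fun s => ?_⟩
        · by_contra hcon
          push Not at hcon
          have h3 := (le_max_right _ _).trans hs
          have h4 := he1 s
          have h5 : a * ‖e.symm s‖ ≤ a * |r| :=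
            mul_le_mul_of_nonneg_left (hcon.le.trans (le_abs_self r)) ha0
          linarith
        · exact supp_mono (closedBall_subset_closedBall (le_max_left _ _)) (h2 _) }
  obtain ⟨K, hK, F, F1, F2, F3, ⟨r1, hr1⟩, F4⟩ := (hT f).symm
  obtain ⟨r2, hr2⟩ := hK.isBounded.subset_closedBall (0 : E n)
  refine ⟨fun p => F (p.1, e p.2), F1.comp (contDiff_fst.prodMk (e.contDiff.comp contDiff_snd)),
    fun q => F2 _, fun q => ?_, max (max (b * |r1| + 1) r2) 0, le_max_right _ _,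
    fun t q hq => hr1 t _ ?_, fun p => ?_⟩
  · show F (1, e q) = S q
    rw [F3]
    show S (e.symm (e q)) = S q
    rw [e.symm_apply_apply]
  · by_contra hcon
    push Not at hcon
    have h3 := ((le_max_left _ _).trans (le_max_left _ _)).trans hq
    have h4 := he2 q
    have h5 : b * ‖e q‖ ≤ b * |r1| :=
      mul_le_mul_of_nonneg_left (hcon.le.trans (le_abs_self r1)) hb0
    linarith
  · exact supp_mono (hr2.trans (closedBall_subset_closedBall
      ((le_max_right _ _).trans (le_max_left _ _)))) (F4 _)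

/-- **Killing the left end.** -/
theorem PFam.kill (hn : 0 < n) {Q : Type} [NormedAddCommGroup Q] [NormedSpace ℝ Q]
    [FiniteDimensional ℝ Q] (hT : PiTrivial (Module.finrank ℝ Q + 1) n) {R : ℝ} (hR : 0 ≤ R)
    {Ω : Q → E (n + 1) → E (n + 1)} (h : PFam R Ω) {ρ : ℝ}
    (hρ : ∀ q, ρ ≤ ‖q‖ → ∃ y₀ : ℝ, ∀ z, py z ≤ y₀ → pv (Ω q z) = pv z) :
    ∃ (R' : ℝ) (Ψ : ℝ × Q → E (n + 1) → E (n + 1)), R ≤ R' ∧ PFam R' Ψ ∧
      (∀ u q z, u ≤ 0 → Ψ (u, q) z = Ω q z) ∧ (∀ q z, py z ≤ -R' → Ψ (1, q) z = z) ∧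
      ∃ ρ' : ℝ, ∀ u q z, ρ' ≤ ‖q‖ → Ψ (u, q) z = Ω q z := by
  have : CompleteSpace Q := FiniteDimensional.complete ℝ Q
  obtain ⟨S, S1, S2, S3, S4, -⟩ := h.exists_left hn
  have hSρ : ∀ q x, ρ ≤ ‖q‖ → S (q, x) = 1 := by
    intro q x hq
    obtain ⟨y₀, hy₀⟩ := hρ q hq
    apply SympCt.ext
    funext v
    set z : E (n + 1) := pt x (min y₀ (-R)) v with hz
    have h1 := S2 q z (by rw [hz, py_pt]; exact min_le_right _ _)
    rw [hy₀ z (by rw [hz, py_pt]; exact min_le_left _ _), hz, px_pt, pv_pt] at h1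
    exact h1.symm
  obtain ⟨F, F1, F2, F3, r', hr'0, F4, F5⟩ := null_of_trivial (Q := Q × ℝ) (k := Module.finrank ℝ Q + 1)
    hT (by rw [Module.finrank_prod, Module.finrank_self]) S1 (r := max (max R ρ) 0)
    (by
      rintro ⟨q, x⟩ hp
      have h1 : ‖((q, x) : Q × ℝ)‖ = max ‖q‖ ‖x‖ := rfl
      rw [h1] at hp
      rcases le_max_iff.1 hp with h2 | h2
      · exact hSρ q x (((le_max_right _ _).trans (le_max_left _ _)).trans h2)
      · exact S3 q x (((le_max_left _ _).trans (le_max_left _ _)).trans h2))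
    (fun p => supp_mono (closedBall_subset_closedBall
      ((le_max_left _ _).trans (le_max_left _ _))) (S4 p))
  obtain ⟨R1, Ω', hR1, P1, P2, P3, P4⟩ := exists_ext hn F1 hr'0 F2
    (fun u q x hx => F4 u (q, x) (hx.trans (le_max_right _ _)))
    (fun u q x hq => F4 u (q, x) (hq.trans (le_max_left _ _))) F5
  set R2 : ℝ := max R R1 with hR2
  have hR20 : 0 ≤ R2 := hR.trans (le_max_left _ _)
  have hΩ2 : PFam R2 Ω := h.mono (le_max_left _ _)
  have hΩ'2 : PFam R2 Ω' := P1.mono (le_max_right _ _)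
  obtain ⟨χ, hχ1, hχ2, hχ⟩ := hΩ'2.exists_inv hR20
  have hΨ : PFam (2 * (2 * R2)) (fun (p : ℝ × Q) z => χ p (Ω p.2 z)) :=
    hχ.mul (by linarith) ((hΩ2.mono (by linarith)).comp contDiff_snd)
  refine ⟨2 * (2 * R2), fun p z => χ p (Ω p.2 z), by linarith [le_max_left R R1], hΨ, ?_, ?_, r',
    ?_⟩
  · intro u q z hu
    have h1 := hχ1 (u, q) (Ω q z)
    rw [P3 u q _ hu] at h1
    exact h1
  · intro q z hz
    refine hΨ.kernel hn (q := (1, q)) (fun z hz => ?_) hz
    -- the left end of the quotient is trivial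
    show pv (χ (1, q) (Ω q z)) = pv z
    set w := Ω q z with hw
    have h1 := abs_le.1 (hΩ2.move q z)
    have h2 : py w ≤ -(3 * R2) := by
      rw [hw]
      linarith [h1.2]
    set z' := χ (1, q) w with hz'
    have h3 : Ω' (1, q) z' = w := hχ2 (1, q) w
    have h4 := abs_le.1 (hΩ'2.move (1, q) z')
    rw [h3] at h4
    have h5 : py z' ≤ -R2 := by linarith [h4.1]
    have h6 := P2 1 q z' (by linarith [le_max_right R R1])
    rw [h3, Real.smoothTransition.one, F3] at h6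
    have h7 := S2 q z (by linarith [le_max_left R R1])
    have h8 : px z' = px z := by
      have h9 := hΩ'2.px_left (q := (1, q)) h5
      rw [h3] at h9
      rw [← h9, hw]
      exact hΩ2.px_left (by linarith)
    rw [← hw, h6, h8] at h7
    have h10 := congrArg (S (q, px z))⁻¹.map h7
    rwa [inv_map_map, inv_map_map] at h10
  · intro u q z hq
    have h1 : ∀ w, Ω' (u, q) w = w := fun w => P4 q (fun u x => F4 u (q, x)
      (hq.trans (le_max_left _ _))) u w
    have h2 := hχ1 (u, q) (Ω q z)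
    rw [h1] at h2
    exact h2

end Pool.Agent.H84.PP
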