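import Pool.Agent.H84.Sy.Fam
import Pool.Agent.H84.PP.Bracket

/-!
# Coordinates of `ℝ^{2n+2} = ℝ × ℝ × ℝ^{2n}`, Hamiltonian fields, Poisson brackets
-/

set_option autoImplicit false

open Set Filter Topology Metric Function
open scoped ContDiff NNReal

noncomputable section

namespace Pool.Agent.H84.PP

open Pool.Agent.X277.Sy

variable {n : ℕ}

/-- the coordinate `x_1` -/
def px : E (n + 1) →L[ℝ] ℝ := EuclideanSpace.proj ((0 : Fin (n + 1)), (0 : Fin 2))

/-- the coordinate `y_1` -/
def py : E (n + 1) →L[ℝ] ℝ := EuclideanSpace.proj ((0 : Fin (n + 1)), (1 : Fin 2))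

/-- the unit vector of the coordinate `x_1` -/
def ex : E (n + 1) := EuclideanSpace.single ((0 : Fin (n + 1)), (0 : Fin 2)) (1 : ℝ)

/-- the unit vector of the coordinate `y_1` -/
def ey : E (n + 1) := EuclideanSpace.single ((0 : Fin (n + 1)), (1 : Fin 2)) (1 : ℝ)

/-- the other coordinates -/
def pv : E (n + 1) →L[ℝ] E n := LinearMap.toContinuousLinearMap
  { toFun := fun z => WithLp.toLp 2 (fun p : Fin n × Fin 2 => z (p.1.succ, p.2))
    map_add' := fun _ _ => rfl
    map_smul' := fun _ _ => rfl }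

/-- the inclusion of `ℝ^{2n}` -/
def iv : E n →L[ℝ] E (n + 1) := LinearMap.toContinuousLinearMap
  { toFun := fun v => WithLp.toLp 2 (fun p : Fin (n + 1) × Fin 2 =>
      Fin.cases (motive := fun _ => ℝ) 0 (fun i => v (i, p.2)) p.1)
    map_add' := fun u v => by
      ext ⟨i, j⟩
      refine Fin.cases ?_ (fun i => ?_) i
      · simp
      · simp
    map_smul' := fun c v => by
      ext ⟨i, j⟩
      refine Fin.cases ?_ (fun i => ?_) i
      · simp
      · simp }

theorem px_apply (z : E (n + 1)) : px z = z (0, 0) := rfl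
theorem py_apply (z : E (n + 1)) : py z = z (0, 1) := rfl
theorem pv_apply (z : E (n + 1)) (i : Fin n) (j : Fin 2) : pv z (i, j) = z (i.succ, j) := rfl
theorem iv_zero_apply (v : E n) (j : Fin 2) : iv v (0, j) = 0 := rfl
theorem iv_succ_apply (v : E n) (i : Fin n) (j : Fin 2) : iv v (i.succ, j) = v (i, j) := rfl

@[simp] theorem px_ex : px (ex : E (n + 1)) = 1 := by simp [px_apply, ex]
@[simp] theorem px_ey : px (ey : E (n + 1)) = 0 := by simp [px_apply, ey]
@[simp] theorem px_iv (v : E n) : px (iv v) = 0 := rfl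
@[simp] theorem py_ex : py (ex : E (n + 1)) = 0 := by simp [py_apply, ex]
@[simp] theorem py_ey : py (ey : E (n + 1)) = 1 := by simp [py_apply, ey]
@[simp] theorem py_iv (v : E n) : py (iv v) = 0 := rfl
@[simp] theorem pv_ex : pv (ex : E (n + 1)) = 0 := by
  ext ⟨i, j⟩
  rw [pv_apply]
  simp [ex, Prod.ext_iff, Fin.succ_ne_zero]
@[simp] theorem pv_ey : pv (ey : E (n + 1)) = 0 := by
  ext ⟨i, j⟩
  rw [pv_apply]
  simp [ey, Prod.ext_iff, Fin.succ_ne_zero]
@[simp] theorem pv_iv (v : E n) : pv (iv v) = v := rfl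

/-- the point with the coordinates `x`, `y`, `v` -/
def pt (x y : ℝ) (v : E n) : E (n + 1) := x • ex + y • ey + iv v

@[simp] theorem px_pt (x y : ℝ) (v : E n) : px (pt x y v) = x := by simp [pt]
@[simp] theorem py_pt (x y : ℝ) (v : E n) : py (pt x y v) = y := by simp [pt]
@[simp] theorem pv_pt (x y : ℝ) (v : E n) : pv (pt x y v) = v := by simp [pt]

theorem ext3 {z w : E (n + 1)} (h1 : px z = px w) (h2 : py z = py w) (h3 : pv z = pv w) :
    z = w := by
  ext ⟨i, j⟩
  refine Fin.cases ?_ (fun i => ?_) i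
  · fin_cases j
    · exact h1
    · exact h2
  · have h4 := congrArg (fun v : E n => v (i, j)) h3
    simpa [pv_apply] using h4

theorem pt_eta (z : E (n + 1)) : pt (px z) (py z) (pv z) = z := ext3 (by simp) (by simp) (by simp)

theorem pt_sub (x y : ℝ) (v : E n) (t : ℝ) : pt x y v - t • ey = pt x (y - t) v :=
  ext3 (by simp) (by simp) (by simp)

theorem pt_add (x y : ℝ) (v : E n) (t : ℝ) : pt x y v + t • ey = pt x (y + t) v :=
  ext3 (by simp) (by simp) (by simp)

theorem pt_zero_zero (v : E n) : pt 0 0 v = iv v := ext3 (by simp) (by simp) (by simp)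

/-- the symplectic form in the coordinates -/
theorem omega_split (z w : E (n + 1)) :
    omega z w = (px z * py w - py z * px w) + omega (pv z) (pv w) := by
  unfold omega
  rw [Fin.sum_univ_succ]
  rfl

theorem abs_px_le (z : E (n + 1)) : |px z| ≤ ‖z‖ := by
  have := PiLp.norm_apply_le z ((0 : Fin (n + 1)), (0 : Fin 2))
  simpa [px_apply, Real.norm_eq_abs] using this

theorem abs_py_le (z : E (n + 1)) : |py z| ≤ ‖z‖ := by
  have := PiLp.norm_apply_le z ((0 : Fin (n + 1)), (1 : Fin 2))
  simpa [py_apply, Real.norm_eq_abs] using this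

theorem norm_ex : ‖(ex : E (n + 1))‖ = 1 := by simp [ex]

theorem norm_ey : ‖(ey : E (n + 1))‖ = 1 := by simp [ey]

theorem norm_sq_split (z : E (n + 1)) : ‖z‖ ^ 2 = px z ^ 2 + py z ^ 2 + ‖pv z‖ ^ 2 := by
  rw [EuclideanSpace.norm_sq_eq, EuclideanSpace.norm_sq_eq]
  simp only [Real.norm_eq_abs, sq_abs]
  rw [Fintype.sum_prod_type, Fintype.sum_prod_type, Fin.sum_univ_succ]
  rw [Fin.sum_univ_two]
  rfl

theorem norm_pv_le (z : E (n + 1)) : ‖pv z‖ ≤ ‖z‖ := by
  have h := norm_sq_split z
  refine abs_le_of_sq_le_sq' ?_ (norm_nonneg z) |>.2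
  nlinarith [sq_nonneg (px z), sq_nonneg (py z)]

theorem norm_le_split (z : E (n + 1)) : ‖z‖ ≤ |px z| + |py z| + ‖pv z‖ := by
  have h := norm_sq_split z
  have h1 := abs_nonneg (px z)
  have h2 := abs_nonneg (py z)
  have h3 := norm_nonneg (pv z)
  refine abs_le_of_sq_le_sq' ?_ (by positivity) |>.2
  nlinarith [sq_abs (px z), sq_abs (py z), mul_nonneg h1 h2, mul_nonneg h1 h3, mul_nonneg h2 h3]

theorem norm_iv (v : E n) : ‖iv v‖ = ‖v‖ := by
  have h := norm_sq_split (iv v)
  simp only [px_iv, py_iv, pv_iv] at h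
  have : ‖iv v‖ ^ 2 = ‖v‖ ^ 2 := by rw [h]; ring
  exact (sq_eq_sq₀ (norm_nonneg _) (norm_nonneg _)).1 this

theorem pt_contDiff {P : Type*} [NormedAddCommGroup P] [NormedSpace ℝ P] {x y : P → ℝ}
    {v : P → E n} {m : WithTop ℕ∞} (hx : ContDiff ℝ m x) (hy : ContDiff ℝ m y)
    (hv : ContDiff ℝ m v) : ContDiff ℝ m (fun p => pt (x p) (y p) (v p)) :=
  ((hx.smul contDiff_const).add (hy.smul contDiff_const)).add (iv.contDiff.comp hv)

/-! ### The outer region -/

/-- the points to the right and at the sides -/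
def Out (R : ℝ) (z : E (n + 1)) : Prop := R ≤ py z ∨ R ≤ |px z| ∨ R ≤ ‖pv z‖

/-- its interior -/
def Out' (R : ℝ) (z : E (n + 1)) : Prop := R < py z ∨ R < |px z| ∨ R < ‖pv z‖

theorem Out.mono {R S : ℝ} (h : R ≤ S) {z : E (n + 1)} (hz : Out S z) : Out R z := by
  rcases hz with hz | hz | hz
  · exact Or.inl (h.trans hz)
  · exact Or.inr (Or.inl (h.trans hz))
  · exact Or.inr (Or.inr (h.trans hz))

theorem Out'.out {R : ℝ} {z : E (n + 1)} (hz : Out' R z) : Out R z := by
  rcases hz with hz | hz | hz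
  · exact Or.inl hz.le
  · exact Or.inr (Or.inl hz.le)
  · exact Or.inr (Or.inr hz.le)

theorem isOpen_out' (R : ℝ) : IsOpen {z : E (n + 1) | Out' R z} := by
  refine IsOpen.union (isOpen_lt continuous_const py.continuous) (IsOpen.union ?_ ?_)
  · exact isOpen_lt continuous_const px.continuous.abs
  · exact isOpen_lt continuous_const pv.continuous.norm

theorem Out.add {R : ℝ} {z : E (n + 1)} (hz : Out R z) {t : ℝ} (ht : 0 ≤ t) :
    Out R (z + t • ey) := by
  rcases hz with hz | hz | hz
  · left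
    simp only [map_add, map_smul, py_ey, smul_eq_mul, mul_one]
    linarith
  · right; left
    simpa using hz
  · right; right
    simpa using hz

/-- the side region is invariant under the translations -/
theorem side_add {R : ℝ} {z : E (n + 1)} (hz : R ≤ |px z| ∨ R ≤ ‖pv z‖) (t : ℝ) :
    R ≤ |px (z + t • ey)| ∨ R ≤ ‖pv (z + t • ey)‖ := by
  simpa using hz

theorem norm_le_of_not_out {R S : ℝ} {z : E (n + 1)} (hz : ¬ Out R z) (hy : -S ≤ py z)
    (hRS : R ≤ S) : ‖z‖ ≤ 3 * S := by
  unfold Out at hz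
  push Not at hz
  have h := norm_le_split z
  have h1 : |py z| ≤ S := abs_le.2 ⟨hy, by linarith [hz.1]⟩
  linarith [hz.2.1, hz.2.2]

/-! ### Hamiltonian vector fields -/

/-- the Hamiltonian vector of a linear form -/
def XH : (E n →L[ℝ] ℝ) →L[ℝ] E n := LinearMap.toContinuousLinearMap
  { toFun := fun L => WithLp.toLp 2 (fun p : Fin n × Fin 2 =>
      if p.2 = 0 then -L (EuclideanSpace.single (p.1, 1) 1) else
        L (EuclideanSpace.single (p.1, 0) 1))
    map_add' := fun L M => by
      ext ⟨i, j⟩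
      fin_cases j
      · simp; ring
      · simp
    map_smul' := fun c L => by
      ext ⟨i, j⟩
      fin_cases j
      · simp
      · simp }

theorem XH_zero_apply (L : E n →L[ℝ] ℝ) (i : Fin n) :
    XH L (i, 0) = -L (EuclideanSpace.single (i, 1) 1) := rfl

theorem XH_one_apply (L : E n →L[ℝ] ℝ) (i : Fin n) :
    XH L (i, 1) = L (EuclideanSpace.single (i, 0) 1) := rfl

theorem form_eq_sum (L : E n →L[ℝ] ℝ) (u : E n) :
    L u = ∑ i : Fin n, (u (i, 0) * L (EuclideanSpace.single (i, 0) 1) +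
      u (i, 1) * L (EuclideanSpace.single (i, 1) 1)) := by
  have h1 : u = ∑ p : Fin n × Fin 2, u p • EuclideanSpace.single p (1 : ℝ) := by
    ext q
    simp [Pi.single_apply]
  conv_lhs => rw [h1]
  rw [map_sum, Fintype.sum_prod_type]
  refine Finset.sum_congr rfl fun i _ => ?_
  rw [Fin.sum_univ_two, map_smul, map_smul, smul_eq_mul, smul_eq_mul]

/-- the defining property of the Hamiltonian vector -/
theorem omega_XH (L : E n →L[ℝ] ℝ) (u : E n) : omega (XH L) u = -L u := by
  unfold omega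
  rw [form_eq_sum L u, ← Finset.sum_neg_distrib]
  refine Finset.sum_congr rfl fun i _ => ?_
  rw [XH_zero_apply, XH_one_apply]
  ring

theorem omega_ey (u : E (n + 1)) : omega ey u = -px u := by
  rw [omega_split]
  have h : omega (0 : E n) (pv u) = 0 := by
    rw [← om_apply, map_zero, LinearMap.zero_apply]
  simp [h]

theorem omega_ex (u : E (n + 1)) : omega ex u = py u := by
  rw [omega_split]
  have h : omega (0 : E n) (pv u) = 0 := by
    rw [← om_apply, map_zero, LinearMap.zero_apply]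
  simp [h]

theorem omega_left_cancel {u w : E n} (h : ∀ v, omega u v = omega w v) : u = w := by
  rw [← sub_eq_zero]
  refine omega_nondeg fun v => ?_
  rw [← om_apply, map_sub, LinearMap.sub_apply, om_apply, om_apply, h v, sub_self]

theorem XH_px : XH (px : E (n + 1) →L[ℝ] ℝ) = ey :=
  omega_left_cancel fun v => by rw [omega_XH, omega_ey]

theorem omega_swap (u v : E n) : omega u v = -omega v u := by
  unfold omega
  rw [← Finset.sum_neg_distrib]
  exact Finset.sum_congr rfl fun i _ => by ring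

theorem bracket_eq (a b : E n → ℝ) (z : E n) :
    bracket a b z = fderiv ℝ b z (XH (fderiv ℝ a z)) := by
  rw [form_eq_sum (fderiv ℝ b z)]
  unfold bracket
  refine Finset.sum_congr rfl fun i _ => ?_
  rw [XH_zero_apply, XH_one_apply]
  ring

end Pool.Agent.H84.PP
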