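import Pool.Agent.H84.PP.Ext

/-!
# Escape functions and Poisson brackets of compositions
-/

set_option autoImplicit false
set_option linter.unusedSectionVars false

open Set Filter Topology Metric Function
open scoped ContDiff NNReal

noncomputable section

namespace Pool.Agent.H84.PP

open Pool.Agent.X277.Sy

variable {n : ℕ}

/-! ### Brackets -/

theorem symp_surj {m : ℕ} {Ψ : E m → E m} (h : IsSymplectomorphism Ψ) (z : E m) :
    Surjective (fderiv ℝ Ψ z) := by
  have hinj : Injective (fderiv ℝ Ψ z) :=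
    (injective_iff_map_eq_zero _).2 fun _ hu => symp_inj (h.symplectic z) hu
  exact (LinearMap.injective_iff_surjective (f := (fderiv ℝ Ψ z : E m →ₗ[ℝ] E m))).1 hinj

/-- the Hamiltonian field of a composition -/
theorem XH_comp {m : ℕ} {Ψ : E m → E m} (h : IsSymplectomorphism Ψ) {a : E m → ℝ}
    (ha : Differentiable ℝ a) (z : E m) :
    fderiv ℝ Ψ z (XH (fderiv ℝ (fun z => a (Ψ z)) z)) = XH (fderiv ℝ a (Ψ z)) := by
  have hΨ : HasFDerivAt Ψ (fderiv ℝ Ψ z) z := (h.smooth.differentiable (by simp) z).hasFDerivAt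
  have hc : HasFDerivAt (fun z => a (Ψ z)) ((fderiv ℝ a (Ψ z)).comp (fderiv ℝ Ψ z)) z :=
    HasFDerivAt.comp z (ha (Ψ z)).hasFDerivAt hΨ
  refine omega_left_cancel fun v => ?_
  obtain ⟨u, rfl⟩ := symp_surj h z v
  rw [h.symplectic, omega_XH, omega_XH, hc.fderiv]
  rfl

/-- brackets are invariant under symplectomorphisms -/
theorem bracket_comp {m : ℕ} {Ψ : E m → E m} (h : IsSymplectomorphism Ψ) {a b : E m → ℝ}
    (ha : Differentiable ℝ a) (hb : Differentiable ℝ b) (z : E m) :
    bracket (fun z => a (Ψ z)) (fun z => b (Ψ z)) z = bracket a b (Ψ z) := by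
  have hΨ : HasFDerivAt Ψ (fderiv ℝ Ψ z) z := (h.smooth.differentiable (by simp) z).hasFDerivAt
  have hc : HasFDerivAt (fun z => b (Ψ z)) ((fderiv ℝ b (Ψ z)).comp (fderiv ℝ Ψ z)) z :=
    HasFDerivAt.comp z (hb (Ψ z)).hasFDerivAt hΨ
  rw [bracket_eq, bracket_eq, hc.fderiv, ← XH_comp h ha z]
  rfl

theorem bracket_px {b : E (n + 1) → ℝ} (z : E (n + 1)) :
    bracket px b z = fderiv ℝ b z ey := by
  rw [bracket_eq, px.fderiv, XH_px]

theorem bracket_combo {m : ℕ} {a b b' : E m → ℝ} {z : E m} (hb : DifferentiableAt ℝ b z)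
    (hb' : DifferentiableAt ℝ b' z) (c c' : ℝ) :
    bracket a (fun z => c * b z + c' * b' z) z = c * bracket a b z + c' * bracket a b' z := by
  rw [bracket_eq, bracket_eq, bracket_eq]
  have h1 := ((hb.hasFDerivAt.const_mul c).add (hb'.hasFDerivAt.const_mul c')).fderiv
  have h2 : fderiv ℝ (fun z => c * b z + c' * b' z) z =
      c • fderiv ℝ b z + c' • fderiv ℝ b' z := h1
  rw [h2]
  rfl

/-! ### The derivative of the smooth transition -/

theorem deriv_transition_bdd : ∃ B : ℝ, 0 ≤ B ∧ ∀ x, |deriv Real.smoothTransition x| ≤ B := by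
  have hc : Continuous (deriv Real.smoothTransition) :=
    Real.smoothTransition.contDiff.continuous_deriv (n := 1) le_rfl
  obtain ⟨M, hM⟩ := (isCompact_Icc (a := (0 : ℝ)) (b := 1)).exists_bound_of_continuousOn
    hc.continuousOn
  refine ⟨max M 0, le_max_right _ _, fun x => ?_⟩
  rcases lt_or_ge x 0 with h | h
  · have h1 : Real.smoothTransition =ᶠ[𝓝 x] fun _ => 0 := by
      filter_upwards [isOpen_Iio.mem_nhds h] with y hy
      exact Real.smoothTransition.zero_of_nonpos (le_of_lt hy)
    rw [h1.deriv_eq, deriv_const, abs_zero]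
    exact le_max_right _ _
  · rcases lt_or_ge 1 x with h2 | h2
    · have h1 : Real.smoothTransition =ᶠ[𝓝 x] fun _ => 1 := by
        filter_upwards [isOpen_Ioi.mem_nhds h2] with y hy
        exact Real.smoothTransition.one_of_one_le (le_of_lt hy)
      rw [h1.deriv_eq, deriv_const, abs_zero]
      exact le_max_right _ _
    · exact (hM x ⟨h, h2⟩).trans (le_max_left _ _)

variable {Q : Type} [NormedAddCommGroup Q] [NormedSpace ℝ Q]

theorem PFam.px_far {R : ℝ} {Ψ : Q → E (n + 1) → E (n + 1)} (h : PFam R Ψ) {q : Q}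
    {z : E (n + 1)} (hz : 3 * R < ‖z‖) : px (Ψ q z) = px z := by
  by_cases h1 : Out R z
  · rw [h.out q z h1]
  · refine h.px_left ?_
    by_contra hcon
    push Not at hcon
    exact absurd (norm_le_of_not_out h1 hcon.le le_rfl) (not_le.2 hz)

/-- **Escape functions.** -/
theorem PFam.exists_escape [CompleteSpace Q] {R : ℝ} (hR : 0 ≤ R)
    {Ψ : Q → E (n + 1) → E (n + 1)} (h : PFam R Ψ) :
    ∃ (R' : ℝ) (e : Q → E (n + 1) → ℝ), ContDiff ℝ ∞ (fun p : Q × E (n + 1) => e p.1 p.2) ∧
      (∀ q z, R' ≤ ‖z‖ → px (Ψ q z) = px z ∧ e q z = py z) ∧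
      (∀ q z, 0 < bracket (fun z => px (Ψ q z)) (e q) z) ∧
      ∀ q, (∀ z, py z ≤ -R → Ψ q z = z) → ∀ z, e q z = py (Ψ q z) := by
  obtain ⟨χ, hχ1, hχ2, hχ⟩ := h.exists_inv hR
  obtain ⟨B, hB0, hB⟩ := deriv_transition_bdd
  -- the delay
  let T : Q → E (n + 1) → ℝ := fun q w => py (χ q (pt (px w) (-(2 * R)) (pv w))) + 2 * R
  have hTs : ContDiff ℝ ∞ (fun p : Q × E (n + 1) => T p.1 p.2) := by
    have h1 : ContDiff ℝ ∞ (fun p : Q × E (n + 1) => (p.1, pt (px p.2) (-(2 * R)) (pv p.2))) :=
      contDiff_fst.prodMk (pt_contDiff (px.contDiff.comp contDiff_snd) contDiff_const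
        (pv.contDiff.comp contDiff_snd))
    exact (py.contDiff.comp (hχ.smooth.comp h1)).add contDiff_const
  have hTb : ∀ q w, |T q w| ≤ 2 * R := by
    intro q w
    have h1 := hχ.move q (pt (px w) (-(2 * R)) (pv w))
    rw [py_pt, sub_neg_eq_add] at h1
    exact h1
  have hTside : ∀ q w, (2 * R ≤ |px w| ∨ 2 * R ≤ ‖pv w‖) → T q w = 0 := by
    intro q w hw
    show py (χ q (pt (px w) (-(2 * R)) (pv w))) + 2 * R = 0
    rw [hχ.out q _ (Or.inr (by simpa using hw)), py_pt]
    ring
  have hTleft : ∀ q w, py w ≤ -(2 * R) → py (χ q w) = py w + T q w := by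
    intro q w hw
    have h1 : w = pt (px w) (-(2 * R)) (pv w) + (py w + 2 * R) • ey :=
      ext3 (by simp) (by simp) (by simp)
    have h2 := hχ.shift (q := q) (z := pt (px w) (-(2 * R)) (pv w)) (t := py w + 2 * R)
      (by rw [py_pt]) (by rw [py_pt]; linarith)
    rw [← h1] at h2
    rw [h2]
    show py (χ q (pt (px w) (-(2 * R)) (pv w)) + (py w + 2 * R) • ey) =
      py w + (py (χ q (pt (px w) (-(2 * R)) (pv w))) + 2 * R)
    simp only [map_add, map_smul, py_ey, smul_eq_mul, mul_one]
    ring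
  have hTy : ∀ q w (t : ℝ), T q (w + t • ey) = T q w := by
    intro q w t
    show py (χ q (pt (px (w + t • ey)) (-(2 * R)) (pv (w + t • ey)))) + 2 * R = _
    have e2 : px (w + t • ey) = px w := by simp
    have e3 : pv (w + t • ey) = pv w := by simp
    rw [e2, e3]
  -- the slow cutoff
  set L : ℝ := 2 * R * B + 1 with hL
  have hL0 : 0 < L := by positivity
  let β : ℝ → ℝ := fun y => Real.smoothTransition ((-y - 2 * R) / L)
  have hβs : ContDiff ℝ ∞ β :=
    Real.smoothTransition.contDiff.comp ((contDiff_id.neg.sub contDiff_const).div_const L)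
  have hβ0 : ∀ y, -(2 * R) ≤ y → β y = 0 := by
    intro y hy
    exact Real.smoothTransition.zero_of_nonpos (div_nonpos_of_nonpos_of_nonneg (by linarith) hL0.le)
  have hβ1 : ∀ y, y ≤ -(2 * R) - L → β y = 1 := by
    intro y hy
    refine Real.smoothTransition.one_of_one_le ?_
    rw [le_div_iff₀ hL0]
    linarith
  have hβd : ∀ y, HasDerivAt β (deriv β y) y := fun y =>
    (hβs.differentiable (by simp) y).hasDerivAt
  have hβb : ∀ y, |deriv β y| ≤ B / L := by
    intro y
    have h1 : HasDerivAt (fun y : ℝ => (-y - 2 * R) / L) ((-1) / L) y :=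
      (((hasDerivAt_id y).neg).sub_const (2 * R)).div_const L
    have h2 : HasDerivAt β (deriv Real.smoothTransition ((-y - 2 * R) / L) * ((-1) / L)) y := by
      have h3 : HasDerivAt Real.smoothTransition (deriv Real.smoothTransition ((-y - 2 * R) / L))
          ((-y - 2 * R) / L) :=
        ((Real.smoothTransition.contDiff (n := 1)).differentiable one_ne_zero _).hasDerivAt
      exact h3.comp y h1
    rw [h2.deriv, abs_mul, abs_div, abs_neg, abs_one, abs_of_pos hL0, div_eq_mul_one_div B L]
    exact mul_le_mul_of_nonneg_right (hB _) (by positivity)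
  let η : Q → E (n + 1) → ℝ := fun q w => py w + β (py w) * T q w
  have hηs : ContDiff ℝ ∞ (fun p : Q × E (n + 1) => η p.1 p.2) :=
    (py.contDiff.comp contDiff_snd).add ((hβs.comp (py.contDiff.comp contDiff_snd)).mul hTs)
  refine ⟨9 * R + 3 * L + 1, fun q z => η q (Ψ q z), hηs.comp (contDiff_fst.prodMk h.smooth),
    ?_, ?_, ?_⟩
  · intro q z hz
    refine ⟨h.px_far (by linarith), ?_⟩
    show py (Ψ q z) + β (py (Ψ q z)) * T q (Ψ q z) = py z
    by_cases h1 : Out (2 * R) z
    · have h2 : Ψ q z = z := h.out q z (h1.mono (by linarith))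
      rw [h2]
      rcases h1 with h1 | h1
      · rw [hβ0 _ (by linarith), zero_mul, add_zero]
      · rw [hTside q z h1, mul_zero, add_zero]
    · have h2 : py z ≤ -(3 * R + L) := by
        by_contra hcon
        push Not at hcon
        have := norm_le_of_not_out h1 hcon.le (by linarith)
        linarith
      have h3 := abs_le.1 (h.move q z)
      rw [hβ1 _ (by linarith [h3.2]), one_mul, ← hTleft q _ (by linarith [h3.2]), hχ1]
  · intro q z
    have hd : Differentiable ℝ (η q) := (slice_smooth hηs q).differentiable (by simp)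
    rw [bracket_comp (h.symp q) px.differentiable hd, bracket_px]
    set w := Ψ q z with hw
    have h1 : HasDerivAt (fun t : ℝ => η q (w + t • ey)) (fderiv ℝ (η q) w ey) 0 := by
      have h2 : HasDerivAt (fun t : ℝ => w + t • (ey : E (n + 1))) ey 0 := by
        have := ((hasDerivAt_id (0 : ℝ)).smul_const (ey : E (n + 1))).const_add w
        simpa using this
      have h3 : HasFDerivAt (η q) (fderiv ℝ (η q) w) (w + (0 : ℝ) • ey) := by
        rw [zero_smul, add_zero]
        exact (hd w).hasFDerivAt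
      exact h3.comp_hasDerivAt (0 : ℝ) h2
    have h4 : HasDerivAt (fun t : ℝ => η q (w + t • ey)) (1 + deriv β (py w) * T q w) 0 := by
      have h5 : (fun t : ℝ => η q (w + t • ey)) = fun t => (py w + t) + β (py w + t) * T q w := by
        funext t
        show py (w + t • ey) + β (py (w + t • ey)) * T q (w + t • ey) = _
        rw [hTy]
        have e1 : py (w + t • ey) = py w + t := by simp
        rw [e1]
      rw [h5]
      have h6 : HasDerivAt (fun t : ℝ => py w + t) 1 0 := (hasDerivAt_id (0 : ℝ)).const_add _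
      have h7 : HasDerivAt (fun t : ℝ => β (py w + t)) (deriv β (py w)) 0 := by
        have h8 : HasDerivAt β (deriv β (py w)) (py w + 0) := by
          rw [add_zero]
          exact hβd _
        have h9 := h8.comp (0 : ℝ) h6
        rw [mul_one] at h9
        exact h9
      exact h6.add (h7.mul_const _)
    rw [h1.unique h4]
    have h10 : |deriv β (py w) * T q w| ≤ B / L * (2 * R) := by
      rw [abs_mul]
      exact mul_le_mul (hβb _) (hTb _ _) (abs_nonneg _) (by positivity)
    have h11 : B / L * (2 * R) < 1 := by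
      rw [div_mul_eq_mul_div, div_lt_one hL0, hL]
      linarith [mul_comm B (2 * R)]
    have h12 := neg_abs_le (deriv β (py w) * T q w)
    linarith
  · intro q hq z
    show py (Ψ q z) + β (py (Ψ q z)) * T q (Ψ q z) = py (Ψ q z)
    have h1 : T q (Ψ q z) = 0 := by
      show py (χ q (pt (px (Ψ q z)) (-(2 * R)) (pv (Ψ q z)))) + 2 * R = 0
      set w : E (n + 1) := pt (px (Ψ q z)) (-(2 * R)) (pv (Ψ q z)) with hw
      have h2 : Ψ q w = w := hq w (by rw [hw, py_pt]; linarith)
      have h3 := hχ1 q w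
      rw [h2] at h3
      rw [h3, hw, py_pt]
      ring
    rw [h1, mul_zero, add_zero]

theorem px_isSymp_comp {φ : E (n + 1) → E (n + 1)} (h : IsSymplectomorphism φ) (z : E (n + 1)) :
    bracket (fun z => px (φ z)) (fun z => py (φ z)) z = 1 := by
  rw [bracket_comp h px.differentiable py.differentiable, bracket_px, py.fderiv, py_ey]

theorem far_fix {r : ℝ} {φ : E (n + 1) → E (n + 1)} (h : SupportedIn (closedBall 0 r) φ)
    {z : E (n + 1)} (hz : r < ‖z‖) : φ z = z :=
  h z (by rw [mem_closedBall_zero_iff, not_le]; exact hz)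

end Pool.Agent.H84.PP
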