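import Pool.Agent.H84.PP.Gen

/-!
# Extension of contractible families of loops to families of symplectic pseudo-isotopies
-/

set_option autoImplicit false
set_option linter.unusedSectionVars false

open Set Filter Topology Metric Function
open scoped ContDiff NNReal

noncomputable section

namespace Pool.Agent.H84.PP

open Pool.Agent.X277.Sy

variable {n : ℕ} {Q : Type} [NormedAddCommGroup Q] [NormedSpace ℝ Q]

theorem Out.out' {R : ℝ} {z : E (n + 1)} (hz : Out (R + 1) z) : Out' R z := by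
  rcases hz with hz | hz | hz
  · exact Or.inl (by linarith)
  · exact Or.inr (Or.inl (by linarith))
  · exact Or.inr (Or.inr (by linarith))

/-- **Extension.** -/
theorem exists_ext (hn : 0 < n) [FiniteDimensional ℝ Q] {S : ℝ × (Q × ℝ) → SympCt n}
    (hS : IsSmoothFamily S) {R : ℝ} (hR : 0 ≤ R) (h0 : ∀ r, S (0, r) = 1)
    (hx : ∀ u q x, R ≤ |x| → S (u, (q, x)) = 1)
    (hq : ∀ u q x, R ≤ ‖q‖ → S (u, (q, x)) = 1)
    (hsupp : ∀ p, SupportedIn (closedBall 0 R) (S p).map) :
    ∃ (R' : ℝ) (Ω : ℝ × Q → E (n + 1) → E (n + 1)), R ≤ R' ∧ PFam R' Ω ∧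
      (∀ u q z, py z ≤ -R' →
        pv (Ω (u, q) z) = (S (Real.smoothTransition u, (q, px z))).map (pv z)) ∧
      (∀ u q z, u ≤ 0 → Ω (u, q) z = z) ∧
      ∀ q, (∀ u x, S (u, (q, x)) = 1) → ∀ u z, Ω (u, q) z = z := by
  have : CompleteSpace Q := FiniteDimensional.complete ℝ Q
  obtain ⟨Y, hYs, hYd, hYsp, hY0⟩ := exists_velocity (r := Q × ℝ) hS
  have hYR : ∀ p v, R < ‖v‖ → Y (p, v) = 0 := by
    rintro ⟨u, r⟩ v hv
    refine hY0 r v (fun u => hsupp (u, r) v ?_) u
    rw [mem_closedBall_zero_iff, not_le]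
    exact hv
  obtain ⟨K, hKs, hKX, hKR, hK0⟩ := exists_ham hn hYs hYsp hR hYR
  have hK1 : ∀ u q x v, S (u, (q, x)) = S (u, (q, x)) → (∀ u, S (u, (q, x)) = 1) →
      K ((u, (q, x)), v) = 0 := by
    intro u q x v _ h1
    refine hK0 (u, (q, x)) (fun v => hY0 (q, x) v (fun u => ?_) u) v
    rw [h1]
    rfl
  have hKx : ∀ u q x v, R ≤ |x| → K ((u, (q, x)), v) = 0 := fun u q x v h =>
    hK1 u q x v rfl fun u => hx u q x h
  have hKq : ∀ u q x v, R ≤ ‖q‖ → K ((u, (q, x)), v) = 0 := fun u q x v h =>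
    hK1 u q x v rfl fun u => hq u q x h
  -- the derivative of `K` in the direction `x`
  let k : (ℝ × (Q × ℝ)) × E n → ℝ := fun p => fderiv ℝ K p (((0 : ℝ), ((0 : Q), (1 : ℝ))), (0 : E n))
  have hks : ContDiff ℝ ∞ k := (hKs.fderiv_right (m := ∞) (by simp)).clm_apply contDiff_const
  have hk0 : ∀ (U : Set ((ℝ × (Q × ℝ)) × E n)), IsOpen U → (∀ p ∈ U, K p = 0) →
      ∀ p ∈ U, k p = 0 := by
    intro U hU hU0 p hp
    have h1 : K =ᶠ[𝓝 p] fun _ => 0 := by
      filter_upwards [hU.mem_nhds hp] with r hr using hU0 r hr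
    show fderiv ℝ K p _ = 0
    rw [h1.fderiv_eq, fderiv_fun_const]
    rfl
  obtain ⟨M, hM0, hM⟩ : ∃ M : ℝ, 0 ≤ M ∧ ∀ t ∈ Icc (-1 : ℝ) 2, ∀ q x v,
      |k ((t, (q, x)), v)| ≤ M := by
    have hcomp : IsCompact ((Icc (-1 : ℝ) 2 ×ˢ (closedBall (0 : Q) R ×ˢ closedBall (0 : ℝ) R)) ×ˢ
        closedBall (0 : E n) R) :=
      (isCompact_Icc.prod ((isCompact_closedBall _ _).prod (isCompact_closedBall _ _))).prod
        (isCompact_closedBall _ _)
    obtain ⟨M, hM⟩ := hcomp.exists_bound_of_continuousOn hks.continuous.continuousOn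
    refine ⟨max M 0, le_max_right _ _, fun t ht q x v => ?_⟩
    by_cases h1 : ‖q‖ ≤ R
    swap
    · rw [hk0 {p | R < ‖p.1.2.1‖} (isOpen_lt continuous_const (by fun_prop)) (fun p hp =>
        hKq _ _ _ _ (le_of_lt hp)) ((t, (q, x)), v) (not_le.1 h1), abs_zero]
      exact le_max_right _ _
    by_cases h2 : |x| ≤ R
    swap
    · rw [hk0 {p | R < |p.1.2.2|} (isOpen_lt continuous_const (by fun_prop)) (fun p hp =>
        hKx _ _ _ _ (le_of_lt hp)) ((t, (q, x)), v) (not_le.1 h2), abs_zero]
      exact le_max_right _ _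
    by_cases h3 : ‖v‖ ≤ R
    swap
    · rw [hk0 {p | R < ‖p.2‖} (isOpen_lt continuous_const (by fun_prop)) (fun p hp =>
        hKR _ _ hp) ((t, (q, x)), v) (not_le.1 h3), abs_zero]
      exact le_max_right _ _
    exact (hM _ ⟨⟨ht, by simpa using h1, by simpa using h2⟩, by simpa using h3⟩).trans
      (le_max_left _ _)
  -- the Hamiltonian
  let H : (ℝ × Q) × E (n + 1) → ℝ := fun p =>
    Real.smoothTransition (-(py p.2)) * K ((p.1.1, (p.1.2, px p.2)), pv p.2)
  have hHs : ContDiff ℝ ∞ H := by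
    have h1 : ContDiff ℝ ∞ (fun p : (ℝ × Q) × E (n + 1) => Real.smoothTransition (-(py p.2))) :=
      Real.smoothTransition.contDiff.comp (py.contDiff.comp contDiff_snd).neg
    have h2 : ContDiff ℝ ∞ (fun p : (ℝ × Q) × E (n + 1) =>
        ((p.1.1, (p.1.2, px p.2)), pv p.2)) :=
      ((contDiff_fst.comp contDiff_fst).prodMk ((contDiff_snd.comp contDiff_fst).prodMk
        (px.contDiff.comp contDiff_snd))).prodMk (pv.contDiff.comp contDiff_snd)
    exact h1.mul (hKs.comp h2)
  have hHout : ∀ p z, Out' R z → H (p, z) = 0 := by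
    intro p z hz
    show Real.smoothTransition (-(py z)) * K ((p.1, (p.2, px z)), pv z) = 0
    rcases hz with hz | hz | hz
    · rw [Real.smoothTransition.zero_of_nonpos (by linarith), zero_mul]
    · rw [hKx _ _ _ _ hz.le, mul_zero]
    · rw [hKR _ _ hz, mul_zero]
  let F : (ℝ × Q) × E (n + 1) → E (n + 1) := fun p => XH (fderiv ℝ (fun z => H (p.1, z)) p.2)
  have hF : VClass (R + 2) F := by
    refine ⟨XH.contDiff.comp (contDiff_fderiv_family (f := fun p z => H (p, z)) hHs), ?_, ?_⟩
    · intro p z hz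
      have h1 : (fun z => H (p, z)) =ᶠ[𝓝 z] fun _ => 0 := by
        filter_upwards [(isOpen_out' R).mem_nhds (Out.out' (hz.mono (by linarith)))] with w hw
          using hHout p w hw
      show XH (fderiv ℝ (fun z => H (p, z)) z) = 0
      rw [h1.fderiv_eq, fderiv_fun_const]
      simp
    · intro p z t hz ht
      have h1 : (fun w : E (n + 1) => H (p, w + -(t • ey))) =ᶠ[𝓝 z] fun w => H (p, w) := by
        filter_upwards [(PFam.isOpen_left 1).mem_nhds (show py z < -1 by linarith)] with w hw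
        have hw' : py w < -1 := hw
        show Real.smoothTransition (-(py (w + -(t • ey)))) *
          K ((p.1, (p.2, px (w + -(t • ey)))), pv (w + -(t • ey))) =
          Real.smoothTransition (-(py w)) * K ((p.1, (p.2, px w)), pv w)
        have e1 : py (w + -(t • ey)) = py w - t := by simp [sub_eq_add_neg]
        have e2 : px (w + -(t • ey)) = px w := by simp
        have e3 : pv (w + -(t • ey)) = pv w := by simp
        rw [e1, e2, e3, Real.smoothTransition.one_of_one_le (by linarith),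
          Real.smoothTransition.one_of_one_le (by linarith)]
      have h2 := fderiv_comp_add_right (𝕜 := ℝ) (f := fun w : E (n + 1) => H (p, w))
        (x := z) (-(t • (ey : E (n + 1))))
      show XH (fderiv ℝ (fun w => H (p, w)) (z - t • ey)) = XH (fderiv ℝ (fun w => H (p, w)) z)
      rw [sub_eq_add_neg, ← h2, h1.fderiv_eq]
  obtain ⟨Φ, Φs, Φ0, Φd, Φu⟩ := hF.exists_flow (by linarith) 0 ((1 : ℝ), (0 : Q))
  have hfield : ∀ (a : ℝ) (q : Q) (t : ℝ) (z : E (n + 1)), (0 : ℝ) • (ey : E (n + 1)) +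
      F ((a, q) + t • ((1 : ℝ), (0 : Q)), z) = F ((a + t, q), z) := by
    intro a q t z
    have h1 : (a, q) + t • ((1 : ℝ), (0 : Q)) = (a + t, q) := by
      apply Prod.ext
      · simp
      · simp
    rw [h1, zero_smul, zero_add]
  have Φd' : ∀ (a : ℝ) (q : Q) z t, HasDerivAt (fun t => Φ t (a, q) z)
      (F ((a + t, q), Φ t (a, q) z)) t := by
    intro a q z t
    have := Φd (a, q) z t
    rwa [hfield] at this
  have Φu' : ∀ (a : ℝ) (q : Q) (γ : ℝ → E (n + 1)) (c d : ℝ), c < 0 → 0 < d →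
      (∀ t ∈ Ioo c d, HasDerivAt γ (F ((a + t, q), γ t)) t) →
      ∀ t ∈ Ioo c d, γ t = Φ t (a, q) (γ 0) := by
    intro a q γ c d hc hd hγ
    refine Φu (a, q) γ c d hc hd fun t ht => ?_
    rw [hfield]
    exact hγ t ht
  have Φu'' : ∀ (a : ℝ) (q : Q) (γ : ℝ → E (n + 1)),
      (∀ t, HasDerivAt γ (F ((a + t, q), γ t)) t) → ∀ t, γ t = Φ t (a, q) (γ 0) := by
    intro a q γ hγ t
    have h1 := neg_abs_le t
    have h2 := le_abs_self t
    have h3 := abs_nonneg t
    exact Φu' a q γ (-(|t| + 1)) (|t| + 1) (by linarith) (by linarith) (fun s _ => hγ s) t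
      ⟨by linarith, by linarith⟩
  have Φadd : ∀ (a : ℝ) (q : Q) z (t s : ℝ), Φ (t + s) (a, q) z =
      Φ t (a + s, q) (Φ s (a, q) z) := by
    intro a q z t s
    have h1 := Φu'' (a + s) q (fun t => Φ (t + s) (a, q) z) (fun t => by
      have h2 := (Φd' a q z (t + s)).scomp t ((hasDerivAt_id t).add_const s)
      rw [one_smul] at h2
      have h3 : a + s + t = a + (t + s) := by ring
      rw [h3]
      exact h2) t
    simp only [zero_add] at h1
    exact h1
  have Φconst : ∀ (q : Q) (z : E (n + 1)), (∀ t, F ((t, q), z) = 0) → ∀ t, Φ t (0, q) z = z := by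
    intro q z hz t
    exact (Φu'' 0 q (fun _ => z) (fun t => by
      rw [zero_add, hz]
      exact hasDerivAt_const t z) t).symm
  -- the formula of the field at the left
  have hFleft : ∀ (t : ℝ) (q : Q) (z : E (n + 1)), py z < -1 → F ((t, q), z) =
      k ((t, (q, px z)), pv z) • ey + iv (Y ((t, (q, px z)), pv z)) := by
    intro t q z hz
    let L : E (n + 1) →L[ℝ] (ℝ × (Q × ℝ)) × E n :=
      ((0 : E (n + 1) →L[ℝ] ℝ).prod ((0 : E (n + 1) →L[ℝ] Q).prod px)).prod pv
    have h1 : (fun w => H ((t, q), w)) =ᶠ[𝓝 z] fun w => K ((t, (q, px w)), pv w) := by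
      filter_upwards [(PFam.isOpen_left 1).mem_nhds hz] with w hw
      have hw' : py w < -1 := hw
      show Real.smoothTransition (-(py w)) * K ((t, (q, px w)), pv w) = _
      rw [Real.smoothTransition.one_of_one_le (by linarith), one_mul]
    have h2 : HasFDerivAt (fun w : E (n + 1) => (((t, (q, px w)), pv w) : (ℝ × (Q × ℝ)) × E n))
        L z :=
      ((hasFDerivAt_const t z).prodMk ((hasFDerivAt_const q z).prodMk px.hasFDerivAt)).prodMk
        pv.hasFDerivAt
    have h3 : HasFDerivAt (fun w => K ((t, (q, px w)), pv w))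
        ((fderiv ℝ K ((t, (q, px z)), pv z)).comp L) z :=
      HasFDerivAt.comp (g := K) z (hKs.differentiable (by simp) _).hasFDerivAt h2
    show XH (fderiv ℝ (fun w => H ((t, q), w)) z) = _
    rw [h1.fderiv_eq, h3.fderiv]
    refine omega_left_cancel fun u => ?_
    rw [omega_XH, omega_add_left, omega_smul_left, omega_ey, omega_split (iv _)]
    simp only [px_iv, py_iv, pv_iv, zero_mul, sub_zero, zero_add]
    rw [← hKX, omega_XH]
    have h4 : fderiv ℝ (fun v => K ((t, (q, px z)), v)) (pv z) (pv u) =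
        fderiv ℝ K ((t, (q, px z)), pv z) (0, pv u) := by
      have h5 : HasFDerivAt (fun v => K ((t, (q, px z)), v))
          ((fderiv ℝ K ((t, (q, px z)), pv z)).comp
            (ContinuousLinearMap.inr ℝ (ℝ × (Q × ℝ)) (E n))) (pv z) :=
        HasFDerivAt.comp (g := K) _ (hKs.differentiable (by simp) _).hasFDerivAt
          (hasFDerivAt_prodMk_right _ _)
      rw [h5.fderiv]
      rfl
    rw [h4]
    show -(fderiv ℝ K ((t, (q, px z)), pv z) (L u)) = _
    have h6 : L u = px u • (((0 : ℝ), ((0 : Q), (1 : ℝ))), (0 : E n)) + (0, pv u) := by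
      apply Prod.ext
      · apply Prod.ext
        · show (0 : ℝ) = px u • 0 + 0
          simp
        · apply Prod.ext
          · show (0 : Q) = px u • 0 + 0
            simp
          · show px u = px u • 1 + 0
            simp
      · show pv u = px u • 0 + pv u
        simp
    rw [h6, map_add, map_smul, smul_eq_mul]
    show -(px u * k ((t, (q, px z)), pv z) + _) = _
    ring
  -- explicit solutions at the left end
  let tau : Q → ℝ → E n → ℝ → ℝ := fun q x v t =>
    ∫ s in (0 : ℝ)..t, k ((s, (q, x)), (S (s, (q, x))).map v)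
  have hform : ∀ q x v y, y ≤ -(2 + 2 * M) → ∀ t ∈ Ioo (-1 : ℝ) 2,
      Φ t (0, q) (pt x y v) = pt x (y + tau q x v t) ((S (t, (q, x))).map v) := by
    intro q x v y hy t ht
    have hkc : Continuous fun s : ℝ => k ((s, (q, x)), (S (s, (q, x))).map v) := by
      have h1 : Continuous fun s : ℝ => (S (s, (q, x))).map v := by
        have h2 : Continuous fun s : ℝ => (((s, (q, x)), v) : (ℝ × (Q × ℝ)) × E n) := by fun_prop
        exact (ContDiff.continuous hS).comp h2
      exact hks.continuous.comp (by fun_prop)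
    have hτd : ∀ t, HasDerivAt (tau q x v) (k ((t, (q, x)), (S (t, (q, x))).map v)) t := fun t =>
      (hkc.integral_hasStrictDerivAt 0 t).hasDerivAt
    have hτb : ∀ t ∈ Ioo (-1 : ℝ) 2, |tau q x v t| ≤ 2 * M := by
      intro t ht
      have h1 : ∀ s ∈ uIoc 0 t, ‖k ((s, (q, x)), (S (s, (q, x))).map v)‖ ≤ M := by
        intro s hs
        refine hM s ?_ q x _
        rw [mem_uIoc] at hs
        rcases hs with hs | hs
        · exact ⟨by linarith [hs.1], by linarith [hs.2, ht.2]⟩
        · exact ⟨by linarith [hs.1, ht.1], by linarith [hs.2]⟩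
      have h2 := intervalIntegral.norm_integral_le_of_norm_le_const h1
      rw [sub_zero] at h2
      have h3 : |t| ≤ 2 := abs_le.2 ⟨by linarith [ht.1], by linarith [ht.2]⟩
      calc |tau q x v t| ≤ M * |t| := h2
        _ ≤ M * 2 := mul_le_mul_of_nonneg_left h3 hM0
        _ = 2 * M := by ring
    have h1 := Φu' 0 q (fun t => pt x (y + tau q x v t) ((S (t, (q, x))).map v)) (-1) 2
      (by norm_num) (by norm_num) (fun s hs => ?_) t ht
    · have h2 : tau q x v 0 = 0 := intervalIntegral.integral_same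
      simp only [h2, add_zero, h0] at h1
      exact h1.symm
    · have h3 : py (pt x (y + tau q x v s) ((S (s, (q, x))).map v)) < -1 := by
        rw [py_pt]
        have := abs_le.1 (hτb s hs)
        linarith [this.2]
      rw [zero_add, hFleft _ _ _ h3, px_pt, pv_pt]
      have h4 : HasDerivAt (fun t => y + tau q x v t)
          (k ((s, (q, x)), (S (s, (q, x))).map v)) s := (hτd s).const_add y
      have h5 : HasDerivAt (fun t => iv ((S (t, (q, x))).map v))
          (iv (Y ((s, (q, x)), (S (s, (q, x))).map v))) s :=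
        iv.hasFDerivAt.comp_hasDerivAt s (hYd s (q, x) v)
      exact ((h4.smul_const (ey : E (n + 1))).const_add (x • ex)).add h5
  -- the family
  set R1 : ℝ := max (R + 2) (2 + 2 * M) with hR1
  have hR1a : R + 2 ≤ R1 := le_max_left _ _
  have hR1b : 2 + 2 * M ≤ R1 := le_max_right _ _
  let σ : ℝ → ℝ := Real.smoothTransition
  have hσ : ∀ u, σ u ∈ Ioo (-1 : ℝ) 2 := fun u =>
    ⟨by linarith [Real.smoothTransition.nonneg u], by linarith [Real.smoothTransition.le_one u]⟩
  let Ω : ℝ × Q → E (n + 1) → E (n + 1) := fun p z => Φ (σ p.1) (0, p.2) z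
  have hσs : ContDiff ℝ ∞ (fun p : (ℝ × Q) × E (n + 1) => σ p.1.1) :=
    Real.smoothTransition.contDiff.comp (contDiff_fst.comp contDiff_fst)
  have hΩs : ContDiff ℝ ∞ (fun p : (ℝ × Q) × E (n + 1) => Ω p.1 p.2) := by
    have h1 : ContDiff ℝ ∞ (fun p : (ℝ × Q) × E (n + 1) => (σ p.1.1, ((0 : ℝ), p.1.2), p.2)) :=
      hσs.prodMk ((contDiff_const.prodMk (contDiff_snd.comp contDiff_fst)).prodMk contDiff_snd)
    exact Φs.comp h1
  have hΩout : ∀ p z, Out R1 z → Ω p z = z := by
    rintro ⟨u, q⟩ z hz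
    exact Φconst q z (fun t => hF.out (t, q) z (hz.mono hR1a)) _
  have hΩsymp : ∀ p, IsSymplectomorphism (Ω p) := by
    rintro ⟨u, q⟩
    refine ⟨hΩs.comp (contDiff_const.prodMk contDiff_id),
      ⟨fun z => Φ (-(σ u)) (σ u, q) z, Φs.comp (contDiff_const.prodMk (contDiff_const.prodMk
        contDiff_id)), fun z => ?_, fun z => ?_⟩, fun z a b => ?_⟩
    · show Φ (-(σ u)) (σ u, q) (Φ (σ u) (0, q) z) = z
      have h1 := Φadd 0 q z (-(σ u)) (σ u)
      rw [neg_add_cancel, Φ0, zero_add] at h1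
      exact h1.symm
    · show Φ (σ u) (0, q) (Φ (-(σ u)) (σ u, q) z) = z
      have h1 := Φadd (σ u) q z (σ u) (-(σ u))
      rw [add_neg_cancel, Φ0] at h1
      exact h1.symm
    · have hsl : ∀ t, ContDiff ℝ ∞ (fun z => H ((t, q), z)) := fun t =>
        hHs.comp (contDiff_const.prodMk contDiff_id)
      have h1 : ContDiff ℝ ∞ (fun p : ℝ × E (n + 1) => Φ p.1 (0, q) p.2) :=
        Φs.comp (contDiff_fst.prodMk (contDiff_const.prodMk contDiff_snd))
      refine symplectic_of_flow h1 (G := fun t z => 0 + XH (fderiv ℝ (fun z => H ((t, q), z)) z))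
        (fun t => (ham_sp (hsl t) 0 z a b).1)
        (fun t z u v => (ham_sp (hsl t) 0 z u v).2) (fun z => Φ0 (0, q) z)
        (fun z t => ?_) (σ u) z a b
      have h2 := Φd' 0 q z t
      rw [zero_add] at h2
      show HasDerivAt (fun t => Φ t (0, q) z) (0 + F ((t, q), Φ t (0, q) z)) t
      rw [zero_add]
      exact h2
  have hΩform : ∀ u q z, py z ≤ -R1 → Ω (u, q) z =
      pt (px z) (py z + tau q (px z) (pv z) (σ u)) ((S (σ u, (q, px z))).map (pv z)) := by
    intro u q z hz
    have h1 := hform q (px z) (pv z) (py z) (by linarith) (σ u) (hσ u)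
    rw [pt_eta] at h1
    exact h1
  have hΩleft : ∀ p z (t : ℝ), py z ≤ -R1 → 0 ≤ t → Ω p (z - t • ey) = Ω p z - t • ey := by
    rintro ⟨u, q⟩ z t hz ht
    have e1 : py (z - t • ey) = py z - t := by simp
    have e2 : px (z - t • ey) = px z := by simp
    have e3 : pv (z - t • ey) = pv z := by simp
    rw [hΩform u q z hz, hΩform u q _ (by rw [e1]; linarith), e1, e2, e3, pt_sub]
    congr 1
    ring
  have hΩzero : ∀ q, (∀ u x, S (u, (q, x)) = 1) → ∀ u z, Ω (u, q) z = z := by
    intro q h1 u z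
    refine Φconst q z (fun t => ?_) _
    have h2 : (fun z => H ((t, q), z)) = fun _ => 0 := by
      funext w
      show Real.smoothTransition (-(py w)) * K ((t, (q, px w)), pv w) = 0
      rw [hK1 t q (px w) (pv w) rfl (fun u => h1 u _), mul_zero]
    show XH (fderiv ℝ (fun z => H ((t, q), z)) z) = 0
    rw [h2, fderiv_fun_const]
    simp
  obtain ⟨N, hN0, hN⟩ := bdd_on (G := fun p : (ℝ × Q) × E (n + 1) => py (Ω p.1 p.2) - py p.2)
    ((py.continuous.comp hΩs.continuous).sub (py.continuous.comp continuous_snd))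
    ((isCompact_Icc (a := (0 : ℝ)) (b := 1)).prod (isCompact_closedBall (0 : Q) R))
    (R := R1) (by linarith) (fun p z hz => by
      show py (Ω p z) - py z = 0
      rw [hΩout p z hz.out, sub_self])
    (fun p z t hz ht => by
      show py (Ω p (z - t • ey)) - py (z - t • ey) = py (Ω p z) - py z
      rw [hΩleft p z t hz.le ht]
      simp)
  have hmove : ∀ p z, |py (Ω p z) - py z| ≤ N := by
    rintro ⟨u, q⟩ z
    by_cases h1 : ‖q‖ ≤ R
    · have h2 : ∃ u' ∈ Icc (0 : ℝ) 1, σ u = σ u' := by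
        rcases le_total u 0 with h3 | h3
        · refine ⟨0, ⟨le_rfl, zero_le_one⟩, ?_⟩
          show Real.smoothTransition u = Real.smoothTransition 0
          rw [Real.smoothTransition.zero_of_nonpos h3, Real.smoothTransition.zero]
        · rcases le_total u 1 with h4 | h4
          · exact ⟨u, ⟨h3, h4⟩, rfl⟩
          · refine ⟨1, ⟨zero_le_one, le_rfl⟩, ?_⟩
            show Real.smoothTransition u = Real.smoothTransition 1
            rw [Real.smoothTransition.one_of_one_le h4, Real.smoothTransition.one]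
      obtain ⟨u', hu', hu⟩ := h2
      have h5 : Ω (u, q) z = Ω (u', q) z := by
        show Φ (σ u) (0, q) z = Φ (σ u') (0, q) z
        rw [hu]
      rw [h5]
      exact hN (u', q) ⟨hu', by simpa using h1⟩ z
    · rw [hΩzero q (fun u x => hq u q x (not_le.1 h1).le), sub_self, abs_zero]
      exact hN0
  refine ⟨max R1 N, Ω, by linarith [le_max_left R1 N], ⟨hΩs, hΩsymp,
    fun p z hz => hΩout p z (hz.mono (le_max_left _ _)),
    fun p z t hz ht => hΩleft p z t (by linarith [le_max_left R1 N]) ht,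
    fun p z => (hmove p z).trans (le_max_right _ _)⟩, ?_, ?_, hΩzero⟩
  · intro u q z hz
    rw [hΩform u q z (by linarith [le_max_left R1 N]), pv_pt]
  · intro u q z hu
    show Φ (Real.smoothTransition u) (0, q) z = z
    rw [Real.smoothTransition.zero_of_nonpos hu, Φ0]

end Pool.Agent.H84.PP
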