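import Pool.Agent.H84.PP.Wave
import Pool.Agent.H84.Sy.Param

/-!
# Generating Hamiltonians of isotopies with parameters
-/

set_option autoImplicit false
set_option linter.unusedSectionVars false

open Set Filter Topology Metric Function
open scoped ContDiff NNReal

noncomputable section

namespace Pool.Agent.H84.PP

open Pool.Agent.X277.Sy Pool.Agent.W585

variable {n : ℕ}

theorem contDiff_omega {X : Type*} [NormedAddCommGroup X] [NormedSpace ℝ X] {a b : X → E n}
    {m : WithTop ℕ∞} (ha : ContDiff ℝ m a) (hb : ContDiff ℝ m b) :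
    ContDiff ℝ m (fun x => omega (a x) (b x)) := by
  have hc : ∀ {c : X → E n}, ContDiff ℝ m c → ∀ q : Fin n × Fin 2, ContDiff ℝ m fun x => c x q := by
    intro c h q
    exact (EuclideanSpace.proj (𝕜 := ℝ) q).contDiff.comp h
  unfold omega
  exact ContDiff.sum fun i _ => ((hc ha _).mul (hc hb _)).sub ((hc ha _).mul (hc hb _))

theorem omega_zero_left (u : E n) : omega (0 : E n) u = 0 := by
  rw [← om_apply, map_zero, LinearMap.zero_apply]

theorem omega_zero_right (u : E n) : omega u (0 : E n) = 0 := by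
  rw [← om_apply, map_zero]

theorem omega_smul_left (c : ℝ) (u v : E n) : omega (c • u) v = c * omega u v := by
  rw [← om_apply, map_smul, LinearMap.smul_apply, smul_eq_mul, om_apply]

theorem omega_add_left (u w v : E n) : omega (u + w) v = omega u v + omega w v := by
  rw [← om_apply, map_add, LinearMap.add_apply, om_apply, om_apply]

theorem isPreconnected_far (hn : 0 < n) {R : ℝ} (hR : 0 ≤ R) :
    IsPreconnected {v : E n | R < ‖v‖} := by
  have hrank : 1 < Module.rank ℝ (E n) := by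
    rw [← Module.finrank_eq_rank, finrank_euclideanSpace]
    simp only [Fintype.card_prod, Fintype.card_fin]
    exact_mod_cast (by omega : 1 < n * 2)
  have h1 : IsPreconnected (sphere (0 : E n) 1 ×ˢ Ioi R) :=
    (isPreconnected_sphere hrank 0 1).prod isPreconnected_Ioi
  have h2 : {v : E n | R < ‖v‖} = (fun p : E n × ℝ => p.2 • p.1) '' (sphere (0 : E n) 1 ×ˢ Ioi R) := by
    ext v
    constructor
    · intro hv
      have hv' : R < ‖v‖ := hv
      have hv0 : 0 < ‖v‖ := lt_of_le_of_lt hR hv'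
      refine ⟨(‖v‖⁻¹ • v, ‖v‖), ⟨?_, hv'⟩, ?_⟩
      · rw [mem_sphere_zero_iff_norm, norm_smul, norm_inv, norm_norm, inv_mul_cancel₀ hv0.ne']
      · show ‖v‖ • ‖v‖⁻¹ • v = v
        rw [smul_smul, mul_inv_cancel₀ hv0.ne', one_smul]
    · rintro ⟨⟨s, r⟩, ⟨hs, hr⟩, rfl⟩
      have hr' : R < r := hr
      show R < ‖r • s‖
      have h3 : ‖s‖ = 1 := mem_sphere_zero_iff_norm.1 hs
      rw [norm_smul, h3, mul_one, Real.norm_eq_abs, abs_of_pos (lt_of_le_of_lt hR hr')]
      exact hr'
  rw [h2]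
  exact h1.image _ (by fun_prop)

/-- **Generating Hamiltonians.** -/
theorem exists_ham (hn : 0 < n) {P : Type} [NormedAddCommGroup P] [NormedSpace ℝ P]
    [FiniteDimensional ℝ P] {Y : P × E n → E n} (hY : ContDiff ℝ ∞ Y)
    (hsp : ∀ p v a b, omega (fderiv ℝ (fun v => Y (p, v)) v a) b +
      omega a (fderiv ℝ (fun v => Y (p, v)) v b) = 0)
    {R : ℝ} (hR : 0 ≤ R) (hsupp : ∀ p v, R < ‖v‖ → Y (p, v) = 0) :
    ∃ K : P × E n → ℝ, ContDiff ℝ ∞ K ∧
      (∀ p v, XH (fderiv ℝ (fun v => K (p, v)) v) = Y (p, v)) ∧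
      (∀ p v, R < ‖v‖ → K (p, v) = 0) ∧ ∀ p, (∀ v, Y (p, v) = 0) → ∀ v, K (p, v) = 0 := by
  obtain ⟨e, he⟩ := PFam.exists_ne hn
  let F : P × E n → ℝ → ℝ := fun q t => -omega (Y (q.1, t • q.2)) q.2
  have hF : ContDiff ℝ ∞ (fun r : (P × E n) × ℝ => F r.1 r.2) := by
    have h1 : ContDiff ℝ ∞ (fun r : (P × E n) × ℝ => (r.1.1, r.2 • r.1.2)) :=
      (contDiff_fst.comp contDiff_fst).prodMk (contDiff_snd.smul (contDiff_snd.comp contDiff_fst))
    exact (contDiff_omega (hY.comp h1) (contDiff_snd.comp contDiff_fst)).neg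
  let K0 : P × E n → ℝ := fun q => ∫ t in (0 : ℝ)..1, F q t
  have hK0 : ContDiff ℝ ∞ K0 := contDiff_param hF 0 1
  have hYd : ∀ p v, HasFDerivAt (fun v => Y (p, v)) (fderiv ℝ (fun v => Y (p, v)) v) v :=
    fun p v => (fderiv_slice hY p v).differentiableAt.hasFDerivAt
  have hYc : ∀ p, Continuous (fun v => Y (p, v)) := fun p =>
    hY.continuous.comp (by fun_prop)
  have hYDc : ∀ p, Continuous (fderiv ℝ (fun v => Y (p, v))) := fun p =>
    ContDiff.continuous_fderiv (n := ∞) (hY.comp (contDiff_const.prodMk contDiff_id)) (by simp)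
  -- the derivative of `K0`
  have hder : ∀ p v u, fderiv ℝ (fun v => K0 (p, v)) v u = -omega (Y (p, v)) u := by
    intro p v u
    have hF1 : ContDiff ℝ 1 (fun r : E n × ℝ => F (p, r.1) r.2) := by
      have h1 : ContDiff ℝ ∞ (fun r : E n × ℝ => ((p, r.1), r.2)) :=
        (contDiff_const.prodMk contDiff_fst).prodMk contDiff_snd
      exact (hF.comp h1).of_le (by exact_mod_cast le_top)
    have h1 := fderiv_param_apply (F := fun v t => F (p, v) t) hF1 0 1 v u
    have h2 : (fun v => K0 (p, v)) = fun v => ∫ t in (0 : ℝ)..1, F (p, v) t := rfl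
    rw [h2, h1]
    have hline : HasDerivAt (fun s : ℝ => v + s • u) u 0 := by
      have := ((hasDerivAt_id (0 : ℝ)).smul_const u).const_add v
      simpa using this
    have h3 : ∀ t : ℝ, fderiv ℝ (fun v => F (p, v) t) v u =
        -(t * omega (fderiv ℝ (fun v => Y (p, v)) (t • v) v) u + omega (Y (p, t • v)) u) := by
      intro t
      have h4 : DifferentiableAt ℝ (fun v => F (p, v) t) v := by
        have h5 : ContDiff ℝ 1 (fun v : E n => F (p, v) t) :=
          hF1.comp (contDiff_id.prodMk contDiff_const)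
        exact h5.differentiable one_ne_zero v
      have h6 : HasDerivAt (fun s : ℝ => F (p, v + s • u) t)
          (fderiv ℝ (fun v => F (p, v) t) v u) 0 := by
        have h7 : HasFDerivAt (fun v => F (p, v) t) (fderiv ℝ (fun v => F (p, v) t) v)
            (v + (0 : ℝ) • u) := by
          rw [zero_smul, add_zero]
          exact h4.hasFDerivAt
        exact h7.comp_hasDerivAt (0 : ℝ) hline
      have h8 : HasDerivAt (fun s : ℝ => Y (p, t • (v + s • u)))
          (fderiv ℝ (fun v => Y (p, v)) (t • v) (t • u)) 0 := by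
        have h9 : HasFDerivAt (fun v => Y (p, v)) (fderiv ℝ (fun v => Y (p, v)) (t • v))
            (t • (v + (0 : ℝ) • u)) := by
          rw [zero_smul, add_zero]
          exact hYd p (t • v)
        exact h9.comp_hasDerivAt (0 : ℝ) (hline.const_smul t)
      have h10 := (hasDerivAt_omega h8 hline).neg
      have h11 := h6.unique h10
      rw [h11, zero_smul, add_zero]
      have h12 := hsp p (t • v) (t • u) v
      have h13 : omega (fderiv ℝ (fun v => Y (p, v)) (t • v) (t • u)) v =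
          t * omega (fderiv ℝ (fun v => Y (p, v)) (t • v) v) u := by
        rw [omega_swap (t • u), ← omega_swap] at h12
        rw [omega_smul_left] at h12
        have h14 := omega_swap u (fderiv ℝ (fun v => Y (p, v)) (t • v) v)
        rw [h14] at h12
        linarith
      rw [h13]
    simp only [h3]
    have h5 : ∀ t ∈ uIcc (0 : ℝ) 1, HasDerivAt (fun t : ℝ => -(t * omega (Y (p, t • v)) u))
        (-(t * omega (fderiv ℝ (fun v => Y (p, v)) (t • v) v) u + omega (Y (p, t • v)) u)) t := by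
      intro t _
      have h6 : HasDerivAt (fun t : ℝ => Y (p, t • v)) (fderiv ℝ (fun v => Y (p, v)) (t • v) v) t := by
        have h7 := (hasDerivAt_id t).smul_const v
        rw [one_smul] at h7
        exact (hYd p (t • v)).comp_hasDerivAt t h7
      have h8 := ((hasDerivAt_id t).mul (hasDerivAt_omega h6 (hasDerivAt_const t u))).neg
      refine h8.congr_deriv ?_
      rw [omega_zero_right]
      simp only [id]
      ring
    have hcont : Continuous fun t : ℝ =>
        -(t * omega (fderiv ℝ (fun v => Y (p, v)) (t • v) v) u + omega (Y (p, t • v)) u) := by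
      have hom : ∀ {a : ℝ → E n}, Continuous a → Continuous fun t => omega (a t) u := by
        intro a ha
        have h9 : ContDiff ℝ 0 (fun w : E n => omega w u) := contDiff_omega contDiff_id contDiff_const
        exact h9.continuous.comp ha
      have h10 : Continuous fun t : ℝ => fderiv ℝ (fun v => Y (p, v)) (t • v) v :=
        ((hYDc p).comp (by fun_prop : Continuous fun t : ℝ => t • v)).clm_apply continuous_const
      have h11 : Continuous fun t : ℝ => Y (p, t • v) :=
        (hYc p).comp (by fun_prop : Continuous fun t : ℝ => t • v)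
      exact ((continuous_id.mul (hom h10)).add (hom h11)).neg
    rw [intervalIntegral.integral_eq_sub_of_hasDerivAt h5 (hcont.intervalIntegrable _ _)]
    simp
  have hXH0 : ∀ p v, XH (fderiv ℝ (fun v => K0 (p, v)) v) = Y (p, v) := by
    intro p v
    refine omega_left_cancel fun u => ?_
    rw [omega_XH, hder, neg_neg]
  set w : E n := (R + 1) • e with hw
  have hwn : R < ‖w‖ := by
    rw [hw, norm_smul, he, mul_one, Real.norm_eq_abs, abs_of_pos (by linarith)]
    linarith
  have hslice : ∀ p, Differentiable ℝ (fun v => K0 (p, v)) := fun p =>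
    ContDiff.differentiable (n := ∞) (hK0.comp (contDiff_const.prodMk contDiff_id)) (by simp)
  refine ⟨fun q => K0 q - K0 (q.1, w), ?_, ?_, ?_, ?_⟩
  · exact hK0.sub (hK0.comp (contDiff_fst.prodMk contDiff_const))
  · intro p v
    have h1 : fderiv ℝ (fun v => K0 (p, v) - K0 (p, w)) v = fderiv ℝ (fun v => K0 (p, v)) v :=
      fderiv_sub_const _
    show XH (fderiv ℝ (fun v => K0 (p, v) - K0 (p, w)) v) = Y (p, v)
    rw [h1, hXH0]
  · intro p v hv
    show K0 (p, v) - K0 (p, w) = 0
    rw [sub_eq_zero]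
    refine (isOpen_lt continuous_const continuous_norm).is_const_of_fderiv_eq_zero (𝕜 := ℝ)
      (f := fun v => K0 (p, v)) (isPreconnected_far hn hR) ((hslice p).differentiableOn) ?_ hv hwn
    intro z hz
    ext u
    rw [hder, hsupp p z hz, omega_zero_left]
    simp
  · intro p hp v
    have h1 : ∀ v, K0 (p, v) = 0 := by
      intro v
      show (∫ t in (0 : ℝ)..1, -omega (Y (p, t • v)) v) = 0
      simp [hp, omega_zero_left]
    show K0 (p, v) - K0 (p, w) = 0
    rw [h1, h1, sub_zero]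

/-- the variational equation of a flow -/
theorem deriv_fderiv_flow {m : ℕ} {Ψ : ℝ × E m → E m} (hΨ : ContDiff ℝ ∞ Ψ)
    {G : ℝ → E m → E m} (hG : ∀ t, Differentiable ℝ (G t))
    (hd : ∀ z t, HasDerivAt (fun t => Ψ (t, z)) (G t (Ψ (t, z))) t) (t : ℝ) (z u : E m) :
    HasDerivAt (fun t => fderiv ℝ Ψ (t, z) (0, u))
      (fderiv ℝ (G t) (Ψ (t, z)) (fderiv ℝ Ψ (t, z) (0, u))) t := by
  have hDs : ContDiff ℝ ∞ (fderiv ℝ Ψ) := hΨ.fderiv_right (m := ∞) (by simp)
  have hD : ∀ q, HasFDerivAt (fderiv ℝ Ψ) (fderiv ℝ (fderiv ℝ Ψ) q) q := fun q =>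
    (hDs.differentiable (by simp) q).hasFDerivAt
  have e2 : ∀ t z, fderiv ℝ Ψ (t, z) (1, 0) = G t (Ψ (t, z)) := by
    intro t z
    have h1 : HasDerivAt (fun t => Ψ (t, z)) (fderiv ℝ Ψ (t, z) (1, 0)) t := by
      have h2 : HasDerivAt (fun t : ℝ => ((t, z) : ℝ × E m)) (1, 0) t :=
        (hasDerivAt_id t).prodMk (hasDerivAt_const t z)
      exact (hΨ.differentiable (by simp) (t, z)).hasFDerivAt.comp_hasDerivAt t h2
    exact h1.unique (hd z t)
  have e3 : fderiv ℝ (fderiv ℝ Ψ) (t, z) (1, 0) (0, u) =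
      fderiv ℝ (G t) (Ψ (t, z)) (fderiv ℝ Ψ (t, z) (0, u)) := by
    have hsymm : IsSymmSndFDerivAt ℝ Ψ (t, z) :=
      hΨ.contDiffAt.isSymmSndFDerivAt two_le_infty
    rw [hsymm.eq]
    have h1 : HasFDerivAt (fun z => fderiv ℝ Ψ (t, z) (1, 0))
        (((fderiv ℝ (fderiv ℝ Ψ) (t, z)).comp (ContinuousLinearMap.inr ℝ ℝ (E m))).flip (1, 0))
        z := by
      have h2 : HasFDerivAt (fun z => fderiv ℝ Ψ (t, z))
          ((fderiv ℝ (fderiv ℝ Ψ) (t, z)).comp (ContinuousLinearMap.inr ℝ ℝ (E m))) z :=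
        HasFDerivAt.comp z (hD (t, z)) (hasFDerivAt_prodMk_right t z)
      have h3 := h2.clm_apply (hasFDerivAt_const ((1, 0) : ℝ × E m) z)
      refine h3.congr_fderiv ?_
      ext w
      simp
    have h4 : HasFDerivAt (fun z => G t (Ψ (t, z)))
        ((fderiv ℝ (G t) (Ψ (t, z))).comp
          ((fderiv ℝ Ψ (t, z)).comp (ContinuousLinearMap.inr ℝ ℝ (E m)))) z :=
      HasFDerivAt.comp z (hG t (Ψ (t, z))).hasFDerivAt (fderiv_slice hΨ t z)
    have h5 : (fun z => fderiv ℝ Ψ (t, z) (1, 0)) = fun z => G t (Ψ (t, z)) := by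
      funext z
      exact e2 t z
    rw [h5] at h1
    exact DFunLike.congr_fun (h1.unique h4) u
  have h1 : HasDerivAt (fun t : ℝ => fderiv ℝ Ψ (t, z)) (fderiv ℝ (fderiv ℝ Ψ) (t, z) (1, 0)) t := by
    have h2 : HasDerivAt (fun t : ℝ => ((t, z) : ℝ × E m)) (1, 0) t :=
      (hasDerivAt_id t).prodMk (hasDerivAt_const t z)
    exact (hD (t, z)).comp_hasDerivAt t h2
  have h3 := h1.clm_apply (hasDerivAt_const t ((0, u) : ℝ × E m))
  rw [← e3]
  refine h3.congr_deriv ?_
  simp

/-- **The velocity field of an isotopy with parameters.** -/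
theorem exists_velocity {r : Type} [NormedAddCommGroup r] [NormedSpace ℝ r]
    [CompleteSpace r] {S : ℝ × r → SympCt n} (hS : IsSmoothFamily S) :
    ∃ Y : (ℝ × r) × E n → E n, ContDiff ℝ ∞ Y ∧
      (∀ u q v, HasDerivAt (fun u => (S (u, q)).map v) (Y ((u, q), (S (u, q)).map v)) u) ∧
      (∀ p v a b, omega (fderiv ℝ (fun v => Y (p, v)) v a) b +
        omega a (fderiv ℝ (fun v => Y (p, v)) v b) = 0) ∧
      (∀ q v, (∀ u, (S (u, q)).map v = v) → ∀ u, Y ((u, q), v) = 0) := by
  have hSi : IsSmoothFamily (fun p => (S p)⁻¹) := hS.inv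
  let Sm : (ℝ × r) × E n → E n := fun p => (S p.1).map p.2
  let Si : (ℝ × r) × E n → E n := fun p => (S p.1)⁻¹.map p.2
  have hSm : ContDiff ℝ ∞ Sm := hS
  have hSi' : ContDiff ℝ ∞ Si := hSi
  let Y : (ℝ × r) × E n → E n := fun p => fderiv ℝ Sm (p.1, Si p) (((1 : ℝ), (0 : r)), (0 : E n))
  have hYs : ContDiff ℝ ∞ Y := by
    have h1 : ContDiff ℝ ∞ (fderiv ℝ Sm) := hSm.fderiv_right (m := ∞) (by simp)
    exact (h1.comp (contDiff_fst.prodMk hSi')).clm_apply contDiff_const
  have hYd : ∀ u q v, HasDerivAt (fun u => (S (u, q)).map v) (Y ((u, q), (S (u, q)).map v)) u := by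
    intro u q v
    have h1 : HasDerivAt (fun u : ℝ => (((u, q), v) : (ℝ × r) × E n)) ((1, 0), 0) u :=
      ((hasDerivAt_id u).prodMk (hasDerivAt_const u q)).prodMk (hasDerivAt_const u v)
    have h2 := (hSm.differentiable (by simp) ((u, q), v)).hasFDerivAt.comp_hasDerivAt u h1
    have h3 : Si ((u, q), (S (u, q)).map v) = v := inv_map_map _ _
    show HasDerivAt _ (fderiv ℝ Sm ((u, q), Si ((u, q), (S (u, q)).map v)) ((1, 0), 0)) u
    rw [h3]
    exact h2
  refine ⟨Y, hYs, hYd, ?_, ?_⟩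
  · rintro ⟨u, q⟩ w a b
    let Ψ : ℝ × E n → E n := fun p => (S (p.1, q)).map p.2
    have hΨ : ContDiff ℝ ∞ Ψ := by
      have h1 : ContDiff ℝ ∞ (fun p : ℝ × E n => ((p.1, q), p.2)) :=
        (contDiff_fst.prodMk contDiff_const).prodMk contDiff_snd
      exact hSm.comp h1
    have hG : ∀ t, Differentiable ℝ (fun v => Y ((t, q), v)) := fun t =>
      ContDiff.differentiable (n := ∞) (hYs.comp (contDiff_const.prodMk contDiff_id)) (by simp)
    obtain ⟨v, rfl⟩ : ∃ v, (S (u, q)).map v = w := ⟨(S (u, q))⁻¹.map w, map_inv_map _ _⟩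
    have e1 : ∀ t z c, fderiv ℝ (fun z => Ψ (t, z)) z c = fderiv ℝ Ψ (t, z) (0, c) := by
      intro t z c
      rw [(fderiv_slice hΨ t z).fderiv]
      rfl
    have hT : ∀ t a b, omega (fderiv ℝ Ψ (t, v) (0, a)) (fderiv ℝ Ψ (t, v) (0, b)) = omega a b := by
      intro t a b
      rw [← e1, ← e1]
      exact (S (t, q)).isSymp.symplectic v a b
    have hinj : Injective (fderiv ℝ (fun z => Ψ (u, z)) v) :=
      Pool.Agent.X277.Sy.fderiv_inj (S (u, q)) v
    have hsurj : Surjective (fderiv ℝ (fun z => Ψ (u, z)) v) :=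
      (LinearMap.injective_iff_surjective
        (f := (fderiv ℝ (fun z => Ψ (u, z)) v : E n →ₗ[ℝ] E n))).1 hinj
    obtain ⟨a', ha'⟩ := hsurj a
    obtain ⟨b', hb'⟩ := hsurj b
    rw [e1] at ha' hb'
    have h1 := deriv_fderiv_flow hΨ hG (fun z t => hYd t q z) u v a'
    have h2 := deriv_fderiv_flow hΨ hG (fun z t => hYd t q z) u v b'
    have h3 := hasDerivAt_omega h1 h2
    have h4 : (fun t => omega (fderiv ℝ Ψ (t, v) (0, a')) (fderiv ℝ Ψ (t, v) (0, b'))) =
        fun _ => omega a' b' := funext fun t => hT t a' b'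
    rw [h4] at h3
    have h5 := h3.unique (hasDerivAt_const u (omega a' b'))
    rw [ha', hb'] at h5
    exact h5
  · intro q v hv u
    have h1 := hYd u q v
    have h2 : (fun u => (S (u, q)).map v) = fun _ => v := funext hv
    rw [h2, hv u] at h1
    exact h1.unique (hasDerivAt_const u v)

end Pool.Agent.H84.PP
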