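import Pool.Agent.H84.PP.Symp

/-!
# Families of symplectic pseudo-isotopies
-/

set_option autoImplicit false
set_option linter.unusedSectionVars false

open Set Filter Topology Metric Function
open scoped ContDiff NNReal

noncomputable section

namespace Pool.Agent.H84.PP

open Pool.Agent.X277.Sy

/-! ### Local criterion for compactly supported symplectomorphisms -/

theorem mkSymp {n : ℕ} (hn : 0 < n) {θ : E n → E n} (hθ : ContDiff ℝ ∞ θ)
    (hsy : ∀ x u v, omega (fderiv ℝ θ x u) (fderiv ℝ θ x v) = omega u v)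
    {K : Set (E n)} (hK : IsCompact K) (hfix : ∀ x, x ∉ K → θ x = x) : IsSymplectomorphism θ := by
  have hinj : ∀ x, Injective (fderiv ℝ θ x) := fun x =>
    (injective_iff_map_eq_zero _).2 fun _ hu => symp_inj (hsy x) hu
  let L : E n → (E n ≃L[ℝ] E n) := fun x =>
    (LinearEquiv.ofInjectiveEndo (fderiv ℝ θ x : E n →ₗ[ℝ] E n) (hinj x)).toContinuousLinearEquiv
  have hL : ∀ x, HasFDerivAt θ ((L x : E n ≃L[ℝ] E n) : E n →L[ℝ] E n) x := by
    intro x
    refine ((hθ.differentiable (by simp) x).hasFDerivAt).congr_fderiv ?_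
    ext v
    rfl
  have hstrict : ∀ x, HasStrictFDerivAt θ ((L x : E n ≃L[ℝ] E n) : E n →L[ℝ] E n) x := fun x =>
    hθ.contDiffAt.hasStrictFDerivAt' (hL x) (by simp)
  have hopen : IsOpenMap θ := isOpenMap_of_hasStrictFDerivAt_equiv hstrict
  have : Nonempty (Fin n × Fin 2) := ⟨(⟨0, hn⟩, 0)⟩
  have : NoncompactSpace (E n) := NormedSpace.noncompactSpace ℝ (E n)
  have hb : Bijective θ := bijective_of_local hθ.continuous hopen (fun x =>
    ⟨((hstrict x).toOpenPartialHomeomorph θ).source,
      ((hstrict x).toOpenPartialHomeomorph θ).open_source,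
      (hstrict x).mem_toOpenPartialHomeomorph_source,
      ((hstrict x).toOpenPartialHomeomorph θ).injOn⟩) hK hfix
  let a : E n ≃ₜ E n := (Equiv.ofBijective _ hb).toHomeomorphOfContinuousOpen hθ.continuous hopen
  have ha : ContDiff ℝ ∞ a.symm := Homeomorph.contDiff_symm a (f₀' := L) hL hθ
  exact ⟨hθ, ⟨a.symm, ha, fun x => a.symm_apply_apply x, fun x => a.apply_symm_apply x⟩, hsy⟩

variable {n : ℕ} {Q : Type} [NormedAddCommGroup Q] [NormedSpace ℝ Q]

/-- `Ω` is a smooth family of symplectic pseudo-isotopies, with the constant `R`. -/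
structure PFam (R : ℝ) (Ω : Q → E (n + 1) → E (n + 1)) : Prop where
  smooth : ContDiff ℝ ∞ (fun p : Q × E (n + 1) => Ω p.1 p.2)
  symp : ∀ q, IsSymplectomorphism (Ω q)
  out : ∀ q z, Out R z → Ω q z = z
  left : ∀ q z (t : ℝ), py z ≤ -R → 0 ≤ t → Ω q (z - t • ey) = Ω q z - t • ey
  move : ∀ q z, |py (Ω q z) - py z| ≤ R

namespace PFam

variable {R : ℝ} {Ω : Q → E (n + 1) → E (n + 1)}

theorem mono {S : ℝ} (h : PFam R Ω) (hRS : R ≤ S) : PFam S Ω where
  smooth := h.smooth
  symp := h.symp
  out q z hz := h.out q z (hz.mono hRS)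
  left q z t hz ht := h.left q z t (by linarith) ht
  move q z := (h.move q z).trans hRS

theorem comp {Q' : Type} [NormedAddCommGroup Q'] [NormedSpace ℝ Q'] (h : PFam R Ω) {f : Q' → Q}
    (hf : ContDiff ℝ ∞ f) : PFam R (fun q => Ω (f q)) where
  smooth := h.smooth.comp ((hf.comp contDiff_fst).prodMk contDiff_snd)
  symp q := h.symp (f q)
  out q z hz := h.out (f q) z hz
  left q z t hz ht := h.left (f q) z t hz ht
  move q z := h.move (f q) z

theorem mul {Ω' : Q → E (n + 1) → E (n + 1)} (hR : 0 ≤ R) (h : PFam R Ω) (h' : PFam R Ω') :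
    PFam (2 * R) (fun q z => Ω q (Ω' q z)) where
  smooth := h.smooth.comp (contDiff_fst.prodMk h'.smooth)
  symp q := (h.symp q).comp (h'.symp q)
  out q z hz := by
    have hz' : Out R z := hz.mono (by linarith)
    rw [h'.out q z hz', h.out q z hz']
  left q z t hz ht := by
    rw [h'.left q z t (by linarith) ht, h.left q _ t ?_ ht]
    have := abs_le.1 (h'.move q z)
    linarith [this.2]
  move q z := by
    have h1 := h.move q (Ω' q z)
    have h2 := h'.move q z
    calc |py (Ω q (Ω' q z)) - py z| =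
          |(py (Ω q (Ω' q z)) - py (Ω' q z)) + (py (Ω' q z) - py z)| := by ring_nf
      _ ≤ _ := (abs_add_le _ _).trans (by linarith)

theorem fderiv_inj (h : PFam R Ω) (q : Q) (z : E (n + 1)) : Injective (fderiv ℝ (Ω q) z) :=
  (injective_iff_map_eq_zero _).2 fun _ hu => symp_inj ((h.symp q).symplectic z) hu

theorem hasFDerivAt (h : PFam R Ω) (q : Q) (z : E (n + 1)) :
    HasFDerivAt (Ω q) (fderiv ℝ (Ω q) z) z :=
  ((h.symp q).smooth.differentiable (by simp) z).hasFDerivAt

theorem inverse_fam [CompleteSpace Q] (hR : 0 ≤ R) (h : PFam R Ω)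
    {χ : Q → E (n + 1) → E (n + 1)} (h1 : ∀ q z, χ q (Ω q z) = z) (h2 : ∀ q z, Ω q (χ q z) = z) :
    PFam (2 * R) χ where
  smooth := by
    refine joint_inverse h.smooth (fun q x => (LinearEquiv.ofInjectiveEndo
      (fderiv ℝ (Ω q) x : E (n + 1) →ₗ[ℝ] E (n + 1)) (h.fderiv_inj q x)).toContinuousLinearEquiv)
      ?_ h1 h2
    intro q x
    refine (h.hasFDerivAt q x).congr_fderiv ?_
    ext v
    rfl
  symp q := by
    obtain ⟨χ', a1, a2, a3⟩ := (h.symp q).inverse
    have e : χ' = χ q := by
      funext z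
      have := a2 (χ q z)
      rwa [h2] at this
    rw [← e]
    exact (h.symp q).of_inverse a1 a2 a3
  out q z hz := by
    have := h1 q z
    rwa [h.out q z (hz.mono (by linarith))] at this
  left q z t hz ht := by
    have hm := abs_le.1 (h.move q (χ q z))
    rw [h2] at hm
    have h3 := h.left q (χ q z) t (by linarith [hm.1]) ht
    rw [h2] at h3
    rw [← h3, h1]
  move q z := by
    have hm := h.move q (χ q z)
    rw [h2] at hm
    rw [abs_sub_comm]
    linarith

theorem exists_inv [CompleteSpace Q] (hR : 0 ≤ R) (h : PFam R Ω) :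
    ∃ χ : Q → E (n + 1) → E (n + 1), (∀ q z, χ q (Ω q z) = z) ∧ (∀ q z, Ω q (χ q z) = z) ∧
      PFam (2 * R) χ := by
  choose χ h1 h2 h3 using fun q => (h.symp q).inverse
  exact ⟨χ, fun q z => h2 q z, fun q z => h3 q z,
    h.inverse_fam hR (fun q z => h2 q z) fun q z => h3 q z⟩

/-! ### The left end -/

theorem shift (h : PFam R Ω) {q : Q} {z : E (n + 1)} {t : ℝ} (h1 : py z ≤ -R)
    (h2 : py z + t ≤ -R) : Ω q (z + t • ey) = Ω q z + t • ey := by
  rcases le_total 0 t with ht | ht
  · have h3 := h.left q (z + t • ey) t (by simpa using h2) ht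
    rw [add_sub_cancel_right] at h3
    rw [h3, sub_add_cancel]
  · have h3 := h.left q z (-t) h1 (by linarith)
    rw [neg_smul, sub_neg_eq_add, sub_neg_eq_add] at h3
    exact h3

theorem fderiv_ey (h : PFam R Ω) {q : Q} {z : E (n + 1)} (hz : py z < -R) :
    fderiv ℝ (Ω q) z ey = ey := by
  have h1 : HasDerivAt (fun t : ℝ => z + t • (ey : E (n + 1))) ey 0 := by
    have := ((hasDerivAt_id (0 : ℝ)).smul_const (ey : E (n + 1))).const_add z
    simpa using this
  have h2 : HasDerivAt (fun t : ℝ => Ω q (z + t • ey)) (fderiv ℝ (Ω q) z ey) 0 := by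
    have h3 := h.hasFDerivAt q (z + (0 : ℝ) • ey)
    have h4 := h3.comp_hasDerivAt (0 : ℝ) h1
    simp only [zero_smul, add_zero] at h4
    exact h4
  have h5 : HasDerivAt (fun t : ℝ => Ω q z + t • (ey : E (n + 1))) ey 0 := by
    have := ((hasDerivAt_id (0 : ℝ)).smul_const (ey : E (n + 1))).const_add (Ω q z)
    simpa using this
  have h6 : (fun t : ℝ => Ω q (z + t • ey)) =ᶠ[𝓝 0] fun t => Ω q z + t • ey := by
    have h7 : ∀ᶠ t : ℝ in 𝓝 0, py z + t < -R := by
      have h8 : Continuous fun t : ℝ => py z + t := by fun_prop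
      exact (isOpen_lt h8 continuous_const).mem_nhds (by simpa using hz)
    filter_upwards [h7] with t ht
    exact h.shift hz.le ht.le
  exact h2.unique (h5.congr_of_eventuallyEq h6)

theorem px_fderiv (h : PFam R Ω) {q : Q} {z : E (n + 1)} (hz : py z < -R) (u : E (n + 1)) :
    px (fderiv ℝ (Ω q) z u) = px u := by
  have h1 := (h.symp q).symplectic z ey u
  rw [h.fderiv_ey hz, omega_ey, omega_ey] at h1
  linarith

theorem isOpen_left (R : ℝ) : IsOpen {z : E (n + 1) | py z < -R} :=
  isOpen_lt py.continuous continuous_const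

theorem convex_left (R : ℝ) : Convex ℝ {z : E (n + 1) | py z < -R} :=
  convex_halfSpace_lt py.isLinear _

/-- functions with zero derivative in the left region -/
theorem const_left {g : E (n + 1) → ℝ}
    (hg : ∀ z : E (n + 1), py z < -R → HasFDerivAt g (0 : E (n + 1) →L[ℝ] ℝ) z)
    {z w : E (n + 1)} (hz : py z < -R) (hw : py w < -R) : g z = g w := by
  refine (isOpen_left R).is_const_of_fderiv_eq_zero (𝕜 := ℝ) (convex_left R).isPreconnected
    (fun z hz => (hg z hz).differentiableAt.differentiableWithinAt)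
    (fun z hz => (hg z hz).fderiv) hz hw

theorem px_left (h : PFam R Ω) {q : Q} {z : E (n + 1)} (hz : py z ≤ -R) :
    px (Ω q z) = px z := by
  have key : ∀ z : E (n + 1), py z < -R → px (Ω q z) = px z := by
    intro z hz
    have h1 : ∀ w : E (n + 1), py w < -R →
        HasFDerivAt (fun w : E (n + 1) => px (Ω q w) - px w) (0 : E (n + 1) →L[ℝ] ℝ) w := by
      intro w hw
      have h2 := (px.hasFDerivAt.comp w (h.hasFDerivAt q w)).sub (px.hasFDerivAt (x := w))
      refine h2.congr_fderiv ?_
      ext u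
      simp only [sub_apply, ContinuousLinearMap.comp_apply,
        zero_apply]
      rw [h.px_fderiv hw, sub_self]
    have h3 := const_left h1 hz (w := pt (|R| + 1) (-R - 1) 0) (by simp)
    rw [h.out q (pt (|R| + 1) (-R - 1) 0) (Or.inr (Or.inl (by
      rw [px_pt, abs_of_pos (by positivity)]
      linarith [le_abs_self R])))] at h3
    linarith
  have h4 := key (z - (1 : ℝ) • ey) (by
    simp only [map_sub, map_smul, py_ey, smul_eq_mul, mul_one]
    linarith)
  rw [h.left q z 1 hz zero_le_one] at h4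
  simpa using h4

/-- the other coordinates do not depend on `y_1` in the left region -/
theorem pv_left (h : PFam R Ω) {q : Q} {z w : E (n + 1)} (hz : py z ≤ -R) (hw : py w ≤ -R)
    (h1 : px z = px w) (h2 : pv z = pv w) : pv (Ω q z) = pv (Ω q w) := by
  have h3 : w = z + (py w - py z) • ey := ext3 (by simp [h1]) (by simp) (by simp [h2])
  rw [h3, h.shift hz (by linarith)]
  simp

/-- the maps at the left end are symplectomorphisms -/
theorem left_symp (h : PFam R Ω) (q : Q) (x : ℝ) (v a b : E n) :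
    omega (fderiv ℝ (fun v => pv (Ω q (pt x (-R - 1) v))) v a)
      (fderiv ℝ (fun v => pv (Ω q (pt x (-R - 1) v))) v b) = omega a b := by
  have h1 : HasFDerivAt (fun v : E n => pt x (-R - 1) v) iv v := by
    unfold pt
    exact iv.hasFDerivAt.const_add _
  have h2 : HasFDerivAt (fun v => pv (Ω q (pt x (-R - 1) v)))
      (pv.comp ((fderiv ℝ (Ω q) (pt x (-R - 1) v)).comp iv)) v :=
    pv.hasFDerivAt.comp v ((h.hasFDerivAt q _).comp v h1)
  rw [h2.fderiv]
  simp only [ContinuousLinearMap.comp_apply]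
  have h3 := (h.symp q).symplectic (pt x (-R - 1) v) (iv a) (iv b)
  have hy : py (pt x (-R - 1) v) < -R := by
    rw [py_pt]
    linarith
  rw [omega_split (fderiv ℝ (Ω q) (pt x (-R - 1) v) (iv a)), h.px_fderiv hy, h.px_fderiv hy,
    omega_split (iv a)] at h3
  simpa using h3

/-- **The left end** of a family of symplectic pseudo-isotopies of `ℝ^{2n+2}` is a family of loops
in the group of the compactly supported symplectomorphisms of `ℝ^{2n}`. -/
theorem exists_left (hn : 0 < n) (h : PFam R Ω) :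
    ∃ S : Q × ℝ → SympCt n, IsSmoothFamily S ∧
      (∀ q z, py z ≤ -R → pv (Ω q z) = (S (q, px z)).map (pv z)) ∧
      (∀ q x, R ≤ |x| → S (q, x) = 1) ∧ (∀ p, SupportedIn (closedBall 0 R) (S p).map) ∧
      ∀ q, (∀ z, Ω q z = z) → ∀ x, S (q, x) = 1 := by
  have hs : ContDiff ℝ ∞ (fun p : (Q × ℝ) × E n => pv (Ω p.1.1 (pt p.1.2 (-R - 1) p.2))) := by
    have h1 : ContDiff ℝ ∞ (fun p : (Q × ℝ) × E n => (p.1.1, pt p.1.2 (-R - 1) p.2)) :=
      (contDiff_fst.comp contDiff_fst).prodMk
        (pt_contDiff (contDiff_snd.comp contDiff_fst) contDiff_const contDiff_snd)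
    exact pv.contDiff.comp (h.smooth.comp h1)
  have hsupp : ∀ (p : Q × ℝ) (v : E n), v ∉ closedBall (0 : E n) R →
      pv (Ω p.1 (pt p.2 (-R - 1) v)) = v := by
    intro p v hv
    rw [mem_closedBall_zero_iff, not_le] at hv
    rw [h.out p.1 _ (Or.inr (Or.inr (by rw [pv_pt]; exact hv.le))), pv_pt]
  have hsy : ∀ p : Q × ℝ, IsSymplectomorphism (fun v => pv (Ω p.1 (pt p.2 (-R - 1) v))) := by
    intro p
    refine mkSymp hn ?_ (fun v a b => h.left_symp p.1 p.2 v a b) (isCompact_closedBall 0 R)
      (hsupp p)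
    exact hs.comp (contDiff_const.prodMk contDiff_id)
  refine ⟨fun p => ⟨fun v => pv (Ω p.1 (pt p.2 (-R - 1) v)), hsy p, closedBall 0 R,
    isCompact_closedBall _ _, hsupp p⟩, hs, ?_, ?_, ?_, ?_⟩
  · intro q z hz
    show pv (Ω q z) = pv (Ω q (pt (px z) (-R - 1) (pv z)))
    exact h.pv_left hz (by rw [py_pt]; linarith) (by simp) (by simp)
  · intro q x hx
    apply SympCt.ext
    funext v
    show pv (Ω q (pt x (-R - 1) v)) = v
    rw [h.out q _ (Or.inr (Or.inl (by rw [px_pt]; exact hx))), pv_pt]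
  · exact fun p => hsupp p
  · intro q hq x
    apply SympCt.ext
    funext v
    show pv (Ω q (pt x (-R - 1) v)) = v
    rw [hq, pv_pt]

theorem exists_ne (hn : 0 < n) : ∃ e : E n, ‖e‖ = 1 :=
  ⟨EuclideanSpace.single (⟨0, hn⟩, 0) 1, by simp⟩

/-- **The kernel.** -/
theorem kernel (hn : 0 < n) (h : PFam R Ω) {q : Q}
    (hS : ∀ z, py z ≤ -R → pv (Ω q z) = pv z) {z : E (n + 1)} (hz : py z ≤ -R) : Ω q z = z := by
  have key : ∀ z : E (n + 1), py z < -R → Ω q z = z := by
    intro z hz
    refine ext3 (h.px_left hz.le) ?_ (hS z hz.le)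
    have hpv : ∀ w : E (n + 1), py w < -R → ∀ u, pv (fderiv ℝ (Ω q) w u) = pv u := by
      intro w hw u
      have h1 : HasFDerivAt (fun w => pv (Ω q w)) (pv.comp (fderiv ℝ (Ω q) w)) w :=
        pv.hasFDerivAt.comp w (h.hasFDerivAt q w)
      have h2 : (fun w => pv (Ω q w)) =ᶠ[𝓝 w] pv := by
        filter_upwards [(isOpen_left R).mem_nhds hw] with y hy
        exact hS y (le_of_lt hy)
      have h3 := h1.unique ((pv.hasFDerivAt (x := w)).congr_of_eventuallyEq h2)
      exact DFunLike.congr_fun h3 u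
    have hpy : ∀ w : E (n + 1), py w < -R → ∀ u : E n, py (fderiv ℝ (Ω q) w (iv u)) = 0 := by
      intro w hw u
      have h1 := (h.symp q).symplectic w ex (iv u)
      rw [omega_ex, omega_split, h.px_fderiv hw, h.px_fderiv hw, hpv w hw, hpv w hw] at h1
      have h2 : omega (0 : E n) u = 0 := by
        rw [← om_apply, map_zero, LinearMap.zero_apply]
      simpa [h2] using h1
    obtain ⟨e, he⟩ := exists_ne hn
    have h1 : ∀ s : ℝ, HasDerivAt (fun s : ℝ => py (Ω q (z + s • iv e))) 0 s := by
      intro s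
      have h2 : HasDerivAt (fun s : ℝ => z + s • iv e) (iv e) s := by
        have := ((hasDerivAt_id s).smul_const (iv e)).const_add z
        simpa using this
      have h3 := (py.hasFDerivAt.comp _ (h.hasFDerivAt q (z + s • iv e))).comp_hasDerivAt s h2
      refine h3.congr_deriv ?_
      show py (fderiv ℝ (Ω q) (z + s • iv e) (iv e)) = 0
      exact hpy _ (by simpa using hz) e
    have h4 := is_const_of_deriv_eq_zero (fun t => (h1 t).differentiableAt)
      (fun t => (h1 t).deriv) 0 (‖pv z‖ + |R|)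
    simp only [zero_smul, add_zero] at h4
    rw [h4, h.out q]
    · simp
    · right; right
      simp only [map_add, map_smul, pv_iv]
      have h5 : ‖(‖pv z‖ + |R|) • e‖ = ‖pv z‖ + |R| := by
        rw [norm_smul, he, mul_one, Real.norm_eq_abs, abs_of_nonneg (by positivity)]
      have h6 := norm_sub_norm_le ((‖pv z‖ + |R|) • e) (-pv z)
      rw [sub_neg_eq_add, norm_neg, h5] at h6
      rw [add_comm (pv z)]
      linarith [le_abs_self R]
  have h4 := key (z - (1 : ℝ) • ey) (by
    simp only [map_sub, map_smul, py_ey, smul_eq_mul, mul_one]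
    linarith)
  rw [h.left q z 1 hz zero_le_one] at h4
  exact sub_left_injective h4

/-- no time delay implies trivial scattering -/
theorem no_delay (h : PFam R Ω) {q : Q}
    (hS : ∀ z, py z ≤ -R → py (Ω q z) = py z) {z : E (n + 1)} (hz : py z ≤ -R) :
    pv (Ω q z) = pv z := by
  have key : ∀ z : E (n + 1), py z < -R → pv (Ω q z) = pv z := by
    intro z hz
    have hpy : ∀ w : E (n + 1), py w < -R → ∀ u, py (fderiv ℝ (Ω q) w u) = py u := by
      intro w hw u
      have h1 : HasFDerivAt (fun w => py (Ω q w)) (py.comp (fderiv ℝ (Ω q) w)) w :=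
        py.hasFDerivAt.comp w (h.hasFDerivAt q w)
      have h2 : (fun w => py (Ω q w)) =ᶠ[𝓝 w] py := by
        filter_upwards [(isOpen_left R).mem_nhds hw] with y hy
        exact hS y (le_of_lt hy)
      have h3 := h1.unique ((py.hasFDerivAt (x := w)).congr_of_eventuallyEq h2)
      exact DFunLike.congr_fun h3 u
    have hpv : ∀ w : E (n + 1), py w < -R → pv (fderiv ℝ (Ω q) w ex) = 0 := by
      intro w hw
      have hT : ∀ a b : E n, omega (pv (fderiv ℝ (Ω q) w (iv a))) (pv (fderiv ℝ (Ω q) w (iv b))) =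
          omega a b := by
        intro a b
        have h1 := (h.symp q).symplectic w (iv a) (iv b)
        rw [omega_split, h.px_fderiv hw, h.px_fderiv hw, omega_split (iv a)] at h1
        simpa using h1
      let T : E n →L[ℝ] E n := pv.comp ((fderiv ℝ (Ω q) w).comp iv)
      have hinj : Injective T := (injective_iff_map_eq_zero _).2 fun _ hu => symp_inj hT hu
      have hsurj : Surjective T :=
        (LinearMap.injective_iff_surjective (f := (T : E n →ₗ[ℝ] E n))).1 hinj
      refine omega_nondeg fun v => ?_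
      obtain ⟨u, rfl⟩ := hsurj v
      have h1 := (h.symp q).symplectic w ex (iv u)
      rw [omega_ex, omega_split, h.px_fderiv hw, h.px_fderiv hw, hpy w hw, hpy w hw] at h1
      have h2 : omega (pv (fderiv ℝ (Ω q) w ex)) (pv (fderiv ℝ (Ω q) w (iv u))) = 0 := by
        simpa using h1
      exact h2
    have h1 : ∀ s : ℝ, HasDerivAt (fun s : ℝ => pv (Ω q (z + s • ex))) 0 s := by
      intro s
      have h2 : HasDerivAt (fun s : ℝ => z + s • (ex : E (n + 1))) ex s := by
        have := ((hasDerivAt_id s).smul_const (ex : E (n + 1))).const_add z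
        simpa using this
      have h3 := (pv.hasFDerivAt.comp _ (h.hasFDerivAt q (z + s • ex))).comp_hasDerivAt s h2
      refine h3.congr_deriv ?_
      show pv (fderiv ℝ (Ω q) (z + s • ex) ex) = 0
      exact hpv _ (by simpa using hz)
    have h4 := is_const_of_deriv_eq_zero (fun t => (h1 t).differentiableAt)
      (fun t => (h1 t).deriv) 0 (|px z| + |R|)
    simp only [zero_smul, add_zero] at h4
    rw [h4, h.out q]
    · simp
    · right; left
      simp only [map_add, map_smul, px_ex, smul_eq_mul, mul_one]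
      have h5 : px z + (|px z| + |R|) ≤ |px z + (|px z| + |R|)| := le_abs_self _
      linarith [le_abs_self R, neg_abs_le (px z)]
  have h4 := key (z - (1 : ℝ) • ey) (by
    simp only [map_sub, map_smul, py_ey, smul_eq_mul, mul_one]
    linarith)
  rw [h.left q z 1 hz zero_le_one] at h4
  simpa using h4

/-- a family with trivial left end is a family of compactly supported symplectomorphisms -/
theorem toSymp (hn : 0 < n) (h : PFam R Ω)
    (hS : ∀ q z, py z ≤ -R → pv (Ω q z) = pv z) :
    ∃ φ : Q → SympCt (n + 1), IsSmoothFamily φ ∧ (∀ q, (φ q).map = Ω q) ∧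
      ∀ q, SupportedIn (closedBall 0 (3 * R)) (φ q).map := by
  have hsupp : ∀ q, SupportedIn (closedBall 0 (3 * R)) (Ω q) := by
    intro q z hz
    rw [mem_closedBall_zero_iff, not_le] at hz
    by_cases h1 : Out R z
    · exact h.out q z h1
    · have h2 : py z ≤ -R := by
        by_contra hcon
        push Not at hcon
        exact absurd (norm_le_of_not_out h1 hcon.le le_rfl) (not_le.2 hz)
      exact h.kernel hn (hS q) h2
  exact ⟨fun q => ⟨Ω q, h.symp q, _, isCompact_closedBall _ _, hsupp q⟩, h.smooth, fun q => rfl,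
    hsupp⟩

end PFam

/-- **Uniqueness**: a symplectic map is determined by its first component and its values at the
right end. -/
theorem unique_of_px {Ω Ω' : E (n + 1) → E (n + 1)} (h : IsSymplectomorphism Ω)
    (h' : IsSymplectomorphism Ω') {R : ℝ} (hr : ∀ z, R ≤ py z → Ω z = z)
    (hr' : ∀ z, R ≤ py z → Ω' z = z) (hx : ∀ z, px (Ω z) = px (Ω' z)) : Ω = Ω' := by
  obtain ⟨χ, c1, c2, c3⟩ := h.inverse
  have hχ := h.of_inverse c1 c2 c3
  -- `Ψ = Ω' χ` commutes with the translations
  have hΨ := h'.comp hχ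
  have hxΨ : ∀ z, px (Ω' (χ z)) = px z := fun z => by rw [← hx, c3]
  have hfd : ∀ z, HasFDerivAt (Ω' ∘ χ) (fderiv ℝ (Ω' ∘ χ) z) z := fun z =>
    (hΨ.smooth.differentiable (by simp) z).hasFDerivAt
  have hpx : ∀ z u, px (fderiv ℝ (Ω' ∘ χ) z u) = px u := by
    intro z u
    have h1 : HasFDerivAt (fun z => px (Ω' (χ z))) (px.comp (fderiv ℝ (Ω' ∘ χ) z)) z :=
      px.hasFDerivAt.comp z (hfd z)
    have h2 : (fun z => px (Ω' (χ z))) = px := funext hxΨ
    rw [h2] at h1
    exact DFunLike.congr_fun (h1.unique (px.hasFDerivAt)) u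
  have hinj : ∀ z, Injective (fderiv ℝ (Ω' ∘ χ) z) := fun z =>
    (injective_iff_map_eq_zero _).2 fun _ hu => symp_inj (hΨ.symplectic z) hu
  have hsurj : ∀ z, Surjective (fderiv ℝ (Ω' ∘ χ) z) := fun z =>
    (LinearMap.injective_iff_surjective
      (f := (fderiv ℝ (Ω' ∘ χ) z : E (n + 1) →ₗ[ℝ] E (n + 1)))).1 (hinj z)
  have hey : ∀ z, fderiv ℝ (Ω' ∘ χ) z ey = ey := by
    intro z
    refine omega_left_cancel fun v => ?_
    obtain ⟨u, rfl⟩ := hsurj z v
    rw [hΨ.symplectic, omega_ey, omega_ey, hpx]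
  have hconst : ∀ z (t : ℝ), Ω' (χ (z + t • ey)) = Ω' (χ z) + t • ey := by
    intro z t
    have h1 : ∀ s : ℝ, HasDerivAt (fun s : ℝ => (Ω' ∘ χ) (z + s • ey) - s • (ey : E (n + 1))) 0
        s := by
      intro s
      have h2 : HasDerivAt (fun s : ℝ => z + s • (ey : E (n + 1))) ey s := by
        have := ((hasDerivAt_id s).smul_const (ey : E (n + 1))).const_add z
        simpa using this
      have h3 := (hfd (z + s • ey)).comp_hasDerivAt s h2
      have h4 := h3.sub ((hasDerivAt_id s).smul_const (ey : E (n + 1)))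
      refine h4.congr_deriv ?_
      rw [hey, one_smul, sub_self]
    have h5 := is_const_of_deriv_eq_zero (fun t => (h1 t).differentiableAt)
      (fun t => (h1 t).deriv) t 0
    simp only [zero_smul, add_zero, sub_zero, Function.comp_apply] at h5
    rw [← h5]
    abel
  have hid : ∀ z, Ω' (χ z) = z := by
    intro z
    set t : ℝ := |R - py z| with ht
    have h1 := hconst z t
    have h2 : R ≤ py (z + t • ey) := by
      simp only [map_add, map_smul, py_ey, smul_eq_mul, mul_one]
      linarith [le_abs_self (R - py z)]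
    have h3 : χ (z + t • ey) = z + t • ey := by
      have := c2 (z + t • ey)
      rwa [hr _ h2] at this
    rw [h3, hr' _ h2] at h1
    exact (add_right_cancel h1).symm
  funext z
  have := hid (Ω z)
  rw [c2] at this
  exact this.symm

end Pool.Agent.H84.PP
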