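import Pool.Agent.H84.PP.VF

/-!
# Hamiltonian flows are symplectic
-/

set_option autoImplicit false

open Set Filter Topology Metric Function
open scoped ContDiff NNReal

noncomputable section

namespace Pool.Agent.H84.PP

open Pool.Agent.X277.Sy

variable {m : ℕ}

theorem two_le_infty : minSmoothness ℝ 2 ≤ (∞ : WithTop ℕ∞) := by
  rw [minSmoothness_of_isRCLikeNormedField]
  exact WithTop.coe_le_coe.2 (le_top : (2 : ℕ∞) ≤ ⊤)

theorem hasDerivAt_omega {a b : ℝ → E m} {a' b' : E m} {t : ℝ} (ha : HasDerivAt a a' t)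
    (hb : HasDerivAt b b' t) :
    HasDerivAt (fun t => omega (a t) (b t)) (omega a' (b t) + omega (a t) b') t := by
  have hc : ∀ {c : ℝ → E m} {c' : E m}, HasDerivAt c c' t → ∀ q : Fin m × Fin 2,
      HasDerivAt (fun t => c t q) (c' q) t := by
    intro c c' h q
    exact (EuclideanSpace.proj (𝕜 := ℝ) q).hasFDerivAt.comp_hasDerivAt t h
  unfold omega
  have h := HasDerivAt.fun_sum (u := Finset.univ) (A := fun (i : Fin m) t =>
      (a t (i, 0) * b t (i, 1) - a t (i, 1) * b t (i, 0))) fun i _ =>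
    ((hc ha (i, 0)).mul (hc hb (i, 1))).sub ((hc ha (i, 1)).mul (hc hb (i, 0)))
  refine h.congr_deriv ?_
  rw [← Finset.sum_add_distrib]
  refine Finset.sum_congr rfl fun i _ => ?_
  ring

theorem fderiv_slice {P : Type*} [NormedAddCommGroup P] [NormedSpace ℝ P] {m' : ℕ}
    {Ψ : P × E m → E m'} (hΨ : ContDiff ℝ ∞ Ψ)
    (t : P) (z : E m) : HasFDerivAt (fun z => Ψ (t, z))
      ((fderiv ℝ Ψ (t, z)).comp (ContinuousLinearMap.inr ℝ P (E m))) z :=
  HasFDerivAt.comp z (hΨ.differentiable (by simp) (t, z)).hasFDerivAt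
    (hasFDerivAt_prodMk_right t z)

theorem symplectic_of_flow {Ψ : ℝ × E m → E m} (hΨ : ContDiff ℝ ∞ Ψ) {G : ℝ → E m → E m}
    (hG : ∀ t, Differentiable ℝ (G t))
    (hsp : ∀ t z u v, omega (fderiv ℝ (G t) z u) v + omega u (fderiv ℝ (G t) z v) = 0)
    (h0 : ∀ z, Ψ (0, z) = z)
    (hd : ∀ z t, HasDerivAt (fun t => Ψ (t, z)) (G t (Ψ (t, z))) t) (t : ℝ) (z u v : E m) :
    omega (fderiv ℝ (fun z => Ψ (t, z)) z u) (fderiv ℝ (fun z => Ψ (t, z)) z v) = omega u v := by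
  have hDs : ContDiff ℝ ∞ (fderiv ℝ Ψ) := hΨ.fderiv_right (m := ∞) (by simp)
  have hD : ∀ q, HasFDerivAt (fderiv ℝ Ψ) (fderiv ℝ (fderiv ℝ Ψ) q) q := fun q =>
    (hDs.differentiable (by simp) q).hasFDerivAt
  have e1 : ∀ t z u, fderiv ℝ (fun z => Ψ (t, z)) z u = fderiv ℝ Ψ (t, z) (0, u) := by
    intro t z u
    rw [(fderiv_slice hΨ t z).fderiv]
    rfl
  have e2 : ∀ t z, fderiv ℝ Ψ (t, z) (1, 0) = G t (Ψ (t, z)) := by
    intro t z
    have h1 : HasDerivAt (fun t => Ψ (t, z)) (fderiv ℝ Ψ (t, z) (1, 0)) t := by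
      have h2 : HasDerivAt (fun t : ℝ => ((t, z) : ℝ × E m)) (1, 0) t :=
        (hasDerivAt_id t).prodMk (hasDerivAt_const t z)
      exact (hΨ.differentiable (by simp) (t, z)).hasFDerivAt.comp_hasDerivAt t h2
    exact h1.unique (hd z t)
  have e3 : ∀ t z u, fderiv ℝ (fderiv ℝ Ψ) (t, z) (1, 0) (0, u) =
      fderiv ℝ (G t) (Ψ (t, z)) (fderiv ℝ Ψ (t, z) (0, u)) := by
    intro t z u
    have hsymm : IsSymmSndFDerivAt ℝ Ψ (t, z) :=
      hΨ.contDiffAt.isSymmSndFDerivAt two_le_infty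
    rw [hsymm.eq]
    have h1 : HasFDerivAt (fun z => fderiv ℝ Ψ (t, z) (1, 0))
        (((fderiv ℝ (fderiv ℝ Ψ) (t, z)).comp (ContinuousLinearMap.inr ℝ ℝ (E m))).flip (1, 0))
        z := by
      have h2 : HasFDerivAt (fun z => fderiv ℝ Ψ (t, z))
          ((fderiv ℝ (fderiv ℝ Ψ) (t, z)).comp (ContinuousLinearMap.inr ℝ ℝ (E m))) z :=
        HasFDerivAt.comp z (hD (t, z)) (hasFDerivAt_prodMk_right t z)
      have h3 := h2.clm_apply (hasFDerivAt_const ((1, 0) : ℝ × E m) z)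
      refine h3.congr_fderiv ?_
      ext w
      simp
    have h4 : HasFDerivAt (fun z => G t (Ψ (t, z)))
        ((fderiv ℝ (G t) (Ψ (t, z))).comp
          ((fderiv ℝ Ψ (t, z)).comp (ContinuousLinearMap.inr ℝ ℝ (E m)))) z :=
      HasFDerivAt.comp z (hG t (Ψ (t, z))).hasFDerivAt (fderiv_slice hΨ t z)
    have h5 : (fun z => fderiv ℝ Ψ (t, z) (1, 0)) = fun z => G t (Ψ (t, z)) := by
      funext z
      exact e2 t z
    rw [h5] at h1
    have h6 := DFunLike.congr_fun (h1.unique h4) u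
    exact h6
  have e4 : ∀ z u t, HasDerivAt (fun t => fderiv ℝ Ψ (t, z) (0, u))
      (fderiv ℝ (G t) (Ψ (t, z)) (fderiv ℝ Ψ (t, z) (0, u))) t := by
    intro z u t
    have h1 : HasDerivAt (fun t : ℝ => fderiv ℝ Ψ (t, z)) (fderiv ℝ (fderiv ℝ Ψ) (t, z) (1, 0)) t := by
      have h2 : HasDerivAt (fun t : ℝ => ((t, z) : ℝ × E m)) (1, 0) t :=
        (hasDerivAt_id t).prodMk (hasDerivAt_const t z)
      exact (hD (t, z)).comp_hasDerivAt t h2
    have h3 := h1.clm_apply (hasDerivAt_const t ((0, u) : ℝ × E m))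
    rw [← e3]
    refine h3.congr_deriv ?_
    simp
  have e5 : ∀ t, HasDerivAt (fun t => omega (fderiv ℝ Ψ (t, z) (0, u)) (fderiv ℝ Ψ (t, z) (0, v)))
      0 t := by
    intro t
    have h := hasDerivAt_omega (e4 z u t) (e4 z v t)
    rwa [hsp] at h
  have e6 := is_const_of_deriv_eq_zero (fun t => (e5 t).differentiableAt)
    (fun t => (e5 t).deriv) t 0
  rw [e1, e1, e6, ← e1, ← e1]
  have h7 : (fun z => Ψ (0, z)) = id := funext h0
  rw [h7, fderiv_id]
  rfl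

/-- Hamiltonian fields are infinitesimally symplectic -/
theorem ham_sp {h : E m → ℝ} (hh : ContDiff ℝ ∞ h) (a : E m) (z u v : E m) :
    Differentiable ℝ (fun z => a + XH (fderiv ℝ h z)) ∧
    omega (fderiv ℝ (fun z => a + XH (fderiv ℝ h z)) z u) v +
      omega u (fderiv ℝ (fun z => a + XH (fderiv ℝ h z)) z v) = 0 := by
  have hDs : ContDiff ℝ ∞ (fderiv ℝ h) := hh.fderiv_right (m := ∞) (by simp)
  have hD : ∀ z, HasFDerivAt (fun z => a + XH (fderiv ℝ h z))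
      (XH.comp (fderiv ℝ (fderiv ℝ h) z)) z := fun z =>
    (XH.hasFDerivAt.comp z (hDs.differentiable (by simp) z).hasFDerivAt).const_add a
  refine ⟨fun z => (hD z).differentiableAt, ?_⟩
  rw [(hD z).fderiv]
  have hsymm : IsSymmSndFDerivAt ℝ h z := hh.contDiffAt.isSymmSndFDerivAt two_le_infty
  rw [omega_swap u]
  simp only [ContinuousLinearMap.comp_apply]
  rw [omega_XH, omega_XH, hsymm.eq u v]
  ring

end Pool.Agent.H84.PP
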