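import Pool.Agent.H84.PP.Coord
import Pool.Agent.H84.Sy.Flow

/-!
# Flows of vector fields which are translation invariant at the left end
-/

set_option autoImplicit false
set_option linter.unusedSectionVars false

open Set Filter Topology Metric Function
open scoped ContDiff NNReal

noncomputable section

namespace Pool.Agent.H84.PP

open Pool.Agent.X277.Sy Pool.Agent.GR.Flow

variable {n : ℕ} {P : Type} [NormedAddCommGroup P] [NormedSpace ℝ P]

/-- boundedness by compactness and invariance -/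
theorem bdd_on {B : Type*} [NormedAddCommGroup B] {G : P × E (n + 1) → B}
    (hG : Continuous G) {C : Set P} (hC : IsCompact C)
    {R : ℝ} (hR : 0 ≤ R) (h1 : ∀ p z, Out' R z → G (p, z) = 0)
    (h2 : ∀ p z (t : ℝ), py z < -R → 0 ≤ t → G (p, z - t • ey) = G (p, z)) :
    ∃ M : ℝ, 0 ≤ M ∧ ∀ p ∈ C, ∀ z, ‖G (p, z)‖ ≤ M := by
  have hK : IsCompact (C ×ˢ closedBall (0 : E (n + 1)) (3 * (R + 1))) :=
    hC.prod (isCompact_closedBall _ _)
  obtain ⟨M, hM⟩ := hK.exists_bound_of_continuousOn hG.continuousOn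
  refine ⟨max M 0, le_max_right _ _, ?_⟩
  intro p hp z
  by_cases hz : Out' R z
  · rw [h1 p z hz, norm_zero]
    exact le_max_right _ _
  have key : ∀ z : E (n + 1), ¬ Out' R z → -(R + 1) ≤ py z → ‖G (p, z)‖ ≤ max M 0 := by
    intro z hz hy
    refine (hM _ ⟨hp, ?_⟩).trans (le_max_left _ _)
    rw [mem_closedBall_zero_iff]
    unfold Out' at hz
    push Not at hz
    have h := norm_le_split z
    have h1 : |py z| ≤ R + 1 := abs_le.2 ⟨hy, by linarith [hz.1]⟩
    linarith [hz.2.1, hz.2.2]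
  rcases le_or_gt (-(R + 1)) (py z) with hy | hy
  · exact key z hz hy
  · set s : ℝ := -(R + 1) - py z with hs
    have hs0 : 0 ≤ s := by rw [hs]; linarith
    have e1 : z = (z + s • ey) - s • ey := by abel
    have e2 : py (z + s • ey) = -(R + 1) := by
      simp only [map_add, map_smul, py_ey, smul_eq_mul, mul_one]
      rw [hs]; ring
    rw [e1, h2 p _ s (by rw [e2]; linarith) hs0]
    refine key _ ?_ e2.ge
    unfold Out' at hz ⊢
    push Not at hz ⊢
    refine ⟨by rw [e2]; linarith, ?_, ?_⟩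
    · simpa using hz.2.1
    · simpa using hz.2.2

theorem bdd_of_class {B : Type*} [NormedAddCommGroup B] {G : P × E (n + 1) → B}
    (hG : Continuous G) {C : Set P} (hC : IsCompact C) (h0 : ∀ p, p ∉ C → ∀ z, G (p, z) = 0)
    {R : ℝ} (hR : 0 ≤ R) (h1 : ∀ p z, Out' R z → G (p, z) = 0)
    (h2 : ∀ p z (t : ℝ), py z < -R → 0 ≤ t → G (p, z - t • ey) = G (p, z)) :
    ∃ M : ℝ, 0 ≤ M ∧ ∀ q, ‖G q‖ ≤ M := by
  obtain ⟨M, hM0, hM⟩ := bdd_on hG hC hR h1 h2
  refine ⟨M, hM0, ?_⟩
  rintro ⟨p, z⟩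
  by_cases hp : p ∈ C
  · exact hM p hp z
  · rw [h0 p hp, norm_zero]
    exact hM0

/-- the class of fields -/
structure VClass (R : ℝ) (F : P × E (n + 1) → E (n + 1)) : Prop where
  smooth : ContDiff ℝ ∞ F
  out : ∀ p z, Out R z → F (p, z) = 0
  left : ∀ p z (t : ℝ), py z ≤ -R → 0 ≤ t → F (p, z - t • ey) = F (p, z)

variable [FiniteDimensional ℝ P]

theorem VClass.cutoff {R : ℝ} (hR : 0 ≤ R) {F : P × E (n + 1) → E (n + 1)} (hF : VClass R F)
    {χ : P → ℝ} (hχ : ContDiff ℝ ∞ χ) {C : Set P} (hC : IsCompact C)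
    (hχ0 : ∀ p, p ∉ C → χ p = 0) :
    ContDiff ℝ ∞ (fun q : P × E (n + 1) => χ q.1 • F q) ∧
    (∃ M : ℝ≥0, ∀ q : P × E (n + 1), ‖χ q.1 • F q‖ ≤ M) ∧
    ∃ K : ℝ≥0, LipschitzWith K (fun q : P × E (n + 1) => χ q.1 • F q) := by
  have hs : ContDiff ℝ ∞ (fun q : P × E (n + 1) => χ q.1 • F q) :=
    (hχ.comp contDiff_fst).smul hF.smooth
  refine ⟨hs, ?_, ?_⟩
  · obtain ⟨M, hM0, hM⟩ := bdd_of_class (G := fun q : P × E (n + 1) => χ q.1 • F q)
      hs.continuous hC (fun p hp z => by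
        show χ p • F (p, z) = 0
        rw [hχ0 p hp, zero_smul]) hR
      (fun p z hz => by
        show χ p • F (p, z) = 0
        rw [hF.out p z hz.out, smul_zero])
      (fun p z t hz ht => by
        show χ p • F (p, z - t • ey) = χ p • F (p, z)
        rw [hF.left p z t hz.le ht])
    exact ⟨⟨M, hM0⟩, hM⟩
  · have hcont : Continuous (fderiv ℝ (fun q : P × E (n + 1) => χ q.1 • F q)) :=
      hs.continuous_fderiv (by simp)
    obtain ⟨M, hM0, hM⟩ := bdd_of_class (G := fderiv ℝ (fun q : P × E (n + 1) => χ q.1 • F q))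
      hcont hC (fun p hp z => by
        have h1 : (fun q : P × E (n + 1) => χ q.1 • F q) =ᶠ[𝓝 (p, z)] fun _ => 0 := by
          have h2 : {q : P × E (n + 1) | q.1 ∉ C} ∈ 𝓝 (p, z) :=
            (hC.isClosed.isOpen_compl.preimage continuous_fst).mem_nhds hp
          filter_upwards [h2] with q hq
          rw [hχ0 q.1 hq, zero_smul]
        rw [h1.fderiv_eq, fderiv_fun_const]
        rfl) hR
      (fun p z hz => by
        have h1 : (fun q : P × E (n + 1) => χ q.1 • F q) =ᶠ[𝓝 (p, z)] fun _ => 0 := by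
          have h2 : {q : P × E (n + 1) | Out' R q.2} ∈ 𝓝 (p, z) :=
            ((isOpen_out' R).preimage continuous_snd).mem_nhds hz
          filter_upwards [h2] with q hq
          have h3 : F (q.1, q.2) = 0 := hF.out q.1 q.2 (Out'.out hq)
          rw [show F q = 0 from h3, smul_zero]
        rw [h1.fderiv_eq, fderiv_fun_const]
        rfl)
      (fun p z t hz ht => by
        have h1 : (fun q : P × E (n + 1) => χ (q + ((0 : P), -(t • (ey : E (n + 1))))).1 •
            F (q + ((0 : P), -(t • (ey : E (n + 1)))))) =ᶠ[𝓝 (p, z)]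
            (fun q : P × E (n + 1) => χ q.1 • F q) := by
          have h2 : {q : P × E (n + 1) | py q.2 < -R} ∈ 𝓝 (p, z) :=
            (isOpen_lt (py.continuous.comp continuous_snd) continuous_const).mem_nhds hz
          filter_upwards [h2] with q hq
          have h3 : F (q.1, q.2 - t • ey) = F (q.1, q.2) := hF.left q.1 q.2 t (le_of_lt hq) ht
          have h4 : q + ((0 : P), -(t • (ey : E (n + 1)))) = (q.1, q.2 - t • ey) := by
            rw [sub_eq_add_neg]
            exact Prod.ext (add_zero _) rfl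
          rw [h4, h3]
        have h5 := h1.fderiv_eq (𝕜 := ℝ)
        have h6 := fderiv_comp_add_right (𝕜 := ℝ) (f := fun q : P × E (n + 1) => χ q.1 • F q)
          (x := ((p, z) : P × E (n + 1))) ((0 : P), -(t • (ey : E (n + 1))))
        have h7 : ((p, z) : P × E (n + 1)) + ((0 : P), -(t • (ey : E (n + 1)))) =
            (p, z - t • ey) := by
          rw [sub_eq_add_neg]
          exact Prod.ext (add_zero _) rfl
        rw [h7] at h6
        rw [← h6]
        exact h5)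
    refine ⟨⟨M, hM0⟩, lipschitzWith_of_nnnorm_fderiv_le (𝕜 := ℝ) (hs.differentiable (by simp))
      fun q => ?_⟩
    exact hM q

/-- **Flows.** -/
theorem VClass.exists_flow {R : ℝ} (hR : 0 ≤ R) {F : P × E (n + 1) → E (n + 1)}
    (hF : VClass R F) (c : ℝ) (w : P) :
    ∃ Φ : ℝ → P → E (n + 1) → E (n + 1),
      ContDiff ℝ ∞ (fun q : ℝ × P × E (n + 1) => Φ q.1 q.2.1 q.2.2) ∧
      (∀ p z, Φ 0 p z = z) ∧
      (∀ p z t, HasDerivAt (fun t => Φ t p z) (c • ey + F (p + t • w, Φ t p z)) t) ∧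
      ∀ p (γ : ℝ → E (n + 1)) (a b : ℝ), a < 0 → 0 < b →
        (∀ t ∈ Ioo a b, HasDerivAt γ (c • ey + F (p + t • w, γ t)) t) →
        ∀ t ∈ Ioo a b, γ t = Φ t p (γ 0) := by
  classical
  -- the cutoff functions
  let χ : ℕ → ContDiffBump (0 : P) := fun N => ⟨N + 1, N + 2, by positivity, by linarith⟩
  have hχs : ∀ N, ContDiff ℝ ∞ (χ N : P → ℝ) := fun N => (χ N).contDiff
  have hχ1 : ∀ (N : ℕ) (p : P), ‖p‖ ≤ N + 1 → χ N p = 1 := fun N p hp =>
    (χ N).one_of_mem_closedBall (by simpa using hp)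
  have hχ0 : ∀ (N : ℕ) (p : P), p ∉ closedBall (0 : P) (N + 2) → χ N p = 0 := fun N p hp =>
    (χ N).zero_of_le_dist (by
      rw [mem_closedBall, not_le] at hp
      exact hp.le)
  have hcut := fun N => hF.cutoff hR (hχs N) (isCompact_closedBall (0 : P) (N + 2)) (hχ0 N)
  let Z : ℕ → P × E (n + 1) → P × E (n + 1) := fun N q => (w, c • ey + χ N q.1 • F q)
  have hZs : ∀ N, ContDiff ℝ ∞ (Z N) := fun N =>
    contDiff_const.prodMk (contDiff_const.add (hcut N).1)
  have hZK : ∀ N, ∃ K : ℝ≥0, LipschitzWith K (Z N) := by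
    intro N
    obtain ⟨K, hK⟩ := (hcut N).2.2
    exact ⟨max 0 (0 + K), (LipschitzWith.const w).prodMk ((LipschitzWith.const (c • ey)).add hK)⟩
  have hZM : ∀ N, ∃ M : ℝ≥0, ∀ q, ‖Z N q‖ ≤ M := by
    intro N
    obtain ⟨M, hM⟩ := (hcut N).2.1
    refine ⟨max ‖w‖₊ (‖c • (ey : E (n + 1))‖₊ + M), fun q => ?_⟩
    have h1 : ‖Z N q‖ = max ‖w‖ ‖c • ey + χ N q.1 • F q‖ := rfl
    rw [h1]
    push_cast
    refine max_le_max le_rfl ((norm_add_le _ _).trans ?_)
    exact add_le_add le_rfl (hM q)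
  choose K hK using hZK
  choose M hM using hZM
  choose γ hγ0 hγ using fun N q => exists_solution (hK N) (hM N) q
  have hfl : ∀ N, IsFlowOf (Z N) (fun t q => γ N q t) := fun N => ⟨hγ0 N, fun q t => hγ N q t⟩
  have hsm : ∀ N, ContDiff ℝ ∞ (fun q : ℝ × (P × E (n + 1)) => γ N q.2 q.1) := by
    intro N
    rw [contDiff_infty]
    intro m
    have h1 : ContDiff ℝ ((m + 1 : ℕ) : WithTop ℕ∞) (fun q : ℝ × (P × E (n + 1)) => γ N q.2 q.1) :=
      contDiff_flow (X := (⟨Z N, (hZs N).continuous⟩ : C(P × E (n + 1), P × E (n + 1))))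
        (Nat.succ_ne_zero m) ((hZs N).of_le (by exact_mod_cast le_top)) (hK N) (hfl N)
    exact h1.of_le (by exact_mod_cast Nat.le_succ m)
  have hfst : ∀ N q t, (γ N q t).1 = q.1 + t • w := by
    intro N q t
    have hd : ∀ t, HasDerivAt (fun t => (γ N q t).1 - t • w) 0 t := by
      intro t
      have h1 : HasDerivAt (fun t => (γ N q t).1) (Z N (γ N q t)).1 t := (hγ N q t).fst
      have h2 := h1.sub ((hasDerivAt_id t).smul_const w)
      have h3 : (Z N (γ N q t)).1 - (1 : ℝ) • w = 0 := by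
        rw [one_smul]
        exact sub_self w
      rw [h3] at h2
      exact h2
    have h4 := is_const_of_deriv_eq_zero (fun t => (hd t).differentiableAt)
      (fun t => (hd t).deriv) t 0
    simp only [hγ0, zero_smul, sub_zero] at h4
    rw [← h4]
    abel
  have hsnd : ∀ N q t, HasDerivAt (fun t => (γ N q t).2)
      (c • ey + χ N (q.1 + t • w) • F (q.1 + t • w, (γ N q t).2)) t := by
    intro N q t
    have h1 : HasDerivAt (fun t => (γ N q t).2) (Z N (γ N q t)).2 t := (hγ N q t).snd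
    have h2 : (Z N (γ N q t)).2 =
        c • ey + χ N (q.1 + t • w) • F (q.1 + t • w, (γ N q t).2) := by
      have h3 : γ N q t = (q.1 + t • w, (γ N q t).2) := Prod.ext (hfst N q t) rfl
      show c • ey + χ N (γ N q t).1 • F (γ N q t) = _
      rw [h3]
    rw [h2] at h1
    exact h1
  have hnorm : ∀ (p : P) (t T : ℝ), |t| ≤ T → ‖p + t • w‖ ≤ ‖p‖ + T * ‖w‖ := by
    intro p t T ht
    refine (norm_add_le _ _).trans (add_le_add le_rfl ?_)
    rw [norm_smul, Real.norm_eq_abs]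
    exact mul_le_mul_of_nonneg_right ht (norm_nonneg _)
  -- local solutions agree with the flow of the cut off fields
  have hagree : ∀ (N : ℕ) (p : P) (a b : ℝ) (β : ℝ → E (n + 1)), a < 0 → 0 < b →
      (∀ t ∈ Ioo a b, ‖p + t • w‖ ≤ N + 1) →
      (∀ t ∈ Ioo a b, HasDerivAt β (c • ey + F (p + t • w, β t)) t) →
      ∀ t ∈ Ioo a b, β t = (γ N (p, β 0) t).2 := by
    intro N p a b β ha hb hp hβ t ht
    have h1 : EqOn (fun t => ((p + t • w, β t) : P × E (n + 1))) (γ N (p, β 0)) (Ioo a b) := by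
      refine ODE_solution_unique_of_mem_Ioo (v := fun _ => Z N) (s := fun _ => univ) (K := K N)
        (t₀ := 0) (fun t _ => (hK N).lipschitzOnWith) ⟨ha, hb⟩
        (fun s hs => ⟨?_, trivial⟩) (fun s hs => ⟨hγ N _ s, trivial⟩) ?_
      · have h2 : HasDerivAt (fun t : ℝ => p + t • w) ((1 : ℝ) • w) s :=
          ((hasDerivAt_id s).smul_const w).const_add p
        have h3 := h2.prodMk (hβ s hs)
        have h4 : (((1 : ℝ) • w, c • ey + F (p + s • w, β s)) : P × E (n + 1)) =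
            Z N (p + s • w, β s) := by
          show _ = (w, c • ey + χ N (p + s • w) • F (p + s • w, β s))
          rw [hχ1 N _ (hp s hs), one_smul, one_smul]
        rw [h4] at h3
        exact h3
      · simp only [zero_smul, add_zero, hγ0]
    exact congrArg Prod.snd (h1 ht)
  have hT : ∀ (p : P) (t : ℝ) (N : ℕ), ‖p‖ + |t| * ‖w‖ ≤ N →
      ∃ T : ℝ, |t| < T ∧ 0 < T ∧ ‖p‖ + T * ‖w‖ ≤ N + 1 := by
    intro p t N h
    have h1 : (0 : ℝ) < ‖w‖ + 1 := by positivity
    refine ⟨|t| + 1 / (‖w‖ + 1), by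
      have : 0 < 1 / (‖w‖ + 1) := by positivity
      linarith, by positivity, ?_⟩
    have h2 : 1 / (‖w‖ + 1) * ‖w‖ ≤ 1 := by
      rw [one_div, inv_mul_le_iff₀ h1]
      linarith
    nlinarith
  have hmono : ∀ (p : P) (z : E (n + 1)) (t : ℝ) (N N' : ℕ), ‖p‖ + |t| * ‖w‖ ≤ N → N ≤ N' →
      (γ N (p, z) t).2 = (γ N' (p, z) t).2 := by
    intro p z t N N' hN hNN
    obtain ⟨T, h1, h2, h3⟩ := hT p t N hN
    have h4 := hagree N' p (-T) T (fun t => (γ N (p, z) t).2) (by linarith) h2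
      (fun s hs => (hnorm p s T (abs_le.2 ⟨hs.1.le, hs.2.le⟩)).trans (h3.trans (by
        have : (N : ℝ) ≤ N' := by exact_mod_cast hNN
        linarith))) (fun s hs => by
        have h5 := hsnd N (p, z) s
        simp only at h5
        rw [hχ1 N _ ((hnorm p s T (abs_le.2 ⟨hs.1.le, hs.2.le⟩)).trans h3), one_smul] at h5
        exact h5) t (abs_lt.1 h1)
    simp only [hγ0] at h4
    exact h4
  let Φ : ℝ → P → E (n + 1) → E (n + 1) := fun t p z => (γ ⌈‖p‖ + |t| * ‖w‖⌉₊ (p, z) t).2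
  have hΦ : ∀ (p : P) (z : E (n + 1)) (t : ℝ) (N : ℕ), ‖p‖ + |t| * ‖w‖ ≤ N →
      Φ t p z = (γ N (p, z) t).2 := fun p z t N hN =>
    hmono p z t _ N (Nat.le_ceil _) (Nat.ceil_le.2 hN)
  refine ⟨Φ, ?_, ?_, ?_, ?_⟩
  · rw [contDiff_iff_contDiffAt]
    rintro ⟨t, p, z⟩
    obtain ⟨N, hN⟩ := exists_nat_gt (‖p‖ + |t| * ‖w‖)
    have h1 : (fun q : ℝ × P × E (n + 1) => Φ q.1 q.2.1 q.2.2) =ᶠ[𝓝 (t, p, z)]
        fun q => (γ N (q.2.1, q.2.2) q.1).2 := by
      have h2 : ∀ᶠ q : ℝ × P × E (n + 1) in 𝓝 (t, p, z), ‖q.2.1‖ + |q.1| * ‖w‖ < N := by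
        have h3 : Continuous (fun q : ℝ × P × E (n + 1) => ‖q.2.1‖ + |q.1| * ‖w‖) := by fun_prop
        exact (isOpen_lt h3 continuous_const).mem_nhds hN
      filter_upwards [h2] with q hq
      exact hΦ _ _ _ N hq.le
    refine ContDiffAt.congr_of_eventuallyEq ?_ h1
    exact (contDiff_snd.comp (hsm N)).contDiffAt
  · intro p z
    show (γ _ (p, z) 0).2 = z
    rw [hγ0]
  · intro p z t
    obtain ⟨N, hN⟩ := exists_nat_gt (‖p‖ + |t| * ‖w‖)
    have h1 : (fun t => Φ t p z) =ᶠ[𝓝 t] fun t => (γ N (p, z) t).2 := by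
      have h2 : ∀ᶠ s : ℝ in 𝓝 t, ‖p‖ + |s| * ‖w‖ < N := by
        have h3 : Continuous (fun s : ℝ => ‖p‖ + |s| * ‖w‖) := by fun_prop
        exact (isOpen_lt h3 continuous_const).mem_nhds hN
      filter_upwards [h2] with q hq
      exact hΦ _ _ _ N hq.le
    have h4 := hsnd N (p, z) t
    simp only at h4
    rw [hχ1 N _ ((hnorm p t _ le_rfl).trans (by linarith)), one_smul] at h4
    rw [hΦ p z t N hN.le]
    exact h4.congr_of_eventuallyEq h1
  · intro p β a b ha hb hβ t ht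
    obtain ⟨N, hN⟩ := exists_nat_gt (‖p‖ + (|a| + |b|) * ‖w‖)
    have hab : ∀ s ∈ Ioo a b, |s| ≤ |a| + |b| := by
      intro s hs
      have h1 := neg_abs_le a
      have h2 := le_abs_self b
      have h3 := abs_nonneg a
      have h4 := abs_nonneg b
      exact abs_le.2 ⟨by linarith [hs.1], by linarith [hs.2]⟩
    have h1 := hagree N p a b β ha hb (fun s hs => (hnorm p s _ (hab s hs)).trans
      (by linarith)) hβ t ht
    rw [h1]
    refine (hΦ p (β 0) t N ?_).symm
    refine le_trans ?_ hN.le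
    have := hab t ht
    gcongr

end Pool.Agent.H84.PP
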