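import Pool.Agent.H84.PP.PFam

/-!
# Wave maps of Hamiltonians with an escape function
-/

set_option autoImplicit false
set_option linter.unusedSectionVars false

open Set Filter Topology Metric Function
open scoped ContDiff NNReal

noncomputable section

namespace Pool.Agent.H84.PP

open Pool.Agent.X277.Sy

variable {n : ℕ} {Q : Type} [NormedAddCommGroup Q] [NormedSpace ℝ Q]

theorem Out.norm_le {R : ℝ} {z : E (n + 1)} (hz : Out R z) : R ≤ ‖z‖ := by
  rcases hz with hz | hz | hz
  · exact hz.trans ((le_abs_self _).trans (abs_py_le z))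
  · exact hz.trans (abs_px_le z)
  · exact hz.trans (norm_pv_le z)

theorem form_XH_self {m : ℕ} (L : E m →L[ℝ] ℝ) : L (XH L) = 0 := by
  have h1 := omega_XH L (XH L)
  have h2 := omega_swap (XH L) (XH L)
  linarith

/-- the derivative in the space variable of a smooth family of functions -/
theorem contDiff_fderiv_family {m : ℕ} {f : Q → E m → ℝ}
    (hf : ContDiff ℝ ∞ (fun p : Q × E m => f p.1 p.2)) :
    ContDiff ℝ ∞ (fun p : Q × E m => fderiv ℝ (f p.1) p.2) := by
  have h1 : (fun p : Q × E m => fderiv ℝ (f p.1) p.2) = fun p =>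
      (fderiv ℝ (fun p : Q × E m => f p.1 p.2) p).comp (ContinuousLinearMap.inr ℝ Q (E m)) := by
    funext p
    have h2 : HasFDerivAt (fun z => f p.1 z)
        ((fderiv ℝ (fun p : Q × E m => f p.1 p.2) (p.1, p.2)).comp
          (ContinuousLinearMap.inr ℝ Q (E m))) p.2 :=
      HasFDerivAt.comp (g := fun p : Q × E m => f p.1 p.2) p.2
        (hf.differentiable (by simp) (p.1, p.2)).hasFDerivAt (hasFDerivAt_prodMk_right p.1 p.2)
    exact h2.fderiv
  rw [h1]
  exact (hf.fderiv_right (m := ∞) (by simp)).clm_comp contDiff_const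

theorem slice_smooth {m : ℕ} {f : Q → E m → ℝ}
    (hf : ContDiff ℝ ∞ (fun p : Q × E m => f p.1 p.2)) (q : Q) : ContDiff ℝ ∞ (f q) :=
  hf.comp (contDiff_const.prodMk contDiff_id)

/-- A smooth family of pairs of functions `f`, `g` with `f = x_1`, `g = y_1` for `‖z‖ ≥ R` and with
positive Poisson brackets. -/
structure PosData (R : ℝ) (f g : Q → E (n + 1) → ℝ) : Prop where
  smooth_f : ContDiff ℝ ∞ (fun p : Q × E (n + 1) => f p.1 p.2)
  smooth_g : ContDiff ℝ ∞ (fun p : Q × E (n + 1) => g p.1 p.2)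
  out_f : ∀ q z, R ≤ ‖z‖ → f q z = px z
  out_g : ∀ q z, R ≤ ‖z‖ → g q z = py z
  pos : ∀ q z, 0 < bracket (f q) (g q) z

namespace PosData

variable {R : ℝ} {f g : Q → E (n + 1) → ℝ}

theorem fderiv_f (h : PosData R f g) (q : Q) {z : E (n + 1)} (hz : R < ‖z‖) :
    fderiv ℝ (f q) z = px := by
  have h1 : f q =ᶠ[𝓝 z] px := by
    filter_upwards [(isOpen_lt continuous_const continuous_norm).mem_nhds hz] with w hw
    exact h.out_f q w (le_of_lt hw)
  rw [h1.fderiv_eq]
  exact px.fderiv

theorem fderiv_g (h : PosData R f g) (q : Q) {z : E (n + 1)} (hz : R < ‖z‖) :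
    fderiv ℝ (g q) z = py := by
  have h1 : g q =ᶠ[𝓝 z] py := by
    filter_upwards [(isOpen_lt continuous_const continuous_norm).mem_nhds hz] with w hw
    exact h.out_g q w (le_of_lt hw)
  rw [h1.fderiv_eq]
  exact py.fderiv

theorem lower (h : PosData R f g) (q : Q) :
    ∃ c : ℝ, 0 < c ∧ ∀ z, c ≤ bracket (f q) (g q) z := by
  have hc : Continuous (fun z => bracket (f q) (g q) z) := by
    have h1 : (fun z => bracket (f q) (g q) z) = fun z =>
        fderiv ℝ (g q) z (XH (fderiv ℝ (f q) z)) := funext fun z => bracket_eq _ _ z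
    rw [h1]
    exact ((slice_smooth h.smooth_g q).continuous_fderiv (by simp)).clm_apply
      (XH.continuous.comp ((slice_smooth h.smooth_f q).continuous_fderiv (by simp)))
  obtain ⟨z₀, _, hz₀⟩ := (isCompact_closedBall (0 : E (n + 1)) |R|).exists_isMinOn
    ⟨0, by simp⟩ hc.continuousOn
  refine ⟨min (bracket (f q) (g q) z₀) 1, lt_min (h.pos q z₀) one_pos, fun z => ?_⟩
  by_cases hz : z ∈ closedBall (0 : E (n + 1)) |R|
  · exact (min_le_left _ _).trans (hz₀ hz)
  · rw [mem_closedBall_zero_iff, not_le] at hz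
    have hz' : R < ‖z‖ := (le_abs_self R).trans_lt hz
    refine (min_le_right _ _).trans ?_
    rw [bracket_eq, h.fderiv_f q hz', h.fderiv_g q hz', XH_px, py_ey]

theorem bdd_g (h : PosData R f g) (q : Q) : ∃ M : ℝ, ∀ z, |g q z - py z| ≤ M := by
  have hc : Continuous (fun z => g q z - py z) :=
    (slice_smooth h.smooth_g q).continuous.sub py.continuous
  obtain ⟨M, hM⟩ := (isCompact_closedBall (0 : E (n + 1)) |R|).exists_bound_of_continuousOn
    hc.continuousOn
  refine ⟨max M 0, fun z => ?_⟩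
  by_cases hz : z ∈ closedBall (0 : E (n + 1)) |R|
  · exact (hM z hz).trans (le_max_left _ _)
  · rw [mem_closedBall_zero_iff, not_le] at hz
    rw [h.out_g q z ((le_abs_self R).trans hz.le), sub_self, abs_zero]
    exact le_max_right _ _

end PosData

/-- **Wave maps.** -/
theorem exists_wave [FiniteDimensional ℝ Q] {R : ℝ} (hR : 0 ≤ R) {f g : Q → E (n + 1) → ℝ}
    (h : PosData R f g) {C : Set Q} (hC : IsCompact C) (hK : ∀ q, ∃ q' ∈ C, f q = f q') :
    ∃ (S : ℝ) (Ω : Q → E (n + 1) → E (n + 1)), R ≤ S ∧ PFam S Ω ∧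
      (∀ q z, px (Ω q z) = f q z) ∧
      ∀ q, (∀ z, bracket (f q) (g q) z = 1) → ∀ z, py (Ω q z) = g q z := by
  have hfs := h.smooth_f
  set R' : ℝ := R + 1 with hR'
  -- the field
  let F : Q × E (n + 1) → E (n + 1) := fun p => XH (fderiv ℝ (f p.1) p.2) - ey
  have hF0 : ∀ q z, R < ‖z‖ → F (q, z) = 0 := by
    intro q z hz
    show XH (fderiv ℝ (f q) z) - ey = 0
    rw [h.fderiv_f q hz, XH_px, sub_self]
  have hF : VClass R' F := by
    refine ⟨(XH.contDiff.comp (contDiff_fderiv_family hfs)).sub contDiff_const, ?_, ?_⟩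
    · intro q z hz
      exact hF0 q z (by linarith [hz.norm_le])
    · intro q z t hz ht
      have h1 : R < ‖z‖ := by
        have := neg_abs_le (py z)
        linarith [abs_py_le z]
      have h2 : R < ‖z - t • ey‖ := by
        have h3 := abs_py_le (z - t • ey)
        have h4 : py (z - t • ey) = py z - t := by simp
        rw [h4] at h3
        have := neg_abs_le (py z - t)
        linarith
      rw [hF0 q _ h1, hF0 q _ h2]
  obtain ⟨Φ, Φs, Φ0, Φd, Φu⟩ := hF.exists_flow (by linarith) 1 (0 : Q)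
  have hfield : ∀ q z (t : ℝ), (1 : ℝ) • (ey : E (n + 1)) + F (q + t • (0 : Q), z) =
      XH (fderiv ℝ (f q) z) := by
    intro q z t
    show (1 : ℝ) • (ey : E (n + 1)) + (XH (fderiv ℝ (f (q + t • (0 : Q))) z) - ey) = _
    rw [smul_zero, add_zero, one_smul]
    abel
  simp only [hfield] at Φd Φu
  have Φu' : ∀ q (γ : ℝ → E (n + 1)), (∀ t, HasDerivAt γ (XH (fderiv ℝ (f q) (γ t))) t) →
      ∀ t, γ t = Φ t q (γ 0) := by
    intro q γ hγ t
    have h1 := neg_abs_le t
    have h2 := le_abs_self t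
    have h3 := abs_nonneg t
    exact Φu q γ (-(|t| + 1)) (|t| + 1) (by linarith) (by linarith) (fun s _ => hγ s) t
      ⟨by linarith, by linarith⟩
  -- the group law
  have Φadd : ∀ q z (t s : ℝ), Φ (t + s) q z = Φ t q (Φ s q z) := by
    intro q z t s
    have h1 := Φu' q (fun t => Φ (t + s) q z) (fun t => by
      have h2 := (Φd q z (t + s)).scomp t ((hasDerivAt_id t).add_const s)
      rw [one_smul] at h2
      exact h2) t
    simp only [zero_add] at h1
    exact h1
  -- conservation of `f`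
  have hf_diff : ∀ q z, HasFDerivAt (f q) (fderiv ℝ (f q) z) z := fun q z =>
    ((slice_smooth hfs q).differentiable (by simp) z).hasFDerivAt
  have hg_diff : ∀ q z, HasFDerivAt (g q) (fderiv ℝ (g q) z) z := fun q z =>
    ((slice_smooth h.smooth_g q).differentiable (by simp) z).hasFDerivAt
  have hcons : ∀ q z t, f q (Φ t q z) = f q z := by
    intro q z t
    have h1 : ∀ t, HasDerivAt (fun t => f q (Φ t q z)) 0 t := by
      intro t
      have h2 := (hf_diff q (Φ t q z)).comp_hasDerivAt t (Φd q z t)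
      rw [form_XH_self] at h2
      exact h2
    have h3 := is_const_of_deriv_eq_zero (fun t => (h1 t).differentiableAt)
      (fun t => (h1 t).deriv) t 0
    simpa [Φ0] using h3
  -- growth of `g`
  have hgd : ∀ q z t, HasDerivAt (fun t => g q (Φ t q z)) (bracket (f q) (g q) (Φ t q z)) t := by
    intro q z t
    rw [bracket_eq]
    exact (hg_diff q (Φ t q z)).comp_hasDerivAt t (Φd q z t)
  -- explicit trajectories
  have hline : ∀ (z : E (n + 1)) (t : ℝ), HasDerivAt (fun t : ℝ => z + t • (ey : E (n + 1))) ey t := by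
    intro z t
    have := ((hasDerivAt_id t).smul_const (ey : E (n + 1))).const_add z
    simpa using this
  have hlinear : ∀ q z (a b : ℝ), a < 0 → 0 < b → (∀ t ∈ Ioo a b, R < ‖z + t • ey‖) →
      ∀ t ∈ Ioo a b, Φ t q z = z + t • ey := by
    intro q z a b ha hb hz t ht
    have h1 := Φu q (fun t : ℝ => z + t • (ey : E (n + 1))) a b ha hb (fun s hs => by
      have h2 : XH (fderiv ℝ (f q) (z + s • ey)) = ey := by
        rw [h.fderiv_f q (hz s hs), XH_px]
      rw [h2]
      exact hline z s) t ht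
    simp only [zero_smul, add_zero] at h1
    exact h1.symm
  have hpyt : ∀ (z : E (n + 1)) (t : ℝ), py (z + t • ey) = py z + t := by
    intro z t
    simp
  have hright : ∀ q z (t : ℝ), R' ≤ py z → 0 ≤ t → Φ t q z = z + t • ey := by
    intro q z t hz ht
    refine hlinear q z (-(1 / 2)) (t + 1) (by norm_num) (by linarith) (fun s hs => ?_) t
      ⟨by linarith, by linarith⟩
    have h1 := abs_py_le (z + s • ey)
    rw [hpyt] at h1
    have h2 := le_abs_self (py z + s)
    linarith [hs.1]
  have hleft : ∀ q z (t : ℝ), py z ≤ -R' → t ≤ 0 → Φ t q z = z + t • ey := by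
    intro q z t hz ht
    refine hlinear q z (t - 1) (1 / 2) (by linarith) (by norm_num) (fun s hs => ?_) t
      ⟨by linarith, by linarith⟩
    have h1 := abs_py_le (z + s • ey)
    rw [hpyt] at h1
    have h2 := neg_abs_le (py z + s)
    linarith [hs.2]
  have hside : ∀ q z (t : ℝ), (R' ≤ |px z| ∨ R' ≤ ‖pv z‖) → Φ t q z = z + t • ey := by
    intro q z t hz
    have h1 := neg_abs_le t
    have h2 := le_abs_self t
    have h3 := abs_nonneg t
    refine hlinear q z (-(|t| + 1)) (|t| + 1) (by linarith) (by linarith) (fun s hs => ?_) t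
      ⟨by linarith, by linarith⟩
    rcases side_add hz s with h4 | h4
    · exact lt_of_lt_of_le (by linarith) (h4.trans (abs_px_le _))
    · exact lt_of_lt_of_le (by linarith) (h4.trans (norm_pv_le _))
  -- escape
  have hesc : ∀ q z, ∃ T : ℝ, 0 ≤ T ∧ ∀ t, T ≤ t → R' + 1 ≤ py (Φ t q z) := by
    intro q z
    obtain ⟨c, hc, hcb⟩ := h.lower q
    obtain ⟨M, hM⟩ := h.bdd_g q
    have hgrow : ∀ t : ℝ, 0 ≤ t → g q z + c * t ≤ g q (Φ t q z) := by
      intro t ht
      have hd : ∀ t, HasDerivAt (fun t => g q (Φ t q z) - c * t)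
          (bracket (f q) (g q) (Φ t q z) - c) t := by
        intro t
        have h5 := (hgd q z t).sub ((hasDerivAt_id t).const_mul c)
        rw [mul_one] at h5
        exact h5
      have hmono : Monotone (fun t => g q (Φ t q z) - c * t) :=
        monotone_of_hasDerivAt_nonneg hd fun t => sub_nonneg.2 (hcb _)
      have h1 := hmono ht
      simp only [mul_zero, sub_zero, Φ0] at h1
      linarith
    refine ⟨max 0 ((R' + 1 + M - g q z) / c), le_max_left _ _, fun t ht => ?_⟩
    have h0 : 0 ≤ t := (le_max_left _ _).trans ht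
    have h1 : (R' + 1 + M - g q z) / c ≤ t := (le_max_right _ _).trans ht
    rw [div_le_iff₀ hc] at h1
    have h2 := hgrow t h0
    have h3 := abs_le.1 (hM (Φ t q z))
    linarith [h3.2]
  choose T hT0 hT using hesc
  -- the wave map
  let Ω : Q → E (n + 1) → E (n + 1) := fun q z => Φ (T q z) q z - T q z • ey
  have hstable : ∀ q z (t t' : ℝ), R' ≤ py (Φ t q z) → t ≤ t' →
      Φ t' q z - t' • ey = Φ t q z - t • ey := by
    intro q z t t' ht htt
    have h1 : t' = (t' - t) + t := by ring
    rw [h1, Φadd, hright q _ (t' - t) ht (by linarith), ← h1, sub_smul]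
    abel
  have hΩ : ∀ q z (t : ℝ), R' ≤ py (Φ t q z) → Ω q z = Φ t q z - t • ey := by
    intro q z t ht
    have h1 := hT q z (T q z) le_rfl
    show Φ (T q z) q z - T q z • ey = _
    rw [← hstable q z (T q z) (max (T q z) t) (by linarith) (le_max_left _ _),
      ← hstable q z t (max (T q z) t) ht (le_max_right _ _)]
  -- smoothness
  have hΩs : ContDiff ℝ ∞ (fun p : Q × E (n + 1) => Ω p.1 p.2) := by
    rw [contDiff_iff_contDiffAt]
    rintro ⟨q, z⟩
    set t := T q z with ht
    have hc : ContDiff ℝ ∞ (fun p : Q × E (n + 1) => Φ t p.1 p.2) :=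
      Φs.comp (contDiff_const.prodMk contDiff_id)
    have h1 : (fun p : Q × E (n + 1) => Ω p.1 p.2) =ᶠ[𝓝 (q, z)]
        fun p => Φ t p.1 p.2 - t • ey := by
      have h2 : ∀ᶠ p : Q × E (n + 1) in 𝓝 (q, z), R' < py (Φ t p.1 p.2) := by
        have h3 : Continuous (fun p : Q × E (n + 1) => py (Φ t p.1 p.2)) :=
          py.continuous.comp hc.continuous
        refine (isOpen_lt continuous_const h3).mem_nhds ?_
        have h4 := hT q z t le_rfl
        show R' < py (Φ t q z)
        linarith
      filter_upwards [h2] with p hp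
      exact hΩ p.1 p.2 t hp.le
    exact ContDiffAt.congr_of_eventuallyEq (hc.sub contDiff_const).contDiffAt h1
  -- the inverse
  let τ : E (n + 1) → ℝ := fun w => R' + 1 + py w ^ 2
  have hτ : ∀ w, R' ≤ py w + τ w := by
    intro w
    show R' ≤ py w + (R' + 1 + py w ^ 2)
    nlinarith [sq_nonneg (py w + 1), sq_nonneg (py w)]
  have hτ0 : ∀ w, 0 ≤ τ w := by
    intro w
    show 0 ≤ R' + 1 + py w ^ 2
    have := sq_nonneg (py w)
    linarith
  have hτs : ContDiff ℝ ∞ τ := contDiff_const.add (py.contDiff.pow 2)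
  let χ : Q → E (n + 1) → E (n + 1) := fun q w => Φ (-(τ w)) q (w + τ w • ey)
  have hback : ∀ q z (t : ℝ), Φ t q (Φ (-t) q z) = z := by
    intro q z t
    rw [← Φadd, add_neg_cancel, Φ0]
  have hback' : ∀ q z (t : ℝ), Φ (-t) q (Φ t q z) = z := by
    intro q z t
    rw [← Φadd, neg_add_cancel, Φ0]
  have hχ1 : ∀ q w, Ω q (χ q w) = w := by
    intro q w
    have h1 : Φ (τ w) q (χ q w) = w + τ w • ey := hback q _ _
    rw [hΩ q (χ q w) (τ w) (by rw [h1, hpyt]; exact hτ w), h1]
    abel
  have hχ2 : ∀ q z, χ q (Ω q z) = z := by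
    intro q z
    set w := Ω q z with hw
    set t := max (T q z) (τ w) with ht
    have h1 : Φ t q z = w + t • ey := by
      have h2 := hΩ q z t (by linarith [hT q z t (le_max_left _ _)])
      rw [← hw] at h2
      rw [h2]
      abel
    have h3 : Φ (t - τ w) q (w + τ w • ey) = w + t • ey := by
      rw [hright q _ _ (by rw [hpyt]; exact hτ w) (sub_nonneg.2 (le_max_right _ _)), sub_smul]
      abel
    show Φ (-(τ w)) q (w + τ w • ey) = z
    have h4 : w + τ w • ey = Φ (-(t - τ w)) q (w + t • ey) := by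
      rw [← h3, hback']
    rw [h4, ← Φadd, show -(τ w) + -(t - τ w) = -t by ring, ← h1, hback']
  have hχs : ∀ q, ContDiff ℝ ∞ (χ q) := by
    intro q
    have h1 : ContDiff ℝ ∞ (fun w : E (n + 1) => (-(τ w), q, w + τ w • (ey : E (n + 1)))) :=
      hτs.neg.prodMk (contDiff_const.prodMk (contDiff_id.add (hτs.smul contDiff_const)))
    exact Φs.comp h1
  -- symplecticity
  have hΦsymp : ∀ q (t : ℝ) z u v, omega (fderiv ℝ (Φ t q) z u) (fderiv ℝ (Φ t q) z v) =
      omega u v := by
    intro q t z u v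
    have h1 : ContDiff ℝ ∞ (fun p : ℝ × E (n + 1) => Φ p.1 q p.2) :=
      Φs.comp (contDiff_fst.prodMk (contDiff_const.prodMk contDiff_snd))
    refine symplectic_of_flow h1 (G := fun _ z => 0 + XH (fderiv ℝ (f q) z))
      (fun _ => (ham_sp (slice_smooth hfs q) 0 z u v).1)
      (fun _ z u v => (ham_sp (slice_smooth hfs q) 0 z u v).2) (fun z => Φ0 q z)
      (fun z t => ?_) t z u v
    show HasDerivAt (fun t => Φ t q z) (0 + XH (fderiv ℝ (f q) (Φ t q z))) t
    rw [zero_add]
    exact Φd q z t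
  have hΩsymp : ∀ q, IsSymplectomorphism (Ω q) := by
    intro q
    refine ⟨hΩs.comp (contDiff_const.prodMk contDiff_id), ⟨χ q, hχs q, hχ2 q, hχ1 q⟩,
      fun z u v => ?_⟩
    set t := T q z with ht
    have hc : ContDiff ℝ ∞ (Φ t q) := Φs.comp (contDiff_const.prodMk (contDiff_const.prodMk
      contDiff_id))
    have h1 : Ω q =ᶠ[𝓝 z] fun z => Φ t q z - t • ey := by
      have h2 : ∀ᶠ w in 𝓝 z, R' < py (Φ t q w) := by
        refine (isOpen_lt continuous_const (py.continuous.comp hc.continuous)).mem_nhds ?_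
        have h4 := hT q z t le_rfl
        show R' < py (Φ t q z)
        linarith
      filter_upwards [h2] with w hw
      exact hΩ q w t hw.le
    have h3 : fderiv ℝ (Ω q) z = fderiv ℝ (Φ t q) z := by
      rw [h1.fderiv_eq, fderiv_sub_const]
    rw [h3]
    exact hΦsymp q t z u v
  -- behaviour in the outer and the left region
  have hout : ∀ q z, Out R' z → Ω q z = z := by
    intro q z hz
    rcases hz with hz | hz
    · rw [hΩ q z 0 (by rw [Φ0]; exact hz), Φ0, zero_smul, sub_zero]
    · show Φ (T q z) q z - T q z • ey = z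
      rw [hside q z _ hz, add_sub_cancel_right]
  have hleftΩ : ∀ q z (t : ℝ), py z ≤ -R' → 0 ≤ t → Ω q (z - t • ey) = Ω q z - t • ey := by
    intro q z t hz ht
    have h1 : Φ t q (z - t • ey) = z := by
      have h2 := hleft q z (-t) hz (by linarith)
      rw [neg_smul, ← sub_eq_add_neg] at h2
      rw [← h2, hback]
    have h3 : Φ (T q z + t) q (z - t • ey) = Φ (T q z) q z := by rw [Φadd, h1]
    rw [hΩ q (z - t • ey) (T q z + t) (by rw [h3]; linarith [hT q z (T q z) le_rfl]), h3, add_smul]
    show _ = Φ (T q z) q z - T q z • ey - t • ey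
    abel
  have hpxΩ : ∀ q z, px (Ω q z) = f q z := by
    intro q z
    have h1 := hT q z (T q z) le_rfl
    have h2 : R ≤ ‖Φ (T q z) q z‖ := by
      have h3 := abs_py_le (Φ (T q z) q z)
      have h4 := le_abs_self (py (Φ (T q z) q z))
      linarith
    have h5 := h.out_f q _ h2
    rw [hcons] at h5
    show px (Φ (T q z) q z - T q z • ey) = f q z
    rw [h5]
    simp
  -- the displacement
  obtain ⟨M, hM0, hM⟩ := bdd_on (G := fun p : Q × E (n + 1) => py (Ω p.1 p.2) - py p.2)
    ((py.continuous.comp hΩs.continuous).sub (py.continuous.comp continuous_snd)) hC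
    (R := R') (by linarith) (fun q z hz => by
      show py (Ω q z) - py z = 0
      rw [hout q z hz.out, sub_self])
    (fun q z t hz ht => by
      show py (Ω q (z - t • ey)) - py (z - t • ey) = py (Ω q z) - py z
      rw [hleftΩ q z t hz.le ht]
      simp)
  have hmove : ∀ q z, |py (Ω q z) - py z| ≤ M := by
    intro q z
    obtain ⟨q', hq', hqq⟩ := hK q
    have h1 : Ω q = Ω q' := unique_of_px (hΩsymp q) (hΩsymp q') (R := R')
      (fun z hz => hout q z (Or.inl hz)) (fun z hz => hout q' z (Or.inl hz))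
      (fun z => by rw [hpxΩ, hpxΩ, hqq])
    rw [h1]
    exact hM q' hq' z
  refine ⟨max R' M, Ω, le_trans (by linarith) (le_max_left _ _),
    ⟨hΩs, hΩsymp, fun q z hz => hout q z (hz.mono (le_max_left _ _)),
      fun q z t hz ht => hleftΩ q z t (by linarith [le_max_left R' M]) ht,
      fun q z => (hmove q z).trans (le_max_right _ _)⟩, hpxΩ, ?_⟩
  -- the case of brackets equal to one
  intro q hq z
  have h1 : ∀ t, HasDerivAt (fun t => g q (Φ t q z) - t) 0 t := by
    intro t
    have h2 := (hgd q z t).sub (hasDerivAt_id t)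
    rw [hq, sub_self] at h2
    exact h2
  have h3 := is_const_of_deriv_eq_zero (fun t => (h1 t).differentiableAt)
    (fun t => (h1 t).deriv) (T q z) 0
  simp only [Φ0, sub_zero] at h3
  have h4 := hT q z (T q z) le_rfl
  have h5 : R ≤ ‖Φ (T q z) q z‖ := by
    have h6 := abs_py_le (Φ (T q z) q z)
    have h7 := le_abs_self (py (Φ (T q z) q z))
    linarith
  have h8 := h.out_g q _ h5
  show py (Φ (T q z) q z - T q z • ey) = g q z
  rw [map_sub, map_smul, py_ey, smul_eq_mul, mul_one, ← h8]
  exact h3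

end Pool.Agent.H84.PP
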